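import Pool.Agent.Lib.MP_3a1c55_an.Pencil

/-!
# Linearisation

The equation `∑ (T_k R_k - R_k T_k) = 0`, where the `R_k` are polynomials in operators `r_i`, is
equivalent to a system of equations which are linear in the left and right multiplications by the
`r_i`, in the unknowns `x^u T_k` and `T_k x^u`.
-/

set_option autoImplicit false
set_option linter.unusedSectionVars false
set_option linter.unusedSimpArgs false

namespace Pool.Agent.Lib.MP_3a1c55_an

variable {H : Type} [NormedAddCommGroup H] [InnerProductSpace ℂ H]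
variable {n m : ℕ}

/-- the family `r` together with the identity -/
noncomputable def rrO (r : Fin n → H →L[ℂ] H) : Option (Fin n) → H →L[ℂ] H :=
  fun o => o.elim (ContinuousLinearMap.id ℂ H) r

@[simp] lemma rrO_none (r : Fin n → H →L[ℂ] H) : rrO r none = ContinuousLinearMap.id ℂ H := rfl
@[simp] lemma rrO_some (r : Fin n → H →L[ℂ] H) (i : Fin n) : rrO r (some i) = r i := rfl

section term
variable {k0 : Type} [Fintype k0] (r : Fin n → H →L[ℂ] H)

/-- expressions which are linear in the left and the right multiplications -/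
def IsTerm (F : (k0 → H →L[ℂ] H) → (H →L[ℂ] H)) : Prop :=
  ∃ p : Option (Fin n) → Option (Fin n) → k0 → ℂ,
    ∀ S, F S = ∑ j, ∑ i, ∑ k, p j i k • (rrO r i ∘L S k ∘L rrO r j)

lemma IsTerm.basic (i j : Option (Fin n)) (k : k0) :
    IsTerm r (fun S => rrO r i ∘L S k ∘L rrO r j) := by
  classical
  refine ⟨fun j' i' k' => if j' = j ∧ i' = i ∧ k' = k then 1 else 0, fun S => ?_⟩
  rw [Finset.sum_eq_single j, Finset.sum_eq_single i, Finset.sum_eq_single k]
  · simp
  · intro k' _ hk; simp [hk]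
  · intro h; exact absurd (Finset.mem_univ _) h
  · intro i' _ hi; simp [hi]
  · intro h; exact absurd (Finset.mem_univ _) h
  · intro j' _ hj; simp [hj]
  · intro h; exact absurd (Finset.mem_univ _) h

variable {r}

lemma IsTerm.add {F G : (k0 → H →L[ℂ] H) → (H →L[ℂ] H)} (hF : IsTerm r F) (hG : IsTerm r G) :
    IsTerm r (fun S => F S + G S) := by
  obtain ⟨p, hp⟩ := hF
  obtain ⟨q, hq⟩ := hG
  refine ⟨fun j i k => p j i k + q j i k, fun S => ?_⟩
  show F S + G S = _
  rw [hp, hq]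
  simp only [add_smul, Finset.sum_add_distrib]

lemma IsTerm.smul {F : (k0 → H →L[ℂ] H) → (H →L[ℂ] H)} (hF : IsTerm r F) (c : ℂ) :
    IsTerm r (fun S => c • F S) := by
  obtain ⟨p, hp⟩ := hF
  refine ⟨fun j i k => c * p j i k, fun S => ?_⟩
  show c • F S = _
  rw [hp]
  simp only [mul_smul, Finset.smul_sum]

lemma IsTerm.sub {F G : (k0 → H →L[ℂ] H) → (H →L[ℂ] H)} (hF : IsTerm r F) (hG : IsTerm r G) :
    IsTerm r (fun S => F S - G S) := by
  obtain ⟨p, hp⟩ := hF
  obtain ⟨q, hq⟩ := hG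
  refine ⟨fun j i k => p j i k - q j i k, fun S => ?_⟩
  show F S - G S = _
  rw [hp, hq]
  simp only [sub_smul, Finset.sum_sub_distrib]

lemma IsTerm.zero : IsTerm r (fun _ : k0 → H →L[ℂ] H => (0 : H →L[ℂ] H)) :=
  ⟨fun _ _ _ => 0, fun S => by simp⟩

lemma IsTerm.sum {P : Type} (t : Finset P) {F : P → (k0 → H →L[ℂ] H) → (H →L[ℂ] H)}
    (hF : ∀ p ∈ t, IsTerm r (F p)) : IsTerm r (fun S => ∑ p ∈ t, F p S) := by
  classical
  induction t using Finset.induction_on with
  | empty => simpa using IsTerm.zero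
  | insert a s ha ih =>
    simp only [Finset.sum_insert ha]
    exact (hF a (Finset.mem_insert_self _ _)).add
      (ih fun p hp => hF p (Finset.mem_insert_of_mem hp))

lemma IsTerm.coord (k : k0) : IsTerm r (fun S : k0 → H →L[ℂ] H => S k) := by
  have h := IsTerm.basic r none none k
  simpa using h

lemma IsTerm.left (i : Fin n) (k : k0) : IsTerm r (fun S : k0 → H →L[ℂ] H => r i ∘L S k) := by
  have h := IsTerm.basic r (some i) none k
  simpa using h

lemma IsTerm.right (i : Fin n) (k : k0) : IsTerm r (fun S : k0 → H →L[ℂ] H => S k ∘L r i) := by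
  have h := IsTerm.basic r none (some i) k
  simpa using h

end term

section words
variable (r : Fin n → H →L[ℂ] H)

/-- product of a word -/
noncomputable def wp : List (Fin n) → (H →L[ℂ] H)
  | [] => 1
  | i :: u => r i * wp u

/-- product of the reversed word -/
noncomputable def rp : List (Fin n) → (H →L[ℂ] H)
  | [] => 1
  | i :: u => rp u * r i

lemma wp_append (u v : List (Fin n)) : wp r (u ++ v) = wp r u * wp r v := by
  induction u with
  | nil => simp [wp]
  | cons i u ih => simp only [List.cons_append, wp, ih, mul_assoc]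

lemma rp_eq (u : List (Fin n)) : rp r u = wp r u.reverse := by
  induction u with
  | nil => rfl
  | cons i u ih =>
    rw [rp, ih, List.reverse_cons, wp_append]
    simp [wp]

lemma wp_mem (u : List (Fin n)) : wp r u ∈ Algebra.adjoin ℂ (Set.range r) := by
  induction u with
  | nil => exact Subalgebra.one_mem _
  | cons i u ih => exact Subalgebra.mul_mem _ (Algebra.subset_adjoin ⟨i, rfl⟩) ih

lemma rp_mem (u : List (Fin n)) : rp r u ∈ Algebra.adjoin ℂ (Set.range r) := by
  rw [rp_eq]; exact wp_mem r _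

lemma mem_span_wp {A : H →L[ℂ] H} (hA : A ∈ Algebra.adjoin ℂ (Set.range r)) :
    A ∈ Submodule.span ℂ (Set.range (wp r)) := by
  induction hA using Algebra.adjoin_induction with
  | mem x hx =>
    obtain ⟨i, rfl⟩ := hx
    exact Submodule.subset_span ⟨[i], by simp [wp]⟩
  | algebraMap c =>
    rw [Algebra.algebraMap_eq_smul_one]
    exact Submodule.smul_mem _ _ (Submodule.subset_span ⟨[], rfl⟩)
  | add x y _ _ hx hy => exact Submodule.add_mem _ hx hy
  | mul x y _ _ hx hy =>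
    have h : x * y ∈ Submodule.span ℂ (Set.range (wp r)) * Submodule.span ℂ (Set.range (wp r)) :=
      Submodule.mul_mem_mul hx hy
    rw [Submodule.span_mul_span] at h
    refine Submodule.span_mono ?_ h
    rintro _ ⟨_, ⟨u, rfl⟩, _, ⟨v, rfl⟩, rfl⟩
    exact ⟨u ++ v, wp_append r u v⟩

/-- words of bounded length -/
abbrev Wd (n N : ℕ) : Type := {l : List (Fin n) // l.length ≤ N}

noncomputable instance (n N : ℕ) : Fintype (Wd n N) :=
  (List.finite_length_le (Fin n) N).fintype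

lemma exists_expansion {A : H →L[ℂ] H} (hA : A ∈ Algebra.adjoin ℂ (Set.range r)) :
    ∃ (N : ℕ), ∀ N' ≥ N, ∃ q : List (Fin n) → ℂ, A = ∑ w : Wd n N', q w.1 • wp r w.1 := by
  have h := mem_span_wp r hA
  rw [Finsupp.mem_span_range_iff_exists_finsupp] at h
  obtain ⟨c, hc⟩ := h
  refine ⟨c.support.sup List.length, fun N' hN' => ⟨c, ?_⟩⟩
  rw [← hc, Finsupp.sum]
  symm
  have h1 : ∀ w ∈ c.support, w.length ≤ N' := fun w hw =>
    (Finset.le_sup (f := List.length) hw).trans hN'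
  refine Finset.sum_bij_ne_zero (fun w _ _ => w.1) (fun w _ hw => ?_) ?_ ?_ ?_
  · rw [Finsupp.mem_support_iff]
    intro h0; exact hw (by rw [h0, zero_smul])
  · intro w _ _ w' _ _ hww; exact Subtype.ext hww
  · intro w hw hw0
    exact ⟨⟨w, h1 w hw⟩, Finset.mem_univ _, hw0, rfl⟩
  · intro w _ _; rfl

/-- the equations of the linearised system -/
noncomputable def eqn {N : ℕ} (q q' : Fin m → List (Fin n) → ℂ) :
    ((Fin m × Bool × Wd n N) ⊕ Unit) → (Fin m × Bool × Wd n N → H →L[ℂ] H) → (H →L[ℂ] H)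
  | Sum.inl (_, false, ⟨[], _⟩), _ => 0
  | Sum.inl (k, true, ⟨[], h⟩), S => S (k, true, ⟨[], h⟩) - S (k, false, ⟨[], h⟩)
  | Sum.inl (k, false, ⟨i :: u, h⟩), S =>
      S (k, false, ⟨i :: u, h⟩) - r i ∘L S (k, false, ⟨u, (Nat.le_succ _).trans h⟩)
  | Sum.inl (k, true, ⟨i :: u, h⟩), S =>
      S (k, true, ⟨i :: u, h⟩) - S (k, true, ⟨u, (Nat.le_succ _).trans h⟩) ∘L r i
  | Sum.inr _, S => ∑ k, ∑ w : Wd n N, (q' k w.1 • S (k, true, w) - q k w.1 • S (k, false, w))

lemma isTerm_eqn {N : ℕ} (q q' : Fin m → List (Fin n) → ℂ)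
    (l : (Fin m × Bool × Wd n N) ⊕ Unit) : IsTerm r (eqn r q q' l) := by
  rcases l with ⟨k, _ | _, ⟨_ | ⟨i, u⟩, h⟩⟩ | l
  · exact IsTerm.zero
  · exact (IsTerm.coord _).sub (IsTerm.left _ _)
  · exact (IsTerm.coord _).sub (IsTerm.coord _)
  · exact (IsTerm.coord _).sub (IsTerm.right _ _)
  · exact IsTerm.sum _ fun k _ => IsTerm.sum _ fun w _ =>
      ((IsTerm.coord _).smul _).sub ((IsTerm.coord _).smul _)

lemma eqn_solution {N : ℕ} (q q' : Fin m → List (Fin n) → ℂ)
    (S : Fin m × Bool × Wd n N → H →L[ℂ] H)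
    (hS : ∀ d, eqn r q q' (Sum.inl d) S = 0) (k : Fin m) :
    ∀ (u : List (Fin n)) (h : u.length ≤ N),
      S (k, false, ⟨u, h⟩) = wp r u * S (k, false, ⟨[], Nat.zero_le _⟩) ∧
      S (k, true, ⟨u, h⟩) = S (k, false, ⟨[], Nat.zero_le _⟩) * rp r u := by
  intro u
  induction u with
  | nil =>
    intro h
    have h1 : S (k, true, ⟨[], h⟩) - S (k, false, ⟨[], h⟩) = 0 := hS (k, true, ⟨[], h⟩)
    rw [sub_eq_zero] at h1
    exact ⟨by simp [wp], by rw [h1]; simp [rp]⟩
  | cons i u ih =>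
    intro h
    obtain ⟨ih1, ih2⟩ := ih ((Nat.le_succ _).trans h)
    have h1 : S (k, false, ⟨i :: u, h⟩) - r i ∘L S (k, false, ⟨u, (Nat.le_succ _).trans h⟩) = 0 :=
      hS (k, false, ⟨i :: u, h⟩)
    have h2 : S (k, true, ⟨i :: u, h⟩) - S (k, true, ⟨u, (Nat.le_succ _).trans h⟩) ∘L r i = 0 :=
      hS (k, true, ⟨i :: u, h⟩)
    rw [sub_eq_zero] at h1 h2
    constructor
    · rw [h1, ih1, wp, mul_assoc]; rfl
    · rw [h2, ih2, rp, ← mul_assoc]; rfl

lemma eqn_of_form {N : ℕ} (q q' : Fin m → List (Fin n) → ℂ)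
    (S : Fin m × Bool × Wd n N → H →L[ℂ] H)
    (hS : ∀ (k : Fin m) (u : List (Fin n)) (h : u.length ≤ N),
      S (k, false, ⟨u, h⟩) = wp r u * S (k, false, ⟨[], Nat.zero_le _⟩) ∧
      S (k, true, ⟨u, h⟩) = S (k, false, ⟨[], Nat.zero_le _⟩) * rp r u) :
    ∀ d, eqn r q q' (Sum.inl d) S = 0 := by
  rintro ⟨k, _ | _, ⟨_ | ⟨i, u⟩, h⟩⟩
  · rfl
  · show S (k, false, ⟨i :: u, h⟩) - r i ∘L S (k, false, ⟨u, (Nat.le_succ _).trans h⟩) = 0
    rw [sub_eq_zero, (hS k (i :: u) h).1, (hS k u ((Nat.le_succ _).trans h)).1, wp, mul_assoc]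
    rfl
  · show S (k, true, ⟨[], h⟩) - S (k, false, ⟨[], h⟩) = 0
    rw [sub_eq_zero, (hS k [] h).2]
    simp [rp]
  · show S (k, true, ⟨i :: u, h⟩) - S (k, true, ⟨u, (Nat.le_succ _).trans h⟩) ∘L r i = 0
    rw [sub_eq_zero, (hS k (i :: u) h).2, (hS k u ((Nat.le_succ _).trans h)).2, rp, ← mul_assoc]
    rfl

/-- **Linearisation.** -/
theorem lin (Rk : Fin m → H →L[ℂ] H) (hR : ∀ k, Rk k ∈ Algebra.adjoin ℂ (Set.range r)) :
    ∃ (k0 k1 : Type) (_ : Fintype k0) (_ : Fintype k1)
      (P : Option (Fin n) → Option (Fin n) → Matrix k1 k0 ℂ)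
      (κ : k0 → Fin m) (a s : k0 → H →L[ℂ] H) (δ : Fin m → k0),
      (∀ d, a d ∈ Algebra.adjoin ℂ (Set.range r)) ∧
      (∀ d, s d ∈ Algebra.adjoin ℂ (Set.range r)) ∧
      (∀ S : k0 → H →L[ℂ] H,
        (∀ l, ∑ j, ∑ i, ∑ k, P j i l k • (rrO r i ∘L S k ∘L rrO r j) = 0) ↔
        (∀ d, S d = a d ∘L S (δ (κ d)) ∘L s d) ∧
          ∑ k, (S (δ k) ∘L Rk k - Rk k ∘L S (δ k)) = 0) ∧
      (∀ k, κ (δ k) = k ∧ a (δ k) = 1 ∧ s (δ k) = 1) := by
  classical
  -- expansions of the `Rk`
  choose N0 hN0 using fun k => exists_expansion r (hR k)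
  set N : ℕ := Finset.univ.sup N0 with hN
  choose q hq using fun k => hN0 k N (Finset.le_sup (Finset.mem_univ k))
  set q' : Fin m → List (Fin n) → ℂ := fun k w => q k w.reverse with hq'
  have hrev : ∀ k, Rk k = ∑ w : Wd n N, q' k w.1 • rp r w.1 := by
    intro k
    rw [hq k]
    refine Finset.sum_bij' (fun w _ => ⟨w.1.reverse, by rw [List.length_reverse]; exact w.2⟩)
      (fun w _ => ⟨w.1.reverse, by rw [List.length_reverse]; exact w.2⟩) ?_ ?_ ?_ ?_ ?_
    · intro w _; exact Finset.mem_univ _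
    · intro w _; exact Finset.mem_univ _
    · intro w _; exact Subtype.ext (List.reverse_reverse _)
    · intro w _; exact Subtype.ext (List.reverse_reverse _)
    · intro w _
      simp only [hq', List.reverse_reverse, rp_eq]
  choose P hP using fun l => isTerm_eqn r (N := N) q q' l
  refine ⟨Fin m × Bool × Wd n N, (Fin m × Bool × Wd n N) ⊕ Unit, inferInstance, inferInstance,
    fun j i l k => P l j i k, fun d => d.1,
    fun d => if d.2.1 then 1 else wp r d.2.2.1, fun d => if d.2.1 then rp r d.2.2.1 else 1,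
    fun k => (k, false, ⟨[], Nat.zero_le _⟩), ?_, ?_, ?_, ?_⟩
  · rintro ⟨k, _ | _, w⟩
    · exact wp_mem r _
    · exact Subalgebra.one_mem _
  · rintro ⟨k, _ | _, w⟩
    · exact Subalgebra.one_mem _
    · exact rp_mem r _
  · intro S
    have e1 : (∀ l, ∑ j, ∑ i, ∑ k, (fun j i l k => P l j i k) j i l k •
        (rrO r i ∘L S k ∘L rrO r j) = 0) ↔ ∀ l, eqn r q q' l S = 0 := by
      constructor
      · intro h l; rw [hP l S]; exact h l
      · intro h l
        have := h l
        rw [hP l S] at this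
        exact this
    have e2 : ((∀ d : Fin m × Bool × Wd n N, S d = (if d.2.1 then 1 else wp r d.2.2.1) ∘L
        S (d.1, false, ⟨[], Nat.zero_le _⟩) ∘L (if d.2.1 then rp r d.2.2.1 else 1))) ↔
        ∀ (k : Fin m) (u : List (Fin n)) (h : u.length ≤ N),
          S (k, false, ⟨u, h⟩) = wp r u * S (k, false, ⟨[], Nat.zero_le _⟩) ∧
          S (k, true, ⟨u, h⟩) = S (k, false, ⟨[], Nat.zero_le _⟩) * rp r u := by
      constructor
      · intro h k u hu
        exact ⟨h (k, false, ⟨u, hu⟩), h (k, true, ⟨u, hu⟩)⟩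
      · rintro h ⟨k, _ | _, ⟨u, hu⟩⟩
        · exact (h k u hu).1
        · exact (h k u hu).2
    have e3 : (∀ (k : Fin m) (u : List (Fin n)) (h : u.length ≤ N),
          S (k, false, ⟨u, h⟩) = wp r u * S (k, false, ⟨[], Nat.zero_le _⟩) ∧
          S (k, true, ⟨u, h⟩) = S (k, false, ⟨[], Nat.zero_le _⟩) * rp r u) →
        eqn r q q' (Sum.inr ()) S = ∑ k, (S (k, false, ⟨[], Nat.zero_le _⟩) ∘L Rk k -
          Rk k ∘L S (k, false, ⟨[], Nat.zero_le _⟩)) := by
      intro h
      show ∑ k, ∑ w : Wd n N, (q' k w.1 • S (k, true, w) - q k w.1 • S (k, false, w)) = _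
      refine Finset.sum_congr rfl fun k _ => ?_
      rw [Finset.sum_sub_distrib]
      congr 1
      · rw [hrev k]
        show _ = S (k, false, ⟨[], Nat.zero_le _⟩) * _
        rw [Finset.mul_sum]
        refine Finset.sum_congr rfl fun w _ => ?_
        rw [(h k w.1 w.2).2, mul_smul_comm]
      · rw [hq k]
        show _ = _ * S (k, false, ⟨[], Nat.zero_le _⟩)
        rw [Finset.sum_mul]
        refine Finset.sum_congr rfl fun w _ => ?_
        rw [(h k w.1 w.2).1, smul_mul_assoc]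
    rw [e1, e2]
    constructor
    · intro h
      have h1 := fun k => eqn_solution r q q' S (fun d => h (Sum.inl d)) k
      refine ⟨h1, ?_⟩
      rw [← e3 h1]
      exact h (Sum.inr ())
    · rintro ⟨h1, h2⟩ l
      rcases l with d | l
      · exact eqn_of_form r q q' S h1 d
      · rw [← e3 h1] at h2
        exact h2
  · intro k
    exact ⟨rfl, rfl, rfl⟩

end words

end Pool.Agent.Lib.MP_3a1c55_an
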