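import Pool.Agent.Lib.MP_3a1c55_an.HS
import Pool.Agent.Lib.MP_3a1c55_an.Lin

/-!
# The distance formula for the free-derivation dimension
-/

set_option autoImplicit false
set_option linter.unusedSectionVars false
set_option linter.unusedSimpArgs false

open scoped InnerProductSpace

namespace Pool.Agent.Lib.MP_3a1c55_an

open TracialRep

variable {H : Type} [NormedAddCommGroup H] [InnerProductSpace ℂ H] [CompleteSpace H]
variable {ι : Type} (b : HilbertBasis ι ℂ H)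

lemma finRank_mem_HSC {T : H →L[ℂ] H} (hT : FinRank T) : T ∈ HSC b := by
  unfold FinRank at hT
  set V : Submodule ℂ H := LinearMap.range ((T : H →L[ℂ] H) : H →ₗ[ℂ] H) with hV
  let e := stdOrthonormalBasis ℂ V
  have h : T = ∑ i, rk ((e i : V) : H) (ContinuousLinearMap.adjoint T (e i : H)) := by
    ext x
    rw [sum_apply]
    simp only [rk_apply]
    have hx : T x ∈ V := ⟨x, rfl⟩
    have h1 := e.sum_repr' ⟨T x, hx⟩
    have h2 := congrArg (fun v : V => (v : H)) h1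
    simp only [Submodule.coe_sum, Submodule.coe_smul, Submodule.coe_inner] at h2
    rw [← h2]
    refine Finset.sum_congr rfl fun i _ => ?_
    rw [ContinuousLinearMap.adjoint_inner_left]
  rw [h]
  exact Submodule.sum_mem _ fun i _ => rk_mem_HSC b _ _

variable {m : ℕ}

/-- the embedded space of finite-rank solutions -/
def KZ (Rk : Fin m → H →L[ℂ] H) : Submodule ℂ (Pw (Fin m) (HSp ι H)) where
  carrier := {x | ∃ T : Fin m → H →L[ℂ] H, (∀ k, FinRank (T k)) ∧
    ∑ k, (T k ∘L Rk k - Rk k ∘L T k) = 0 ∧ ∀ k i, (x k : ι → H) i = T k (b i)}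
  add_mem' := by
    rintro x x' ⟨T, hT, hs, hx⟩ ⟨T', hT', hs', hx'⟩
    refine ⟨fun k => T k + T' k, fun k => (hT k).add (hT' k), ?_, fun k i => ?_⟩
    · have : ∀ k, (T k + T' k) ∘L Rk k - Rk k ∘L (T k + T' k) =
          (T k ∘L Rk k - Rk k ∘L T k) + (T' k ∘L Rk k - Rk k ∘L T' k) := by
        intro k
        rw [ContinuousLinearMap.add_comp, ContinuousLinearMap.comp_add]
        abel
      simp only [this, Finset.sum_add_distrib, hs, hs', add_zero]
    · rw [PiLp.add_apply, lp.coeFn_add, Pi.add_apply, hx, hx']; rfl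
  zero_mem' := by
    refine ⟨fun _ => 0, fun _ => FinRank.zero, ?_, fun k i => ?_⟩
    · simp
    · rfl
  smul_mem' := by
    rintro c x ⟨T, hT, hs, hx⟩
    refine ⟨fun k => c • T k, fun k => (hT k).smul c, ?_, fun k i => ?_⟩
    · have : ∀ k, (c • T k) ∘L Rk k - Rk k ∘L (c • T k) =
          c • (T k ∘L Rk k - Rk k ∘L T k) := by
        intro k
        rw [ContinuousLinearMap.smul_comp, ContinuousLinearMap.comp_smul, smul_sub]
      simp only [this, ← Finset.smul_sum, hs, smul_zero]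
    · rw [PiLp.smul_apply, lp.coeFn_smul, Pi.smul_apply, hx]; rfl

lemma mem_KZ (Rk : Fin m → H →L[ℂ] H) (x : Pw (Fin m) (HSp ι H)) :
    x ∈ KZ b Rk ↔ ∃ T : Fin m → H →L[ℂ] H, (∀ k, FinRank (T k)) ∧
    ∑ k, (T k ∘L Rk k - Rk k ∘L T k) = 0 ∧ ∀ k i, (x k : ι → H) i = T k (b i) := Iff.rfl

lemma HSp_norm_sq (x : HSp ι H) : ‖x‖ ^ 2 = ∑' i, ‖(x : ι → H) i‖ ^ 2 := by
  have h := lp.norm_rpow_eq_tsum (p := 2) (by norm_num) x
  simpa using h

/-- the point attached to a tuple of finite rank operators -/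
noncomputable def pnt {κ : Type} [Fintype κ] (T : κ → H →L[ℂ] H) (hT : ∀ k, FinRank (T k)) :
    Pw κ (HSp ι H) :=
  WithLp.toLp 2 fun k => emb b ⟨T k, finRank_mem_HSC b (hT k)⟩

lemma pnt_apply {κ : Type} [Fintype κ] (T : κ → H →L[ℂ] H) (hT : ∀ k, FinRank (T k)) (k : κ)
    (i : ι) : ((pnt b T hT k : HSp ι H) : ι → H) i = T k (b i) := rfl

lemma eq_pnt {κ : Type} [Fintype κ] {x : Pw κ (HSp ι H)} {T : κ → H →L[ℂ] H}
    (hT : ∀ k, FinRank (T k)) (hx : ∀ k i, (x k : ι → H) i = T k (b i)) : x = pnt b T hT := by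
  ext k i
  rw [hx, pnt_apply]

lemma op_ext {S T : H →L[ℂ] H} (h : ∀ i, S (b i) = T (b i)) : S = T := by
  have h1 : Set.EqOn S T (Set.range b) := by rintro _ ⟨i, rfl⟩; exact h i
  have h2 : DenseRange (fun x => x) := Function.surjective_id.denseRange (X := H)
  refine ContinuousLinearMap.ext_on ?_ h1
  have h3 := b.dense_span
  rw [← Submodule.dense_iff_topologicalClosure_eq_top] at h3
  exact h3

lemma pnt_eq_zero {κ : Type} [Fintype κ] {T : κ → H →L[ℂ] H} {hT : ∀ k, FinRank (T k)}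
    (h : pnt b T hT = 0) : T = 0 := by
  funext k
  refine op_ext b fun i => ?_
  rw [← pnt_apply b T hT k i, h]
  rfl

lemma delta_formula (R : TracialRep H) (Rk : Fin m → H →L[ℂ] H) :
    (∑ j : Fin m, ⨅ T : {T : Fin m → (H →L[ℂ] H) // (∀ k, FinRank (T k)) ∧
        ∑ k, (T k ∘L Rk k - Rk k ∘L T k) = 0},
      ∑ k : Fin m, ∑' i : ι,
        ‖(T.1 k) (b i) - (if k = j then ⟪R.Ω, b i⟫_ℂ • R.Ω else 0)‖ ^ 2) =
    m - (hsRep b R).dim (KZ b Rk) := by
  have key : ∀ j : Fin m, (⨅ T : {T : Fin m → (H →L[ℂ] H) // (∀ k, FinRank (T k)) ∧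
        ∑ k, (T k ∘L Rk k - Rk k ∘L T k) = 0},
      ∑ k : Fin m, ∑' i : ι,
        ‖(T.1 k) (b i) - (if k = j then ⟪R.Ω, b i⟫_ℂ • R.Ω else 0)‖ ^ 2) =
      1 - ‖prj (KZ b Rk) (sing j (hsRep b R).Ω)‖ ^ 2 := by
    intro j
    have h1 : ‖(sing j (hsRep b R).Ω : Pw (Fin m) (HSp ι H))‖ ^ 2 = 1 := by
      rw [norm_sing, (hsRep b R).norm_Ω, one_pow]
    rw [← h1, ← iInf_norm_sub_sq]
    refine Function.Surjective.iInf_congr (fun T => ⟨pnt b T.1 T.2.1, T.1, T.2.1, T.2.2,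
      fun k i => rfl⟩) ?_ ?_
    · rintro ⟨x, T, hT, hs, hx⟩
      exact ⟨⟨T, hT, hs⟩, Subtype.ext (eq_pnt b hT hx).symm⟩
    · rintro ⟨T, hT, hs⟩
      rw [PiLp.norm_sq_eq_of_L2]
      refine Finset.sum_congr rfl fun k _ => ?_
      rw [HSp_norm_sq]
      refine tsum_congr fun i => ?_
      congr 2
      rw [PiLp.sub_apply, lp.coeFn_sub, Pi.sub_apply, pnt_apply, sing_apply]
      split_ifs with h
      · rfl
      · rfl
  simp only [key]
  rw [Finset.sum_sub_distrib]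
  simp [TracialRep.dim]

section inv
variable (R : TracialRep H)

lemma LR_pnt {κ : Type} [Fintype κ] (a s : H →L[ℂ] H) (T : κ → H →L[ℂ] H)
    (hT : ∀ k, FinRank (T k)) (k : κ) :
    LR b a s (pnt b T hT k) = emb b ⟨a ∘L T k ∘L s, HSC_comp b a s (finRank_mem_HSC b (hT k))⟩ :=
  LR_emb b a s _

lemma inv_KZ {Rk : Fin m → H →L[ℂ] H} (hR : ∀ k, R.Comm (Rk k)) :
    (hsRep b R).Inv (KZ b Rk) := by
  rintro _ ⟨a, ha, s, hs, rfl⟩ x ⟨T, hT, hsum, hx⟩
  refine ⟨fun k => a ∘L T k ∘L s, fun k => (((hT k).comp_right s).comp_left a), ?_,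
    fun k i => ?_⟩
  · have h1 : ∀ k, (a ∘L T k ∘L s) ∘L Rk k - Rk k ∘L (a ∘L T k ∘L s) =
        a ∘L (T k ∘L Rk k - Rk k ∘L T k) ∘L s := by
      intro k
      ext v
      simp only [sub_apply, ContinuousLinearMap.comp_apply, map_sub]
      rw [hR k a ha, hR k s hs]
    simp only [h1]
    have h2 : ∑ k, a ∘L (T k ∘L Rk k - Rk k ∘L T k) ∘L s =
        a ∘L (∑ k, (T k ∘L Rk k - Rk k ∘L T k)) ∘L s := by
      ext v
      simp [sum_apply]
    rw [h2, hsum]
    simp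
  · rw [eq_pnt b hT hx, diag_apply, LR_pnt]
    rfl

/-- No finite-rank relations when the dimension vanishes. -/
lemma KZ_eq_bot {Rk : Fin m → H →L[ℂ] H} (h : KZ b Rk = ⊥) {T : Fin m → H →L[ℂ] H}
    (hT : ∀ k, FinRank (T k)) (hs : ∑ k, (T k ∘L Rk k - Rk k ∘L T k) = 0) : T = 0 := by
  have h1 : pnt b T hT ∈ KZ b Rk := ⟨T, hT, hs, fun k i => rfl⟩
  rw [h, Submodule.mem_bot] at h1
  exact pnt_eq_zero b h1

lemma NK_of_bot {n : ℕ} {r : Fin n → H →L[ℂ] H} (h : KZ b r = ⊥) : NK (rrO r) := by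
  intro T hT h1 h2
  have h3 : ∀ i : Fin n, T (some i) = 0 := by
    have h4 := KZ_eq_bot b h (T := fun i => T (some i)) (fun i => hT _) (by
      rw [Fintype.sum_option] at h1 h2
      rw [Finset.sum_sub_distrib]
      simp only [rrO_none, rrO_some, ContinuousLinearMap.comp_id,
        ContinuousLinearMap.id_comp] at h1 h2
      rw [sub_eq_zero]
      exact add_left_cancel (h1.trans h2.symm))
    intro i
    exact congrFun h4 i
  intro j
  rcases j with _ | i
  · rw [Fintype.sum_option] at h1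
    simpa [h3] using h1
  · exact h3 i

end inv

end Pool.Agent.Lib.MP_3a1c55_an
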