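import Pool.Agent.Lib.MP_3a1c55_an.Tens

/-!
# The main inequality

For a bilinear pencil `Λ(T) = ∑ P_{j,i} r_i T r_j` on tuples of finite rank operators, the closure of
the kernel has dimension at least one as soon as the kernel is non-zero.
-/

set_option autoImplicit false
set_option linter.unusedSectionVars false
set_option linter.unusedSimpArgs false

open scoped InnerProductSpace
open Filter Topology

namespace Pool.Agent.Lib.MP_3a1c55_an

open TracialRep

section ins

variable {K : Type*} [NormedAddCommGroup K] [InnerProductSpace ℂ K] [CompleteSpace K]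
variable {κ κ' γ : Type} [Fintype κ] [Fintype κ'] [Fintype γ]

open Classical in
/-- insertion in a slice -/
noncomputable def ins (g : γ) : Pw κ K →L[ℂ] Pw (γ × κ) K :=
  ((PiLp.continuousLinearEquiv 2 ℂ (fun _ : γ × κ => K)).symm :
      (γ × κ → K) →L[ℂ] PiLp 2 (fun _ : γ × κ => K)) ∘L
    (ContinuousLinearMap.pi fun p => if p.1 = g then PiLp.proj 2 (fun _ : κ => K) p.2 else 0)

open Classical in
lemma ins_apply (g : γ) (x : Pw κ K) (p : γ × κ) :
    (ins g x : Pw (γ × κ) K) p = if p.1 = g then x p.2 else 0 := by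
  show (if p.1 = g then PiLp.proj 2 (fun _ : κ => K) p.2 else 0) x = _
  split_ifs <;> simp

lemma inter_ins (R : TracialRep K) (g : γ) : R.Inter (ins g : Pw κ K →L[ℂ] Pw (γ × κ) K) := by
  intro a _ x
  ext p
  show (ins g (diag κ a x) : Pw (γ × κ) K) p = a ((ins g x : Pw (γ × κ) K) p)
  rw [ins_apply, ins_apply, diag_apply]
  split_ifs
  · rfl
  · rw [map_zero]

lemma sl_ins_same (g : γ) (x : Pw κ K) : (sl g (ins g x : Pw (γ × κ) K) : Pw κ K) = x := by
  ext k
  rw [sl_apply, ins_apply, if_pos rfl]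

lemma sl_ins_ne {g g' : γ} (h : g' ≠ g) (x : Pw κ K) :
    (sl g' (ins g x : Pw (γ × κ) K) : Pw κ K) = 0 := by
  ext k
  rw [sl_apply, ins_apply, if_neg h]
  rfl

lemma sum_ins (x : Pw (γ × κ) K) : ∑ g, ins g (sl g x : Pw κ K) = x := by
  ext p
  rw [WithLp.ofLp_sum, Finset.sum_apply, Finset.sum_eq_single p.1]
  · rw [ins_apply, if_pos rfl]; rfl
  · intro g _ hg
    rw [ins_apply, if_neg hg.symm]
  · simp

/-- the common exact preimage is dense -/
lemma dense_common_preimage (R : TracialRep K) {A : Pw κ K →L[ℂ] Pw κ' K} (hA : R.Inter A)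
    (hd : A.range.topologicalClosure = ⊤) (z : K) :
    z ∈ closure {z : K | ∀ k' : κ', (sing k' z : Pw κ' K) ∈ A.range} := by
  set AA : Pw (κ' × κ) K →L[ℂ] Pw (κ' × κ') K := ∑ g : κ', ins g ∘L A ∘L sl g with hAA
  have hAAI : R.Inter AA :=
    inter_sum R _ fun g => (inter_ins R g).comp (hA.comp (inter_pull R _))
  have hAAap : ∀ x, AA x = ∑ g : κ', ins g (A (sl g x)) := by
    intro x; simp [hAA, sum_apply]
  set B : Pw Unit K →L[ℂ] Pw (κ' × κ') K := ∑ g : κ', ins g ∘L sing g ∘L PiLp.proj 2 (fun _ : Unit => K) ()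
    with hB
  have hBap : ∀ x, B x = ∑ g : κ', ins g (sing g (x ())) := by
    intro x; simp [hB, sum_apply]
  have hBI : R.Inter B := by
    intro a _ x
    rw [hBap, hBap, map_sum]
    refine Finset.sum_congr rfl fun g _ => ?_
    rw [← inter_ins R g a ‹_›, diag_sing]
    rfl
  have hdense : AA.range.topologicalClosure = ⊤ := by
    rw [eq_top_iff]
    intro x _
    rw [← sum_ins x]
    refine Submodule.sum_mem _ fun g _ => ?_
    have h1 : (sl g x : Pw κ' K) ∈ closure (A.range : Set (Pw κ' K)) := by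
      have : (sl g x : Pw κ' K) ∈ A.range.topologicalClosure := by rw [hd]; trivial
      exact this
    have h2 : Set.MapsTo (ins g : Pw κ' K →L[ℂ] Pw (κ' × κ') K) (A.range : Set (Pw κ' K))
        (AA.range : Set (Pw (κ' × κ') K)) := by
      rintro _ ⟨y, rfl⟩
      refine ⟨ins g y, ?_⟩
      show AA (ins g y) = ins g (A y)
      rw [hAAap, Finset.sum_eq_single g]
      · rw [sl_ins_same]
      · intro g' _ hg'
        rw [sl_ins_ne hg', map_zero, map_zero]
      · simp
    exact h2.closure (ins g).continuous h1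
  have h := dense_preimage R hAAI hBI hdense
  -- transfer from `Pw Unit K`
  have h3 : (sing () z : Pw Unit K) ∈ closure
      ((AA.range.comap (B : Pw Unit K →ₗ[ℂ] Pw (κ' × κ') K) : Submodule ℂ (Pw Unit K)) :
        Set (Pw Unit K)) := by
    have : (sing () z : Pw Unit K) ∈
        (AA.range.comap (B : Pw Unit K →ₗ[ℂ] Pw (κ' × κ') K)).topologicalClosure := by
      rw [h]; trivial
    exact this
  have h4 : Set.MapsTo (fun x : Pw Unit K => x ())
      ((AA.range.comap (B : Pw Unit K →ₗ[ℂ] Pw (κ' × κ') K) : Submodule ℂ (Pw Unit K)) :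
        Set (Pw Unit K)) {z : K | ∀ k' : κ', (sing k' z : Pw κ' K) ∈ A.range} := by
    rintro x ⟨y, hy⟩ k'
    have hy' : AA y = B x := hy
    refine ⟨sl k' y, ?_⟩
    have h5 := congrArg (fun u : Pw (κ' × κ') K => (sl k' u : Pw κ' K)) hy'
    simp only [hAAap, hBap, map_sum] at h5
    rw [Finset.sum_eq_single k', Finset.sum_eq_single k'] at h5
    · rw [sl_ins_same, sl_ins_same] at h5
      exact h5
    · intro g _ hg
      exact sl_ins_ne hg.symm _
    · simp
    · intro g _ hg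
      exact sl_ins_ne hg.symm _
    · simp
  have h6 := h4.closure (PiLp.continuous_apply 2 (fun _ : Unit => K) ()) h3
  simpa using h6

end ins

variable {H : Type*} [NormedAddCommGroup H] [InnerProductSpace ℂ H] [CompleteSpace H]
variable {ι : Type*} (b : HilbertBasis ι ℂ H)
variable {J : Type} [Fintype J] (rr : J → H →L[ℂ] H)
variable {α β κ κ0 κ1 : Type} [Fintype α] [Fintype β] [Fintype κ] [Fintype κ0] [Fintype κ1]

lemma hs_zero_left (z : H) : hs b 0 z = 0 := by
  have := hs_smul_left b 0 (0 : H) z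
  simpa using this

lemma hs_zero_right (z : H) : hs b z 0 = 0 := by
  have := hs_smul_right b 0 z (0 : H)
  simpa using this

lemma hs_sum_left {γ : Type*} (s : Finset γ) (f : γ → H) (z : H) :
    hs b (∑ g ∈ s, f g) z = ∑ g ∈ s, hs b (f g) z := by
  classical
  induction s using Finset.induction_on with
  | empty => simp [hs_zero_left]
  | insert g s hg ih => rw [Finset.sum_insert hg, Finset.sum_insert hg, hs_add_left, ih]

lemma hs_sum_right {γ : Type*} (s : Finset γ) (f : γ → H) (x : H) :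
    hs b x (∑ g ∈ s, f g) = ∑ g ∈ s, hs b x (f g) := by
  classical
  induction s using Finset.induction_on with
  | empty => simp [hs_zero_right]
  | insert g s hg ih => rw [Finset.sum_insert hg, Finset.sum_insert hg, hs_add_right, ih]

lemma pt_sum_left {γ : Type*} (s : Finset γ) (f : γ → Pw κ H) (z : H) :
    pt b (∑ g ∈ s, f g) z = ∑ g ∈ s, pt b (f g) z := by
  ext1 k
  rw [pt_apply, WithLp.ofLp_sum, Finset.sum_apply, hs_sum_left, WithLp.ofLp_sum, Finset.sum_apply]
  rfl

lemma pt_sum_right {γ : Type*} (s : Finset γ) (f : γ → H) (x : Pw κ H) :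
    pt b x (∑ g ∈ s, f g) = ∑ g ∈ s, pt b x (f g) := by
  ext1 k
  rw [pt_apply, hs_sum_right, WithLp.ofLp_sum, Finset.sum_apply]
  rfl

/-- entrywise conjugate -/
def cj (c : J → Matrix β α ℂ) : J → Matrix β α ℂ := fun j => (c j).map (starRingEnd ℂ)

open Classical in
/-- the operator `1 ⊗ c(r)` acting from the right -/
noncomputable def CC (κ : Type) [Fintype κ] (c : J → Matrix β α ℂ) :
    Pw (α × κ) (HSp ι H) →L[ℂ] Pw (β × κ) (HSp ι H) :=
  pen (fun j => LR b (ContinuousLinearMap.id ℂ H) (rr j))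
    (fun j => Matrix.of fun (p : β × κ) (q : α × κ) => if p.2 = q.2 then c j p.1 q.1 else 0)

lemma CC_apply (c : J → Matrix β α ℂ) (x : Pw (α × κ) (HSp ι H)) (p : β × κ) :
    CC b rr κ c x p
      = ∑ j, ∑ a, c j p.1 a • LR b (ContinuousLinearMap.id ℂ H) (rr j) (x (a, p.2)) := by
  classical
  unfold CC
  rw [pen_apply]
  refine Finset.sum_congr rfl fun j _ => ?_
  rw [Fintype.sum_prod_type]
  refine Finset.sum_congr rfl fun a _ => ?_
  rw [Finset.sum_eq_single p.2]
  · simp
  · intro k _ hk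
    simp [hk.symm]
  · simp

variable {rr}

lemma inter_CC {R : TracialRep H} (hr : ∀ j, R.Comm (rr j)) (c : J → Matrix β α ℂ) :
    (hsRep b R).Inter (CC b rr κ c) := by
  unfold CC
  exact inter_pen (fun j => LR b (ContinuousLinearMap.id ℂ H) (rr j)) (hsRep b R)
    (fun j => hsRep_comm b R R.comm_id (hr j)) _

lemma CC_tn (hsa : ∀ j, ContinuousLinearMap.adjoint (rr j) = rr j) (c : J → Matrix β α ℂ)
    (φ : Pw κ H) (y : Pw α H) : CC b rr κ c (tn b φ y) = tn b φ (pen rr (cj c) y) := by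
  ext1 p
  rw [CC_apply, tn_apply, pen_apply, hs_sum_right]
  refine Finset.sum_congr rfl fun j _ => ?_
  rw [hs_sum_right]
  refine Finset.sum_congr rfl fun a _ => ?_
  rw [tn_apply, LR_hs, hsa, hs_smul_right]
  simp [cj]

variable (rr)

/-- the bilinear pencil on Hilbert-Schmidt operators -/
noncomputable def Lam (P : J → J → Matrix κ1 κ0 ℂ) :
    Pw κ0 (HSp ι H) →L[ℂ] Pw κ1 (HSp ι H) :=
  pen (fun p : J × J => LR b (rr p.1) (rr p.2)) (fun p => P p.2 p.1)

variable {rr}

lemma inter_Lam {R : TracialRep H} (hr : ∀ j, R.Comm (rr j)) (P : J → J → Matrix κ1 κ0 ℂ) :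
    (hsRep b R).Inter (Lam b rr P) := by
  unfold Lam
  exact inter_pen (fun p : J × J => LR b (rr p.1) (rr p.2)) (hsRep b R)
    (fun p => hsRep_comm b R (hr p.1) (hr p.2)) _

lemma Lam_pt (hsa : ∀ j, ContinuousLinearMap.adjoint (rr j) = rr j) (P : J → J → Matrix κ1 κ0 ℂ)
    (x : Pw κ0 H) (z : H) : Lam b rr P (pt b x z) = ∑ j, pt b (lam rr P j x) (rr j z) := by
  ext1 l
  unfold Lam
  rw [pen_apply, Fintype.sum_prod_type, WithLp.ofLp_sum, Finset.sum_apply, Finset.sum_comm]
  refine Finset.sum_congr rfl fun j _ => ?_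
  rw [pt_apply, lam, pen_apply, hs_sum_left]
  refine Finset.sum_congr rfl fun i _ => ?_
  rw [hs_sum_left]
  refine Finset.sum_congr rfl fun k _ => ?_
  rw [pt_apply, LR_hs, hsa, hs_smul_left]

lemma ev0_pt (w : Pw (α × ((α × κ0) ⊕ (β × κ1))) H) (z : H) :
    ev0 α β κ0 κ1 (HSp ι H) (pt b w z) = pt b (ev0 α β κ0 κ1 H w) z := by
  rw [ev0_apply, ev0_apply, pt_sum_left]
  rfl

lemma ev1_pt (w : Pw (β × ((α × κ0) ⊕ (β × κ1))) H) (z : H) :
    ev1 α β κ0 κ1 (HSp ι H) (pt b w z) = pt b (ev1 α β κ0 κ1 H w) z := by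
  rw [ev1_apply, ev1_apply, pt_sum_left]
  rfl

lemma ev0_tn (φ : Pw ((α × κ0) ⊕ (β × κ1)) H) (y : Pw α H) :
    ev0 α β κ0 κ1 (HSp ι H) (tn b φ y) = ∑ a, pt b (fc a φ) (y a) := by
  rw [ev0_apply]
  rfl

lemma ev1_tn (φ : Pw ((α × κ0) ⊕ (β × κ1)) H) (y : Pw β H) :
    ev1 α β κ0 κ1 (HSp ι H) (tn b φ y) = ∑ b', pt b (sc b' φ) (y b') := by
  rw [ev1_apply]
  rfl

/-- the intertwining relation between the two evaluations -/
lemma Lam_ev0_tn (hsa : ∀ j, ContinuousLinearMap.adjoint (rr j) = rr j)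
    (P : J → J → Matrix κ1 κ0 ℂ) (c : J → Matrix β α ℂ)
    {φ : Pw ((α × κ0) ⊕ (β × κ1)) H} (hφ : φ ∈ Mor rr P c) (y : Pw α H) :
    Lam b rr P (ev0 α β κ0 κ1 (HSp ι H) (tn b φ y))
      = ev1 α β κ0 κ1 (HSp ι H) (CC b rr _ c (tn b φ y)) := by
  rw [CC_tn b hsa, ev1_tn, ev0_tn, map_sum]
  have h1 : ∀ a, Lam b rr P (pt b (fc a φ) (y a))
      = ∑ j, ∑ b', c j b' a • pt b (sc b' φ) (rr j (y a)) := by
    intro a
    rw [Lam_pt b hsa]
    refine Finset.sum_congr rfl fun j _ => ?_
    rw [(mem_Mor.1 hφ) j a, pt_sum_left]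
    refine Finset.sum_congr rfl fun b' _ => ?_
    rw [pt_smul_left]
  have h2 : ∀ b', pt b (sc b' φ) (pen rr (cj c) y b')
      = ∑ j, ∑ a, c j b' a • pt b (sc b' φ) (rr j (y a)) := by
    intro b'
    rw [pen_apply, pt_sum_right]
    refine Finset.sum_congr rfl fun j _ => ?_
    rw [pt_sum_right]
    refine Finset.sum_congr rfl fun a _ => ?_
    rw [pt_smul_right]
    simp [cj]
  simp only [h1, h2]
  rw [Finset.sum_comm]
  conv_rhs => rw [Finset.sum_comm]
  refine Finset.sum_congr rfl fun j _ => ?_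
  rw [Finset.sum_comm]

lemma Lam_ev0 (hsa : ∀ j, ContinuousLinearMap.adjoint (rr j) = rr j)
    (P : J → J → Matrix κ1 κ0 ℂ) (c : J → Matrix β α ℂ)
    {t : Pw (α × ((α × κ0) ⊕ (β × κ1))) (HSp ι H)} (ht : t ∈ tspan b (Mor rr P c) ⊤) :
    Lam b rr P (ev0 α β κ0 κ1 (HSp ι H) t)
      = ev1 α β κ0 κ1 (HSp ι H) (CC b rr _ c t) := by
  induction ht using Submodule.span_induction with
  | mem u hu =>
    obtain ⟨φ, hφ, y, -, rfl⟩ := hu
    exact Lam_ev0_tn b hsa P c hφ y
  | zero => simp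
  | add u v _ _ hu hv => simp only [map_add, hu, hv]
  | smul t u _ hu => simp only [map_smul, hu]

/-- families of finite rank operators -/
noncomputable def FRK (κ0 : Type) [Fintype κ0] : Submodule ℂ (Pw κ0 (HSp ι H)) where
  carrier := {x | ∀ k, ∃ T : HSC b, FinRank T.1 ∧ x k = emb b T}
  add_mem' := by
    intro x y hx hy k
    obtain ⟨S, hS, hS'⟩ := hx k
    obtain ⟨T, hT, hT'⟩ := hy k
    refine ⟨S + T, hS.add hT, ?_⟩
    rw [map_add, ← hS', ← hT']
    rfl
  zero_mem' := fun k => ⟨0, FinRank.zero, by rw [map_zero]; rfl⟩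
  smul_mem' := by
    intro c x hx k
    obtain ⟨S, hS, hS'⟩ := hx k
    refine ⟨c • S, hS.smul c, ?_⟩
    rw [map_smul, ← hS']
    rfl

lemma pt_mem_FRK (x : Pw κ0 H) (z : H) : pt b x z ∈ FRK b κ0 := by
  intro k
  exact ⟨⟨rk (x k) z, rk_mem_HSC b _ _⟩, FinRank.rk _ _, rfl⟩

variable (rr)

/-- the kernel of the bilinear pencil on tuples of finite rank operators -/
noncomputable def KS (P : J → J → Matrix κ1 κ0 ℂ) : Submodule ℂ (Pw κ0 (HSp ι H)) :=
  FRK b κ0 ⊓ (Lam b rr P).ker

variable {rr}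

/-- the main inequality for a pencil `c` with dense range -/
lemma dim_sub_le_dim_KS {R : TracialRep H} (hr : ∀ j, R.Comm (rr j))
    (hsa : ∀ j, ContinuousLinearMap.adjoint (rr j) = rr j) {j0 : J}
    (hj0 : rr j0 = ContinuousLinearMap.id ℂ H)
    (P : J → J → Matrix κ1 κ0 ℂ) (c : J → Matrix β α ℂ)
    (hd : (pen rr (cj c)).range.topologicalClosure = ⊤) :
    R.dim (YY rr P c) - R.dim (WW rr P c) ≤ (hsRep b R).dim (KS b rr P) := by
  set R2 := hsRep b R with hR2
  set N := Mor rr P c with hN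
  have hNPK : IsPK rr N := isPK_Mor hj0 P c
  have hNinv : R.Inv N := hNPK.inv hr
  set E0 := ev0 α β κ0 κ1 (HSp ι H) with hE0
  set E1 := ev1 α β κ0 κ1 (HSp ι H) with hE1
  set C := CC b rr ((α × κ0) ⊕ (β × κ1)) c with hC
  have hCI : R2.Inter C := inter_CC b hr c
  have hE0I : R2.Inter E0 := inter_ev0 R2
  have hE1I : R2.Inter E1 := inter_ev1 R2
  set FRs : Submodule ℂ (Pw (α × ((α × κ0) ⊕ (β × κ1))) (HSp ι H)) :=
    tspan b N ⊤ ⊓ (E1 ∘L C).ker with hFRs
  have hFRsInv : R2.Inv FRs := (inv_tspan b R hNinv inv_top).inf ((hE1I.comp hCI).inv_ker)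
  -- dimension of the kernel of `pen rr (cj c)`
  have hpenI := inter_pen rr R hr (cj c)
  have hk := R.dim_range_add_dim_ker hpenI
  rw [← R.dim_closure, hd, R.dim_top] at hk
  -- (E2)
  set Z := tspan b N (pen rr (cj c)).ker with hZ
  have hZdim : R2.dim Z = R.dim N * (Fintype.card α - Fintype.card β) := by
    rw [hZ, hR2, dim_tspan]
    congr 1
    linarith
  have hCZ : ∀ x ∈ Z, C x = 0 := by
    intro x hx
    induction hx using Submodule.span_induction with
    | mem u hu =>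
      obtain ⟨φ, hφ, y, hy, rfl⟩ := hu
      have hy' : pen rr (cj c) y = 0 := hy
      rw [hC, CC_tn b hsa, hy']
      have := tn_smul_right b 0 φ (0 : Pw β H)
      simpa using this
    | zero => rw [map_zero]
    | add u v _ _ hu hv => rw [map_add, hu, hv, add_zero]
    | smul t u _ hu => rw [map_smul, hu, smul_zero]
  have hZle : Z ≤ FRs.topologicalClosure ⊓ C.ker := by
    intro x hx
    refine ⟨Submodule.le_topologicalClosure _ ⟨?_, ?_⟩, hCZ x hx⟩
    · have : Z ≤ tspan b N ⊤ := by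
        refine Submodule.span_mono ?_
        rintro _ ⟨φ, hφ, y, hy, rfl⟩
        exact ⟨φ, hφ, y, Submodule.mem_top, rfl⟩
      exact this hx
    · show E1 (C x) = 0
      rw [hCZ x hx, map_zero]
  have hrn1 := R2.dim_map_add_dim_inf_ker hFRsInv hCI
  have hrn1' : R.dim N * (Fintype.card α - Fintype.card β)
      ≤ R2.dim (FRs.topologicalClosure ⊓ C.ker) := by
    rw [← hZdim]; exact R2.dim_mono hZle
  -- (E1)
  have hE1' : R.dim (powS β N ⊓ (ev1 α β κ0 κ1 H).ker)
      ≤ R2.dim (FRs.map C.toLinearMap) := by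
    rw [← dim_hat b, ← hR2]
    refine R2.dim_le_of_le_closure ?_
    refine Submodule.span_le.2 ?_
    rintro _ ⟨w, ⟨hw1, hw2⟩, z, rfl⟩
    have hw2' : ev1 α β κ0 κ1 H w = 0 := hw2
    have hz := dense_common_preimage R hpenI hd z
    have hmaps : Set.MapsTo (fun z => pt b w z)
        {z : H | ∀ k' : β, (sing k' z : Pw β H) ∈ (pen rr (cj c)).range}
        ((FRs.map C.toLinearMap :
          Submodule ℂ _) : Set (Pw (β × ((α × κ0) ⊕ (β × κ1))) (HSp ι H))) := by
      intro z hz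
      choose g hg using hz
      have hg' : ∀ k', pen rr (cj c) (g k') = sing k' z := hg
      have hCt : C (∑ b', tn b (sl b' w) (g b')) = pt b w z := by
        rw [map_sum]
        ext1 p
        rw [WithLp.ofLp_sum, Finset.sum_apply, Finset.sum_eq_single p.1]
        · rw [hC, CC_tn b hsa, hg', tn_apply, sing_same, pt_apply]
          rfl
        · intro b' _ hb'
          rw [hC, CC_tn b hsa, hg', tn_apply, sing_apply, if_neg hb'.symm, hs_zero_right]
        · simp
      refine ⟨∑ b', tn b (sl b' w) (g b'), ⟨?_, ?_⟩, hCt⟩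
      · exact Submodule.sum_mem _ fun b' _ =>
          tn_mem_tspan b (mem_powS.1 hw1 b') Submodule.mem_top
      · show E1 (C (∑ b', tn b (sl b' w) (g b'))) = 0
        rw [hCt, hE1, ev1_pt, hw2']
        have := pt_smul_left b 0 (0 : Pw κ1 H) z
        simpa using this
    exact hmaps.closure ((continuous_pt b).comp (continuous_const.prodMk continuous_id)) hz
  -- (E3)
  have hrn2 := R2.dim_map_add_dim_inf_ker hFRsInv hE0I
  have hhatInv : R2.Inv (hat b (powS α N)) := inv_hat b R (hNPK.powS.inv hr)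
  have hrn3 := R2.dim_map_add_dim_inf_ker hhatInv hE0I
  have h3a : R2.dim (FRs.topologicalClosure ⊓ E0.ker)
      ≤ R2.dim ((hat b (powS α N)).topologicalClosure ⊓ E0.ker) := by
    refine R2.dim_mono (inf_le_inf_right _ (Submodule.topologicalClosure_mono ?_))
    rw [← tspan_top_eq_hat]
    exact inf_le_left
  have h3b : R.dim (YY rr P c) ≤ R2.dim ((hat b (powS α N)).map E0.toLinearMap) := by
    rw [← dim_hat b, ← hR2]
    refine R2.dim_mono ?_
    refine Submodule.span_le.2 ?_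
    rintro _ ⟨x, ⟨w, hw, rfl⟩, z, rfl⟩
    refine ⟨pt b w z, pt_mem_hat b hw z, ?_⟩
    exact ev0_pt b w z
  have h3c : R2.dim (hat b (powS α N)) = R.dim N * Fintype.card α := by
    rw [hR2, dim_hat, dim_powS]
  -- (E4)
  have hE4 : FRs.map E0.toLinearMap ≤ KS b rr P := by
    rintro _ ⟨t, ⟨ht1, ht2⟩, rfl⟩
    refine ⟨?_, ?_⟩
    · have : tspan b N ⊤ ≤ (FRK b κ0).comap E0.toLinearMap := by
        refine Submodule.span_le.2 ?_
        rintro _ ⟨φ, hφ, y, -, rfl⟩
        show E0 (tn b φ y) ∈ FRK b κ0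
        rw [hE0, ev0_tn]
        exact Submodule.sum_mem _ fun a _ => pt_mem_FRK b _ _
      exact this ht1
    · have ht2' : E1 (C t) = 0 := ht2
      show Lam b rr P (E0 t) = 0
      rw [hE0, Lam_ev0 b hsa P c ht1]
      exact ht2'
  have h4 := R2.dim_mono hE4
  -- conclusion
  have h5 := dim_WW hj0 hr P c
  rw [dim_powS] at h5
  rw [← hN] at h5
  nlinarith [h5, hrn1, hrn1', hE1', hrn2, hrn3, h3a, h3b, h3c, h4]

/-- positivity -/
lemma dim_YY_sub_pos {R : TracialRep H} (hr : ∀ j, R.Comm (rr j))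
    (hsa : ∀ j, ContinuousLinearMap.adjoint (rr j) = rr j) {j0 : J}
    (hj0 : rr j0 = ContinuousLinearMap.id ℂ H)
    (P : J → J → Matrix κ1 κ0 ℂ) (c : J → Matrix β α ℂ)
    (hd : (pen rr (cj c)).range.topologicalClosure = ⊤)
    {S : Pw κ0 (HSp ι H)} (hS : S ∈ hat b (YY rr P c)) (hS0 : S ≠ 0)
    (hLS : Lam b rr P S = 0) : 0 < R.dim (YY rr P c) - R.dim (WW rr P c) := by
  set R2 := hsRep b R with hR2
  set N := Mor rr P c with hN
  have hNPK : IsPK rr N := isPK_Mor hj0 P c
  have hYinv : R.Inv (YY rr P c) := (hNPK.powS.inv hr).map (inter_ev0 R)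
  have hLI : R2.Inter (Lam b rr P) := inter_Lam b hr P
  have hrn := R2.dim_map_add_dim_inf_ker (inv_hat b R hYinv) hLI
  rw [← hR2] at *
  have h1 : 0 < R2.dim ((hat b (YY rr P c)).topologicalClosure ⊓ (Lam b rr P).ker) := by
    refine R2.dim_pos_of_ne_bot ((inv_hat b R hYinv).closure.inf hLI.inv_ker) ?_
    intro h
    have : S ∈ (hat b (YY rr P c)).topologicalClosure ⊓ (Lam b rr P).ker :=
      ⟨Submodule.le_topologicalClosure _ hS, hLS⟩
    rw [h] at this
    exact hS0 this
  have h2 : R.dim (WW rr P c) ≤ R2.dim ((hat b (YY rr P c)).map (Lam b rr P).toLinearMap) := by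
    rw [← dim_hat b, ← hR2]
    refine R2.dim_le_of_le_closure ?_
    refine Submodule.span_le.2 ?_
    rintro _ ⟨x, ⟨w, hw, rfl⟩, z, rfl⟩
    -- evaluation of tensors
    have h3 : ∀ φ ∈ N, ∀ t : Pw β H, ev1 α β κ0 κ1 (HSp ι H) (tn b φ t) ∈
        ((hat b (YY rr P c)).map (Lam b rr P).toLinearMap).topologicalClosure := by
      intro φ hφ t
      have ht : t ∈ closure ((pen rr (cj c)).range : Set (Pw β H)) := by
        have : t ∈ (pen rr (cj c)).range.topologicalClosure := by rw [hd]; trivial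
        exact this
      have hm : Set.MapsTo (fun t => ev1 α β κ0 κ1 (HSp ι H) (tn b φ t))
          ((pen rr (cj c)).range : Set (Pw β H))
          (((hat b (YY rr P c)).map (Lam b rr P).toLinearMap : Submodule ℂ _) :
            Set (Pw κ1 (HSp ι H))) := by
        rintro _ ⟨g, rfl⟩
        refine ⟨ev0 α β κ0 κ1 (HSp ι H) (tn b φ g), ?_, ?_⟩
        · have h4 : tn b φ g ∈ hat b (powS α N) := by
            rw [← tspan_top_eq_hat]; exact tn_mem_tspan b hφ Submodule.mem_top
          have h5 : hat b (powS α N) ≤ (hat b (YY rr P c)).comap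
              (ev0 α β κ0 κ1 (HSp ι H)).toLinearMap := by
            refine Submodule.span_le.2 ?_
            rintro _ ⟨w, hw, z, rfl⟩
            show ev0 α β κ0 κ1 (HSp ι H) (pt b w z) ∈ hat b (YY rr P c)
            rw [ev0_pt]
            exact pt_mem_hat b (show ev0 α β κ0 κ1 H w ∈ YY rr P c from ⟨w, hw, rfl⟩) z
          exact h5 h4
        · show Lam b rr P (ev0 α β κ0 κ1 (HSp ι H) (tn b φ g)) = _
          rw [Lam_ev0_tn b hsa P c hφ, CC_tn b hsa]
          rfl
      exact hm.closure ((ev1 α β κ0 κ1 (HSp ι H)).continuous.comp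
        ((continuous_tn b).comp (continuous_const.prodMk continuous_id))) ht
    have h6 : pt b w z = ∑ b', tn b (sl b' w) (sing b' z) := by
      ext1 p
      rw [WithLp.ofLp_sum, Finset.sum_apply, Finset.sum_eq_single p.1]
      · rw [tn_apply, sing_same]; rfl
      · intro b' _ hb'
        rw [tn_apply, sing_apply, if_neg hb'.symm, hs_zero_right]
      · simp
    show pt b (ev1 α β κ0 κ1 H w) z ∈ _
    rw [← ev1_pt, h6, map_sum]
    exact Submodule.sum_mem _ fun b' _ => h3 _ (mem_powS.1 hw b') _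
  have h7 : R2.dim (hat b (YY rr P c)) = R.dim (YY rr P c) := dim_hat b R _
  linarith

/-- `∑ |u_b⟩⟨z_b| = 0` with independent `u_b` forces `z_b = 0` -/
lemma eq_zero_of_sum_pt {u : β → Pw κ1 H} (hu : LinearIndependent ℂ u) {z : β → H}
    (h : ∑ b', pt b (u b') (z b') = 0) (b' : β) : z b' = 0 := by
  have h1 : ∀ i : ι, ∀ b', ⟪z b', b i⟫_ℂ = 0 := by
    intro i
    refine Fintype.linearIndependent_iff.1 hu _ ?_
    ext l
    have h2 := congrArg (fun x : Pw κ1 (HSp ι H) => ((x l : HSp ι H) : ι → H) i) h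
    simp only [WithLp.ofLp_sum, Finset.sum_apply] at h2
    rw [WithLp.ofLp_sum, Finset.sum_apply]
    have h3 : (((∑ b', (pt b (u b') (z b')).ofLp l : HSp ι H)) : ι → H) i
        = ∑ b', ⟪z b', b i⟫_ℂ • (u b') l := by
      rw [lp.coeFn_sum, Finset.sum_apply]
      rfl
    rw [h3] at h2
    exact h2
  have h4 : ∀ i, ⟪b i, z b'⟫_ℂ = 0 := by
    intro i
    rw [← inner_conj_symm, h1 i b', map_zero]
  have h5 := hasSum_norm_sq b (z b')
  simp only [h4, norm_zero, ne_eq, OfNat.ofNat_ne_zero, not_false_eq_true, zero_pow] at h5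
  have h6 := h5.unique hasSum_zero
  exact norm_eq_zero.1 (pow_eq_zero_iff two_ne_zero |>.1 h6)

/-- **Theorem T** -/
theorem core_KS (R : TracialRep H) (hr : ∀ j, R.Comm (rr j))
    (hsa : ∀ j, ContinuousLinearMap.adjoint (rr j) = rr j) (j0 : J)
    (hj0 : rr j0 = ContinuousLinearMap.id ℂ H) (hNK : NK rr)
    (P : J → J → Matrix κ1 κ0 ℂ) (hne : KS b rr P ≠ ⊥) :
    1 ≤ (hsRep b R).dim (KS b rr P) := by
  classical
  obtain ⟨S, hS, hS0⟩ := Submodule.exists_mem_ne_zero_of_ne_bot hne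
  obtain ⟨hSF, hLS⟩ := hS
  have hLS' : Lam b rr P S = 0 := hLS
  choose T hTF hTS using hSF
  -- the column operator
  set col : H →L[ℂ] Pw κ0 H :=
    ((PiLp.continuousLinearEquiv 2 ℂ (fun _ : κ0 => H)).symm :
      (κ0 → H) →L[ℂ] PiLp 2 (fun _ : κ0 => H)) ∘L
    (ContinuousLinearMap.pi fun k => (T k).1) with hcol
  have hcolap : ∀ x k, col x k = (T k).1 x := fun _ _ => rfl
  set V : Submodule ℂ (Pw κ0 H) := LinearMap.range (col : H →ₗ[ℂ] Pw κ0 H) with hV
  have hVfin : FiniteDimensional ℂ V := by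
    have hle : V ≤ ⨆ k : κ0, (LinearMap.range (((T k).1 : H →L[ℂ] H) : H →ₗ[ℂ] H)).map
        ((sing k : H →L[ℂ] Pw κ0 H) : H →ₗ[ℂ] Pw κ0 H) := by
      rintro _ ⟨x, rfl⟩
      have : (col : H →ₗ[ℂ] Pw κ0 H) x = ∑ k, sing k ((T k).1 x) := by
        conv_lhs => rw [← sum_sing ((col : H →ₗ[ℂ] Pw κ0 H) x)]
        rfl
      rw [this]
      refine Submodule.sum_mem _ fun k _ => ?_
      exact Submodule.mem_iSup_of_mem k ⟨(T k).1 x, ⟨x, rfl⟩, rfl⟩
    have : ∀ k, FiniteDimensional ℂ (LinearMap.range (((T k).1 : H →L[ℂ] H) : H →ₗ[ℂ] H)) := hTF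
    have : FiniteDimensional ℂ (⨆ k : κ0, (LinearMap.range (((T k).1 : H →L[ℂ] H) : H →ₗ[ℂ] H)).map
        ((sing k : H →L[ℂ] Pw κ0 H) : H →ₗ[ℂ] Pw κ0 H) : Submodule ℂ (Pw κ0 H)) :=
      Submodule.finite_iSup _
    exact Submodule.finiteDimensional_of_le hle
  set v := Module.finBasis ℂ V with hv
  set d := Module.finrank ℂ V with hd
  have hmemV : ∀ x, col x ∈ V := fun x => ⟨x, rfl⟩
  -- the right legs
  set ℓ : Fin d → StrongDual ℂ H := fun a =>
    (LinearMap.toContinuousLinearMap (v.coord a)) ∘L (col.codRestrict V hmemV) with hℓ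
  set w : Pw (Fin d) H := WithLp.toLp 2 fun a => (InnerProductSpace.toDual ℂ H).symm (ℓ a) with hw
  have hwin : ∀ a x, ⟪w a, x⟫_ℂ = v.repr ⟨col x, hmemV x⟩ a := by
    intro a x
    show ⟪(InnerProductSpace.toDual ℂ H).symm (ℓ a), x⟫_ℂ = _
    rw [InnerProductSpace.toDual_symm_apply]
    rfl
  have hcolsum : ∀ x, col x = ∑ a, ⟪w a, x⟫_ℂ • (v a : Pw κ0 H) := by
    intro x
    have h1 := v.sum_repr ⟨col x, hmemV x⟩
    have h2 := congrArg (fun y : V => (y : Pw κ0 H)) h1
    simp only [Submodule.coe_sum, Submodule.coe_smul] at h2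
    rw [← h2]
    refine Finset.sum_congr rfl fun a _ => ?_
    rw [hwin]
  have hSsum : S = ∑ a, pt b (v a : Pw κ0 H) (w a) := by
    ext1 k
    rw [hTS k]
    rw [WithLp.ofLp_sum, Finset.sum_apply]
    ext i
    rw [emb_apply, lp.coeFn_sum, Finset.sum_apply]
    have h1 := congrArg (fun y : Pw κ0 H => y k) (hcolsum (b i))
    simp only [hcolap, WithLp.ofLp_sum, Finset.sum_apply] at h1
    rw [h1]
    rfl
  -- the target space
  set U : Submodule ℂ (Pw κ1 H) := Submodule.span ℂ
    (Set.range fun p : J × Fin d => lam rr P p.1 (v p.2 : Pw κ0 H)) with hU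
  have hUfin : FiniteDimensional ℂ U := FiniteDimensional.span_of_finite ℂ (Set.finite_range _)
  set u := Module.finBasis ℂ U with hu
  set d' := Module.finrank ℂ U with hd'
  have hmemU : ∀ j a, lam rr P j (v a : Pw κ0 H) ∈ U := fun j a =>
    Submodule.subset_span ⟨(j, a), rfl⟩
  set c : J → Matrix (Fin d') (Fin d) ℂ := fun j =>
    Matrix.of fun b' a => u.repr ⟨lam rr P j (v a : Pw κ0 H), hmemU j a⟩ b' with hc
  have hlam : ∀ j a, lam rr P j (v a : Pw κ0 H) = ∑ b', c j b' a • (u b' : Pw κ1 H) := by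
    intro j a
    have h1 := u.sum_repr ⟨lam rr P j (v a : Pw κ0 H), hmemU j a⟩
    have h2 := congrArg (fun y : U => (y : Pw κ1 H)) h1
    simp only [Submodule.coe_sum, Submodule.coe_smul] at h2
    exact h2.symm
  have huind : LinearIndependent ℂ (fun b' => (u b' : Pw κ1 H)) :=
    u.linearIndependent.map' U.subtype (by simp)
  -- the kernel equation
  have hker : pen rr (cj c) w = 0 := by
    have h1 : ∑ b', pt b (u b' : Pw κ1 H) (pen rr (cj c) w b') = 0 := by
      rw [← hLS', hSsum, map_sum]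
      have h2 : ∀ a, Lam b rr P (pt b (v a : Pw κ0 H) (w a))
          = ∑ j, ∑ b', c j b' a • pt b (u b' : Pw κ1 H) (rr j (w a)) := by
        intro a
        rw [Lam_pt b hsa]
        refine Finset.sum_congr rfl fun j _ => ?_
        rw [hlam, pt_sum_left]
        refine Finset.sum_congr rfl fun b' _ => ?_
        rw [pt_smul_left]
      have h3 : ∀ b', pt b (u b' : Pw κ1 H) (pen rr (cj c) w b')
          = ∑ j, ∑ a, c j b' a • pt b (u b' : Pw κ1 H) (rr j (w a)) := by
        intro b'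
        rw [pen_apply, pt_sum_right]
        refine Finset.sum_congr rfl fun j _ => ?_
        rw [pt_sum_right]
        refine Finset.sum_congr rfl fun a _ => ?_
        rw [pt_smul_right]
        simp [cj]
      simp only [h2, h3]
      rw [Finset.sum_comm]
      conv_rhs => rw [Finset.sum_comm]
      refine Finset.sum_congr rfl fun j _ => ?_
      rw [Finset.sum_comm]
    ext b'
    exact eq_zero_of_sum_pt b huind h1 b'
  -- dense range
  have hdense : (pen rr (cj c)).range.topologicalClosure = ⊤ := by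
    refine pen_dense rr hNK _ ?_ ?_
    · rw [eq_top_iff]
      intro t _
      have hmem : ((∑ a, (starRingEnd ℂ) (t a) • v a : V) : Pw κ0 H) ∈ V := Submodule.coe_mem _
      obtain ⟨x, hx⟩ := hmem
      have hx' : col x = ((∑ a, (starRingEnd ℂ) (t a) • v a : V) : Pw κ0 H) := hx
      refine Submodule.subset_span ⟨w, hker, x, ?_⟩
      funext a
      rw [← inner_conj_symm, hwin]
      have h1 : (⟨col x, hmemV x⟩ : V) = ∑ a, (starRingEnd ℂ) (t a) • v a := Subtype.ext hx'
      rw [h1, v.repr_sum_self]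
      simp
    · rw [eq_top_iff]
      intro t _
      have hclaim : ∀ (x : Pw κ1 H) (hx : x ∈ U),
          (fun b' => (starRingEnd ℂ) (u.repr ⟨x, hx⟩ b')) ∈
            Submodule.span ℂ {u' : Fin d' → ℂ | ∃ j, ∃ v' : Fin d → ℂ, u' = (cj c j).mulVec v'} := by
        intro x hx
        induction hx using Submodule.span_induction with
        | mem x hx =>
          obtain ⟨⟨j, a⟩, rfl⟩ := hx
          refine Submodule.subset_span ⟨j, Pi.single a 1, ?_⟩
          funext b'
          rw [Matrix.mulVec_single_one]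
          rfl
        | zero =>
          have : (fun b' => (starRingEnd ℂ) (u.repr (⟨0, Submodule.zero_mem _⟩ : U) b')) = 0 := by
            funext b'
            have h0 : (⟨0, Submodule.zero_mem _⟩ : U) = 0 := rfl
            rw [h0]
            simp
          rw [this]
          exact Submodule.zero_mem _
        | add x y hx hy ihx ihy =>
          have : (fun b' => (starRingEnd ℂ) (u.repr (⟨x + y, Submodule.add_mem _ hx hy⟩ : U) b'))
              = (fun b' => (starRingEnd ℂ) (u.repr ⟨x, hx⟩ b'))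
                + fun b' => (starRingEnd ℂ) (u.repr ⟨y, hy⟩ b') := by
            funext b'
            have h0 : (⟨x + y, Submodule.add_mem _ hx hy⟩ : U) = ⟨x, hx⟩ + ⟨y, hy⟩ := rfl
            rw [h0, map_add, Finsupp.add_apply, map_add]
            rfl
          rw [this]
          exact Submodule.add_mem _ ihx ihy
        | smul s x hx ihx =>
          have : (fun b' => (starRingEnd ℂ) (u.repr (⟨s • x, Submodule.smul_mem _ _ hx⟩ : U) b'))
              = (starRingEnd ℂ) s • (fun b' => (starRingEnd ℂ) (u.repr ⟨x, hx⟩ b')) := by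
            funext b'
            have h0 : (⟨s • x, Submodule.smul_mem _ _ hx⟩ : U) = s • ⟨x, hx⟩ := rfl
            rw [h0, map_smul, Finsupp.smul_apply, smul_eq_mul, map_mul]
            rfl
          rw [this]
          exact Submodule.smul_mem _ _ ihx
      have h1 := hclaim _ (Submodule.coe_mem (∑ b', (starRingEnd ℂ) (t b') • u b' : U))
      have h2 : (fun b' => (starRingEnd ℂ) (u.repr
          ⟨((∑ b', (starRingEnd ℂ) (t b') • u b' : U) : Pw κ1 H), Submodule.coe_mem _⟩ b')) = t := by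
        funext b'
        rw [Subtype.coe_eta, u.repr_sum_self]
        simp
      rw [h2] at h1
      exact h1
  -- the tautological morphism
  have hψ : (WithLp.toLp 2 (Sum.elim (fun p : Fin d × κ0 => (v p.1 : Pw κ0 H) p.2)
      (fun p : Fin d' × κ1 => (u p.1 : Pw κ1 H) p.2)) :
      Pw ((Fin d × κ0) ⊕ (Fin d' × κ1)) H) ∈ Mor rr P c := by
    rw [mem_Mor]
    intro j a
    exact hlam j a
  have hvY : ∀ a, (v a : Pw κ0 H) ∈ YY rr P c := by
    intro a
    refine ⟨ins a (WithLp.toLp 2 (Sum.elim (fun p : Fin d × κ0 => (v p.1 : Pw κ0 H) p.2)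
      (fun p : Fin d' × κ1 => (u p.1 : Pw κ1 H) p.2))), ?_, ?_⟩
    · show _ ∈ powS _ _
      rw [mem_powS]
      intro g
      by_cases hg : g = a
      · rw [hg, sl_ins_same]; exact hψ
      · rw [sl_ins_ne hg]; exact Submodule.zero_mem _
    · show ev0 (Fin d) (Fin d') κ0 κ1 H _ = _
      rw [ev0_apply, Finset.sum_eq_single a]
      · rw [sl_ins_same]
        rfl
      · intro g _ hg
        rw [sl_ins_ne hg, map_zero]
      · simp
  have hShat : S ∈ hat b (YY rr P c) := by
    rw [hSsum]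
    exact Submodule.sum_mem _ fun a _ => pt_mem_hat b (hvY a) _
  have hpos := dim_YY_sub_pos b hr hsa hj0 P c hdense hShat hS0 hLS'
  obtain ⟨z, hz⟩ := dim_YY_sub_dim_WW hj0 hr hNK P c
  have hz1 : 1 ≤ z := by
    have : (0 : ℝ) < z := by rw [← hz]; exact hpos
    exact_mod_cast this
  have hz2 : (1 : ℝ) ≤ z := by exact_mod_cast hz1
  have := dim_sub_le_dim_KS b hr hsa hj0 P c hdense
  rw [hz] at this
  exact hz2.trans this

/-! ### The statement in terms of operators -/

/-- finite rank operators are Hilbert-Schmidt -/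
lemma FinRank.mem_HSC {T : H →L[ℂ] H} (hT : FinRank T) : T ∈ HSC b := by
  have hfin : FiniteDimensional ℂ (LinearMap.range (T : H →ₗ[ℂ] H)) := hT
  set e := stdOrthonormalBasis ℂ (LinearMap.range (T : H →ₗ[ℂ] H)) with he
  have h1 : T = ∑ a, MP_3a1c55_an.rk ((e a : LinearMap.range (T : H →ₗ[ℂ] H)) : H)
      (ContinuousLinearMap.adjoint T ((e a : LinearMap.range (T : H →ₗ[ℂ] H)) : H)) := by
    ext1 x
    have h2 := e.sum_repr' ⟨T x, ⟨x, rfl⟩⟩
    have h3 := congrArg (fun y : LinearMap.range (T : H →ₗ[ℂ] H) => (y : H)) h2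
    simp only [Submodule.coe_sum, Submodule.coe_smul] at h3
    rw [sum_apply]
    conv_lhs => rw [← h3]
    refine Finset.sum_congr rfl fun a _ => ?_
    rw [rk_apply, ContinuousLinearMap.adjoint_inner_left]
    rfl
  rw [h1]
  exact Submodule.sum_mem _ fun a _ => rk_mem_HSC b _ _

lemma emb_injective {S T : HSC b} (h : emb b S = emb b T) : S = T := by
  apply Subtype.ext
  ext1 x
  have h1 : ∀ i, S.1 (b i) = T.1 (b i) := by
    intro i
    have := congrArg (fun y : HSp ι H => (y : ι → H) i) h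
    exact this
  have h2 : IsClosed {x : H | S.1 x = T.1 x} := isClosed_eq S.1.continuous T.1.continuous
  have h3 : x ∈ closure ((Submodule.span ℂ (Set.range b) : Submodule ℂ H) : Set H) := by
    have : x ∈ (Submodule.span ℂ (Set.range b)).topologicalClosure := by
      rw [b.dense_span]; trivial
    exact this
  refine closure_minimal ?_ h2 h3
  intro u hu
  induction hu using Submodule.span_induction with
  | mem u hu => obtain ⟨i, rfl⟩ := hu; exact h1 i
  | zero => show S.1 0 = T.1 0; simp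
  | add u v _ _ hu hv =>
    have hu' : S.1 u = T.1 u := hu
    have hv' : S.1 v = T.1 v := hv
    show S.1 (u + v) = T.1 (u + v)
    rw [map_add, map_add, hu', hv']
  | smul c u _ hu =>
    have hu' : S.1 u = T.1 u := hu
    show S.1 (c • u) = T.1 (c • u)
    rw [map_smul, map_smul, hu']

lemma Lam_emb (P : J → J → Matrix κ1 κ0 ℂ) (T : κ0 → HSC b) (l : κ1) :
    Lam b rr P (WithLp.toLp 2 fun k => emb b (T k)) l
      = emb b (∑ j, ∑ i, ∑ k, P j i l k • ⟨rr i ∘L (T k).1 ∘L rr j, HSC_comp b _ _ (T k).2⟩) := by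
  unfold Lam
  rw [pen_apply, Fintype.sum_prod_type, Finset.sum_comm, map_sum]
  refine Finset.sum_congr rfl fun j _ => ?_
  rw [map_sum]
  refine Finset.sum_congr rfl fun i _ => ?_
  rw [map_sum]
  refine Finset.sum_congr rfl fun k _ => ?_
  rw [map_smul, LR_emb]

/-- membership in the kernel in terms of operators -/
lemma mem_KS_iff (P : J → J → Matrix κ1 κ0 ℂ) (x : Pw κ0 (HSp ι H)) :
    x ∈ KS b rr P ↔ ∃ T : κ0 → H →L[ℂ] H, ∃ hT : ∀ k, FinRank (T k),
      (∀ l, ∑ j, ∑ i, ∑ k, P j i l k • (rr i ∘L T k ∘L rr j) = 0) ∧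
      ∀ k, x k = emb b ⟨T k, (hT k).mem_HSC b⟩ := by
  constructor
  · rintro ⟨hx1, hx2⟩
    choose T hTF hTx using hx1
    have hx2' : Lam b rr P x = 0 := hx2
    refine ⟨fun k => (T k).1, hTF, ?_, fun k => hTx k⟩
    intro l
    have hx : x = WithLp.toLp 2 fun k => emb b (T k) := by ext1 k; exact hTx k
    have h1 := congrArg (fun y : Pw κ1 (HSp ι H) => y l) hx2'
    simp only at h1
    rw [hx, Lam_emb] at h1
    have h2 : (∑ j, ∑ i, ∑ k, P j i l k • (⟨rr i ∘L (T k).1 ∘L rr j, HSC_comp b _ _ (T k).2⟩ :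
        HSC b)) = 0 := by
      apply emb_injective b
      rw [h1, map_zero]
      rfl
    have h3 := congrArg (fun y : HSC b => y.1) h2
    simpa [Submodule.coe_sum] using h3
  · rintro ⟨T, hT, hsys, hx⟩
    refine ⟨fun k => ⟨⟨T k, (hT k).mem_HSC b⟩, hT k, hx k⟩, ?_⟩
    show Lam b rr P x = 0
    have hx' : x = WithLp.toLp 2 fun k => emb b (⟨T k, (hT k).mem_HSC b⟩ : HSC b) := by
      ext1 k; exact hx k
    ext1 l
    rw [hx', Lam_emb]
    have h2 : (∑ j, ∑ i, ∑ k, P j i l k • (⟨rr i ∘L T k ∘L rr j,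
        HSC_comp b _ _ ((hT k).mem_HSC b)⟩ : HSC b)) = 0 := by
      apply Subtype.ext
      have h3 := hsys l
      simpa [Submodule.coe_sum] using h3
    rw [h2, map_zero]
    rfl

/-- **Theorem T** in terms of operators -/
theorem core (R : TracialRep H) (hr : ∀ j, R.Comm (rr j))
    (hsa : ∀ j, ContinuousLinearMap.adjoint (rr j) = rr j) (j0 : J)
    (hj0 : rr j0 = ContinuousLinearMap.id ℂ H) (hNK : NK rr)
    (P : J → J → Matrix κ1 κ0 ℂ)
    (hne : ∃ T : κ0 → H →L[ℂ] H, (∀ k, FinRank (T k)) ∧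
      (∀ l, ∑ j, ∑ i, ∑ k, P j i l k • (rr i ∘L T k ∘L rr j) = 0) ∧ T ≠ 0) :
    1 ≤ (hsRep b R).dim (KS b rr P) := by
  refine core_KS b R hr hsa j0 hj0 hNK P ?_
  obtain ⟨T, hT, hsys, hT0⟩ := hne
  intro hbot
  have hmem : (WithLp.toLp 2 fun k => emb b (⟨T k, (hT k).mem_HSC b⟩ : HSC b) :
      Pw κ0 (HSp ι H)) ∈ KS b rr P := (mem_KS_iff b P _).2 ⟨T, hT, hsys, fun k => rfl⟩
  rw [hbot, Submodule.mem_bot] at hmem
  apply hT0
  funext k
  have h1 := congrArg (fun y : Pw κ0 (HSp ι H) => y k) hmem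
  have h2 : emb b (⟨T k, (hT k).mem_HSC b⟩ : HSC b) = emb b 0 := by
    rw [map_zero]; exact h1
  exact congrArg (fun y : HSC b => y.1) (emb_injective b h2)

end Pool.Agent.Lib.MP_3a1c55_an
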