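import Mathlib

/-!
# Dimension theory of a tracial representation

`K` is a Hilbert space with a star-closed set `G` of bounded operators and a unit vector `Ω` which is
cyclic and tracial for `G`.  For a `G`-invariant subspace `V` of the finite power `PiLp 2 (κ → K)`
the dimension of (the closure of) `V` is `∑ k, ‖P_V (Ω e_k)‖²`.  The main result is the rank-nullity
theorem `dim_map_add_dim_ker`.
-/

set_option autoImplicit false
set_option linter.unusedSectionVars false
set_option linter.unusedSimpArgs false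

open scoped InnerProductSpace
open Filter Topology

namespace Pool.Agent.Lib.MP_3a1c55_an

variable {K : Type*} [NormedAddCommGroup K] [InnerProductSpace ℂ K] [CompleteSpace K]

/-- A tracial representation: a star-closed set `G` of operators with a cyclic tracial unit
vector. -/
structure TracialRep (K : Type*) [NormedAddCommGroup K] [InnerProductSpace ℂ K]
    [CompleteSpace K] where
  /-- the operators -/
  G : Set (K →L[ℂ] K)
  adj_mem : ∀ a ∈ G, ContinuousLinearMap.adjoint a ∈ G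
  /-- the trace vector -/
  Ω : K
  norm_Ω : ‖Ω‖ = 1
  dense : (Submodule.span ℂ ((fun a : K →L[ℂ] K => a Ω) '' G)).topologicalClosure = ⊤
  trace : ∀ a ∈ G, ∀ b ∈ G, ⟪Ω, a (b Ω)⟫_ℂ = ⟪Ω, b (a Ω)⟫_ℂ

namespace TracialRep

variable (R : TracialRep K)

/-- the commutant of `G` -/
def Comm (s : K →L[ℂ] K) : Prop := ∀ a ∈ R.G, ∀ x, s (a x) = a (s x)

lemma Comm.adj {R : TracialRep K} {s : K →L[ℂ] K} (hs : R.Comm s) :
    R.Comm (ContinuousLinearMap.adjoint s) := by
  intro a ha x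
  refine ext_inner_left ℂ fun y => ?_
  rw [ContinuousLinearMap.adjoint_inner_right]
  have h1 := hs _ (R.adj_mem a ha) y
  rw [← ContinuousLinearMap.adjoint_inner_left, ← ContinuousLinearMap.adjoint_inner_left a,
    ContinuousLinearMap.adjoint_inner_right, ← h1]

lemma Comm.add {R : TracialRep K} {s t : K →L[ℂ] K} (hs : R.Comm s) (ht : R.Comm t) :
    R.Comm (s + t) := by
  intro a ha x
  simp [hs a ha x, ht a ha x]

lemma Comm.smul {R : TracialRep K} {s : K →L[ℂ] K} (c : ℂ) (hs : R.Comm s) :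
    R.Comm (c • s) := by
  intro a ha x
  simp [hs a ha x]

lemma Comm.comp {R : TracialRep K} {s t : K →L[ℂ] K} (hs : R.Comm s) (ht : R.Comm t) :
    R.Comm (s.comp t) := by
  intro a ha x
  simp [hs a ha _, ht a ha x]

lemma comm_id : R.Comm (ContinuousLinearMap.id ℂ K) := fun _ _ _ => rfl

lemma comm_zero : R.Comm 0 := by
  intro a _ x
  simp

lemma inner_adj_eq {a b : K →L[ℂ] K} (ha : a ∈ R.G) (hb : b ∈ R.G) :
    ⟪a R.Ω, b R.Ω⟫_ℂ = ⟪ContinuousLinearMap.adjoint b R.Ω, ContinuousLinearMap.adjoint a R.Ω⟫_ℂ := by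
  have h := R.trace _ (R.adj_mem a ha) b hb
  rw [ContinuousLinearMap.adjoint_inner_right] at h
  rw [h, ContinuousLinearMap.adjoint_inner_left]

/-- For `s` in the commutant, `|⟪s* Ω, v⟫| ≤ ‖s Ω‖ ‖v‖`. -/
lemma norm_inner_adj_le {s : K →L[ℂ] K} (hs : R.Comm s) (v : K) :
    ‖⟪ContinuousLinearMap.adjoint s R.Ω, v⟫_ℂ‖ ≤ ‖s R.Ω‖ * ‖v‖ := by
  have hcl : IsClosed {v : K | ‖⟪ContinuousLinearMap.adjoint s R.Ω, v⟫_ℂ‖ ≤ ‖s R.Ω‖ * ‖v‖} :=
    isClosed_le (continuous_const.inner continuous_id).norm (continuous_const.mul continuous_norm)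
  have hv : v ∈ closure ((Submodule.span ℂ ((fun a : K →L[ℂ] K => a R.Ω) '' R.G) :
      Submodule ℂ K) : Set K) := by
    have : v ∈ (Submodule.span ℂ ((fun a : K →L[ℂ] K => a R.Ω) '' R.G)).topologicalClosure := by
      rw [R.dense]; trivial
    exact this
  refine closure_minimal ?_ hcl hv
  intro u hu
  obtain ⟨n, c, g, rfl⟩ := Submodule.mem_span_set'.1 hu
  choose a ha hau using fun i => (g i).2
  simp only at hau
  have hg : ∀ i, ((g i : K)) = a i R.Ω := fun i => (hau i).symm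
  simp only [hg, Set.mem_ofPred_eq]
  -- the twisted vector
  set w : K := ∑ i, (starRingEnd ℂ) (c i) • ContinuousLinearMap.adjoint (a i) R.Ω with hw
  have hnorm : ‖w‖ = ‖∑ i, c i • a i R.Ω‖ := by
    have : ⟪w, w⟫_ℂ = ⟪∑ i, c i • a i R.Ω, ∑ i, c i • a i R.Ω⟫_ℂ := by
      rw [hw, sum_inner, sum_inner]
      simp only [inner_sum, inner_smul_left, inner_smul_right]
      rw [Finset.sum_comm]
      refine Finset.sum_congr rfl fun i _ => Finset.sum_congr rfl fun j _ => ?_
      rw [R.inner_adj_eq (ha i) (ha j)]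
      simp
      ring
    rw [inner_self_eq_norm_sq_to_K, inner_self_eq_norm_sq_to_K] at this
    have h2 : ‖w‖ ^ 2 = ‖∑ i, c i • a i R.Ω‖ ^ 2 := by exact_mod_cast this
    exact (pow_left_inj₀ (norm_nonneg _) (norm_nonneg _) two_ne_zero).1 h2
  have hin : ⟪ContinuousLinearMap.adjoint s R.Ω, ∑ i, c i • a i R.Ω⟫_ℂ = ⟪w, s R.Ω⟫_ℂ := by
    rw [hw, sum_inner, inner_sum]
    refine Finset.sum_congr rfl fun i _ => ?_
    rw [inner_smul_left, inner_smul_right, ContinuousLinearMap.adjoint_inner_left,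
      ContinuousLinearMap.adjoint_inner_left, hs _ (ha i)]
    simp
  rw [hin, ← hnorm, mul_comm]
  exact norm_inner_le_norm _ _

lemma norm_adj_le {s : K →L[ℂ] K} (hs : R.Comm s) :
    ‖ContinuousLinearMap.adjoint s R.Ω‖ ≤ ‖s R.Ω‖ := by
  have h := R.norm_inner_adj_le hs (ContinuousLinearMap.adjoint s R.Ω)
  rw [inner_self_eq_norm_sq_to_K, norm_pow] at h
  simp only [Complex.coe_algebraMap, Complex.norm_real, norm_norm] at h
  rcases eq_or_lt_of_le (norm_nonneg (ContinuousLinearMap.adjoint s R.Ω)) with h0 | h0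
  · rw [← h0]; exact norm_nonneg _
  · nlinarith

lemma norm_adj_eq {s : K →L[ℂ] K} (hs : R.Comm s) :
    ‖ContinuousLinearMap.adjoint s R.Ω‖ = ‖s R.Ω‖ := by
  refine le_antisymm (R.norm_adj_le hs) ?_
  have := R.norm_adj_le hs.adj
  rwa [ContinuousLinearMap.adjoint_adjoint] at this

/-- polarisation: the trace identity on the commutant -/
lemma inner_comm_eq {s t : K →L[ℂ] K} (hs : R.Comm s) (ht : R.Comm t) :
    ⟪s R.Ω, t R.Ω⟫_ℂ = ⟪ContinuousLinearMap.adjoint t R.Ω, ContinuousLinearMap.adjoint s R.Ω⟫_ℂ := by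
  have key : ∀ u : K →L[ℂ] K, R.Comm u →
      ⟪u R.Ω, u R.Ω⟫_ℂ = ⟪ContinuousLinearMap.adjoint u R.Ω, ContinuousLinearMap.adjoint u R.Ω⟫_ℂ := by
    intro u hu
    rw [inner_self_eq_norm_sq_to_K, inner_self_eq_norm_sq_to_K, R.norm_adj_eq hu]
  have h1 := key (s + t) (hs.add ht)
  have h2 := key (s + Complex.I • t) (hs.add (ht.smul _))
  have h3 := key s hs
  have h4 := key t ht
  simp only [map_add, add_apply, inner_add_left, inner_add_right] at h1
  simp only [map_add, map_smulₛₗ, add_apply, smul_apply,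
    inner_add_left, inner_add_right, inner_smul_left, inner_smul_right, Complex.conj_I,
    map_neg, neg_neg] at h2
  have e1 : ⟪s R.Ω, t R.Ω⟫_ℂ + ⟪t R.Ω, s R.Ω⟫_ℂ
      = ⟪ContinuousLinearMap.adjoint s R.Ω, ContinuousLinearMap.adjoint t R.Ω⟫_ℂ
        + ⟪ContinuousLinearMap.adjoint t R.Ω, ContinuousLinearMap.adjoint s R.Ω⟫_ℂ := by
    linear_combination h1 - h3 - h4
  have e2 : Complex.I * ⟪s R.Ω, t R.Ω⟫_ℂ - Complex.I * ⟪t R.Ω, s R.Ω⟫_ℂ
      = - Complex.I * ⟪ContinuousLinearMap.adjoint s R.Ω, ContinuousLinearMap.adjoint t R.Ω⟫_ℂ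
        + Complex.I * ⟪ContinuousLinearMap.adjoint t R.Ω, ContinuousLinearMap.adjoint s R.Ω⟫_ℂ := by
    have hI : Complex.I * Complex.I = -1 := Complex.I_mul_I
    linear_combination h2 - h3 - (-(Complex.I * Complex.I)) * h4
  have e3 : ⟪s R.Ω, t R.Ω⟫_ℂ - ⟪t R.Ω, s R.Ω⟫_ℂ
      = - ⟪ContinuousLinearMap.adjoint s R.Ω, ContinuousLinearMap.adjoint t R.Ω⟫_ℂ
        + ⟪ContinuousLinearMap.adjoint t R.Ω, ContinuousLinearMap.adjoint s R.Ω⟫_ℂ := by
    have hI : Complex.I * Complex.I = -1 := Complex.I_mul_I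
    linear_combination (-Complex.I) * e2 + (⟪s R.Ω, t R.Ω⟫_ℂ - ⟪t R.Ω, s R.Ω⟫_ℂ
      + ⟪ContinuousLinearMap.adjoint s R.Ω, ContinuousLinearMap.adjoint t R.Ω⟫_ℂ
      - ⟪ContinuousLinearMap.adjoint t R.Ω, ContinuousLinearMap.adjoint s R.Ω⟫_ℂ) * hI
  linear_combination (1/2) * e1 + (1/2) * e3

lemma comm_trace {s t : K →L[ℂ] K} (hs : R.Comm s) (ht : R.Comm t) :
    ⟪R.Ω, s (t R.Ω)⟫_ℂ = ⟪R.Ω, t (s R.Ω)⟫_ℂ := by
  have h := R.inner_comm_eq hs.adj ht
  rw [ContinuousLinearMap.adjoint_adjoint, ContinuousLinearMap.adjoint_inner_left,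
    ContinuousLinearMap.adjoint_inner_left] at h
  exact h

/-! ### Finite powers -/

section Pw

variable {κ κ' κ'' : Type*} [Fintype κ] [Fintype κ'] [Fintype κ'']

/-- finite powers with the `ℓ²` norm -/
abbrev Pw (κ : Type*) [Fintype κ] (K : Type*) [NormedAddCommGroup K] : Type _ :=
  PiLp 2 (fun _ : κ => K)

/-- coordinatewise action of an operator -/
noncomputable def diag (κ : Type*) [Fintype κ] (a : K →L[ℂ] K) : Pw κ K →L[ℂ] Pw κ K :=
  ((PiLp.continuousLinearEquiv 2 ℂ (fun _ : κ => K)).symm :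
      (κ → K) →L[ℂ] PiLp 2 (fun _ : κ => K)) ∘L
    (ContinuousLinearMap.pi fun k => a ∘L PiLp.proj 2 (fun _ : κ => K) k)

@[simp] lemma diag_apply (a : K →L[ℂ] K) (x : Pw κ K) (k : κ) : diag κ a x k = a (x k) := rfl

open Classical in
/-- the coordinate embedding -/
noncomputable def sing (k : κ) : K →L[ℂ] Pw κ K :=
  ((PiLp.continuousLinearEquiv 2 ℂ (fun _ : κ => K)).symm :
      (κ → K) →L[ℂ] PiLp 2 (fun _ : κ => K)) ∘L
    (ContinuousLinearMap.pi fun l => if l = k then ContinuousLinearMap.id ℂ K else 0)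

open Classical in
lemma sing_apply (k l : κ) (v : K) : (sing k v : Pw κ K) l = if l = k then v else 0 := by
  show (if l = k then ContinuousLinearMap.id ℂ K else 0) v = _
  split_ifs <;> simp

@[simp] lemma sing_same (k : κ) (v : K) : (sing k v : Pw κ K) k = v := by
  simp [sing_apply]

lemma sum_sing (x : Pw κ K) : ∑ k, sing k (x k) = x := by
  ext l
  rw [WithLp.ofLp_sum, Finset.sum_apply, Finset.sum_eq_single l]
  · simp [sing_apply]
  · intro k _ hk
    simp [sing_apply, hk.symm]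
  · simp

lemma diag_sing (a : K →L[ℂ] K) (k : κ) (v : K) :
    diag κ a (sing k v) = sing k (a v) := by
  ext l
  simp only [diag_apply, sing_apply]
  split_ifs <;> simp

lemma inner_sing_left (k : κ) (v : K) (x : Pw κ K) :
    ⟪(sing k v : Pw κ K), x⟫_ℂ = ⟪v, x k⟫_ℂ := by
  rw [PiLp.inner_apply, Finset.sum_eq_single k]
  · simp
  · intro l _ hl
    simp [sing_apply, hl]
  · simp

lemma norm_sing (k : κ) (v : K) : ‖(sing k v : Pw κ K)‖ = ‖v‖ := by
  have h : ⟪(sing k v : Pw κ K), (sing k v : Pw κ K)⟫_ℂ = ⟪v, v⟫_ℂ := by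
    rw [inner_sing_left, sing_same]
  rw [inner_self_eq_norm_sq_to_K, inner_self_eq_norm_sq_to_K] at h
  have h2 : ‖(sing k v : Pw κ K)‖ ^ 2 = ‖v‖ ^ 2 := by exact_mod_cast h
  exact (pow_left_inj₀ (norm_nonneg _) (norm_nonneg _) two_ne_zero).1 h2

/-- intertwining operators -/
def Inter (T : Pw κ K →L[ℂ] Pw κ' K) : Prop :=
  ∀ a ∈ R.G, ∀ x, T (diag κ a x) = diag κ' a (T x)

variable {R}

lemma Inter.comp {T : Pw κ' K →L[ℂ] Pw κ'' K} {S : Pw κ K →L[ℂ] Pw κ' K}
    (hT : R.Inter T) (hS : R.Inter S) : R.Inter (T ∘L S) := by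
  intro a ha x
  simp [hS a ha x, hT a ha]

lemma Inter.add {T S : Pw κ K →L[ℂ] Pw κ' K}
    (hT : R.Inter T) (hS : R.Inter S) : R.Inter (T + S) := by
  intro a ha x
  simp [hS a ha x, hT a ha x]

lemma Inter.sub {T S : Pw κ K →L[ℂ] Pw κ' K}
    (hT : R.Inter T) (hS : R.Inter S) : R.Inter (T - S) := by
  intro a ha x
  simp [hS a ha x, hT a ha x]

lemma Inter.smul {T : Pw κ K →L[ℂ] Pw κ' K} (c : ℂ)
    (hT : R.Inter T) : R.Inter (c • T) := by
  intro a ha x
  simp [hT a ha x]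

lemma inter_id : R.Inter (ContinuousLinearMap.id ℂ (Pw κ K)) := fun _ _ _ => rfl

lemma inter_one : R.Inter (1 : Pw κ K →L[ℂ] Pw κ K) := fun _ _ _ => rfl

lemma Inter.mul {T S : Pw κ K →L[ℂ] Pw κ K}
    (hT : R.Inter T) (hS : R.Inter S) : R.Inter (T * S) := hT.comp hS

lemma Inter.pow {T : Pw κ K →L[ℂ] Pw κ K} (hT : R.Inter T) (n : ℕ) : R.Inter (T ^ n) := by
  induction n with
  | zero => exact inter_one
  | succ n ih => rw [pow_succ]; exact ih.mul hT

lemma inner_diag (a : K →L[ℂ] K) (x y : Pw κ K) :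
    ⟪x, diag κ a y⟫_ℂ = ⟪diag κ (ContinuousLinearMap.adjoint a) x, y⟫_ℂ := by
  simp [PiLp.inner_apply, ContinuousLinearMap.adjoint_inner_left]

lemma Inter.adj {T : Pw κ K →L[ℂ] Pw κ' K} (hT : R.Inter T) :
    R.Inter (ContinuousLinearMap.adjoint T) := by
  intro a ha x
  refine ext_inner_left ℂ fun y => ?_
  rw [ContinuousLinearMap.adjoint_inner_right, inner_diag, ← hT _ (R.adj_mem a ha),
    ← ContinuousLinearMap.adjoint_inner_right, ← inner_diag]

/-- the matrix entries of an intertwiner are in the commutant -/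
noncomputable def entry (T : Pw κ K →L[ℂ] Pw κ' K) (l : κ') (k : κ) : K →L[ℂ] K :=
  (PiLp.proj 2 (fun _ : κ' => K) l) ∘L T ∘L (sing k)

lemma entry_apply (T : Pw κ K →L[ℂ] Pw κ' K) (l : κ') (k : κ) (v : K) :
    entry T l k v = T (sing k v) l := rfl

lemma Inter.entry {T : Pw κ K →L[ℂ] Pw κ' K} (hT : R.Inter T) (l : κ') (k : κ) :
    R.Comm (TracialRep.entry T l k) := by
  intro a ha x
  rw [entry_apply, entry_apply, ← diag_sing, hT a ha, diag_apply]

lemma apply_eq_sum_entry (T : Pw κ K →L[ℂ] Pw κ' K) (x : Pw κ K) (l : κ') :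
    T x l = ∑ k, entry T l k (x k) := by
  conv_lhs => rw [← sum_sing x, map_sum]
  simp [entry_apply]

variable (R)

/-- the trace of an operator on a finite power -/
noncomputable def tr (T : Pw κ K →L[ℂ] Pw κ K) : ℂ :=
  ∑ k, ⟪R.Ω, T (sing k R.Ω) k⟫_ℂ

lemma tr_add (T S : Pw κ K →L[ℂ] Pw κ K) : R.tr (T + S) = R.tr T + R.tr S := by
  simp [tr, inner_add_right, Finset.sum_add_distrib]

lemma tr_smul (c : ℂ) (T : Pw κ K →L[ℂ] Pw κ K) : R.tr (c • T) = c * R.tr T := by
  simp [tr, inner_smul_right, Finset.mul_sum]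

lemma tr_sub (T S : Pw κ K →L[ℂ] Pw κ K) : R.tr (T - S) = R.tr T - R.tr S := by
  simp [tr, inner_sub_right, Finset.sum_sub_distrib]

lemma tr_one : R.tr (1 : Pw κ K →L[ℂ] Pw κ K) = Fintype.card κ := by
  have h : ∀ k : κ, ⟪R.Ω, (1 : Pw κ K →L[ℂ] Pw κ K) (sing k R.Ω) k⟫_ℂ = 1 := by
    intro k
    rw [one_apply_eq_self, sing_same, inner_self_eq_norm_sq_to_K, R.norm_Ω]
    simp
  unfold tr
  rw [Finset.sum_congr rfl fun k _ => h k]
  simp

lemma tr_comm {T : Pw κ K →L[ℂ] Pw κ' K}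
    {S : Pw κ' K →L[ℂ] Pw κ K} (hT : R.Inter T) (hS : R.Inter S) :
    R.tr (S ∘L T) = R.tr (T ∘L S) := by
  have h1 : R.tr (S ∘L T) = ∑ k, ∑ l, ⟪R.Ω, entry S k l (entry T l k R.Ω)⟫_ℂ := by
    refine Finset.sum_congr rfl fun k _ => ?_
    rw [ContinuousLinearMap.comp_apply, apply_eq_sum_entry, inner_sum]
    rfl
  have h2 : R.tr (T ∘L S) = ∑ l, ∑ k, ⟪R.Ω, entry T l k (entry S k l R.Ω)⟫_ℂ := by
    refine Finset.sum_congr rfl fun k _ => ?_
    rw [ContinuousLinearMap.comp_apply, apply_eq_sum_entry, inner_sum]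
    rfl
  rw [h1, h2, Finset.sum_comm]
  refine Finset.sum_congr rfl fun l _ => Finset.sum_congr rfl fun k _ => ?_
  exact R.comm_trace (hS.entry k l) (hT.entry l k)

/-! ### Invariant subspaces and their dimension -/

/-- invariant subspaces -/
def Inv (V : Submodule ℂ (Pw κ K)) : Prop := ∀ a ∈ R.G, ∀ x ∈ V, diag κ a x ∈ V

variable {R}

lemma Inv.closure {V : Submodule ℂ (Pw κ K)} (hV : R.Inv V) : R.Inv V.topologicalClosure := by
  intro a ha x hx
  have h : Set.MapsTo (diag κ a) (V : Set (Pw κ K)) (V : Set (Pw κ K)) := fun y hy => hV a ha y hy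
  exact h.closure (diag κ a).continuous hx

lemma Inv.orthogonal {V : Submodule ℂ (Pw κ K)} (hV : R.Inv V) : R.Inv Vᗮ := by
  intro a ha x hx
  rw [Submodule.mem_orthogonal] at hx ⊢
  intro u hu
  rw [inner_diag]
  exact hx _ (hV _ (R.adj_mem a ha) u hu)

lemma Inv.inf {V W : Submodule ℂ (Pw κ K)} (hV : R.Inv V) (hW : R.Inv W) : R.Inv (V ⊓ W) :=
  fun a ha x hx => ⟨hV a ha x hx.1, hW a ha x hx.2⟩

lemma Inv.sup {V W : Submodule ℂ (Pw κ K)} (hV : R.Inv V) (hW : R.Inv W) : R.Inv (V ⊔ W) := by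
  intro a ha x hx
  obtain ⟨v, hv, w, hw, rfl⟩ := Submodule.mem_sup.1 hx
  rw [map_add]
  exact Submodule.add_mem_sup (hV a ha v hv) (hW a ha w hw)

lemma inv_top : R.Inv (⊤ : Submodule ℂ (Pw κ K)) := fun _ _ _ _ => trivial

lemma inv_bot : R.Inv (⊥ : Submodule ℂ (Pw κ K)) := by
  intro a _ x hx
  rw [Submodule.mem_bot] at hx ⊢
  simp [hx]

lemma Inv.map {V : Submodule ℂ (Pw κ K)} (hV : R.Inv V) {T : Pw κ K →L[ℂ] Pw κ' K}
    (hT : R.Inter T) : R.Inv (V.map (T : Pw κ K →ₗ[ℂ] Pw κ' K)) := by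
  rintro a ha _ ⟨x, hx, rfl⟩
  refine ⟨diag κ a x, hV a ha x hx, ?_⟩
  simpa using hT a ha x

lemma Inter.inv_ker {T : Pw κ K →L[ℂ] Pw κ' K} (hT : R.Inter T) : R.Inv T.ker := by
  intro a ha x hx
  have hx' : T x = 0 := hx
  show T (diag κ a x) = 0
  rw [hT a ha, hx', map_zero]

lemma Inter.inv_range {T : Pw κ K →L[ℂ] Pw κ' K} (hT : R.Inter T) : R.Inv T.range := by
  rintro a ha _ ⟨x, rfl⟩
  exact ⟨diag κ a x, hT a ha x⟩

/-- the orthogonal projection onto the closure of `V` -/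
noncomputable def prj (V : Submodule ℂ (Pw κ K)) : Pw κ K →L[ℂ] Pw κ K :=
  V.topologicalClosure.starProjection

lemma prj_mem (V : Submodule ℂ (Pw κ K)) (x : Pw κ K) : prj V x ∈ V.topologicalClosure :=
  Submodule.starProjection_apply_mem _ _

lemma sub_prj_mem (V : Submodule ℂ (Pw κ K)) (x : Pw κ K) :
    x - prj V x ∈ V.topologicalClosureᗮ :=
  Submodule.sub_starProjection_mem_orthogonal _

lemma prj_eq_self {V : Submodule ℂ (Pw κ K)} {x : Pw κ K} (hx : x ∈ V.topologicalClosure) :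
    prj V x = x :=
  Submodule.starProjection_eq_self_iff.2 hx

lemma prj_eq_zero {V : Submodule ℂ (Pw κ K)} {x : Pw κ K} (hx : x ∈ Vᗮ) :
    prj V x = 0 := by
  rw [prj, Submodule.starProjection_apply_eq_zero_iff, Submodule.orthogonal_closure]
  exact hx

lemma prj_unique {V : Submodule ℂ (Pw κ K)} {x y : Pw κ K} (hy : y ∈ V.topologicalClosure)
    (h : x - y ∈ Vᗮ) : prj V x = y :=
  Submodule.eq_starProjection_of_mem_orthogonal hy (by rwa [Submodule.orthogonal_closure])

lemma Inv.inter_prj {V : Submodule ℂ (Pw κ K)} (hV : R.Inv V) : R.Inter (prj V) := by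
  intro a ha x
  refine prj_unique (hV.closure a ha _ (prj_mem V x)) ?_
  rw [← map_sub]
  refine hV.orthogonal a ha _ ?_
  rw [← Submodule.orthogonal_closure]
  exact sub_prj_mem V x

variable (R)

/-- the dimension of (the closure of) `V` -/
noncomputable def dim (V : Submodule ℂ (Pw κ K)) : ℝ := ∑ k, ‖prj V (sing k R.Ω)‖ ^ 2

lemma dim_closure (V : Submodule ℂ (Pw κ K)) : R.dim V.topologicalClosure = R.dim V := by
  have : V.topologicalClosure.topologicalClosure = V.topologicalClosure :=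
    IsClosed.submodule_topologicalClosure_eq V.isClosed_topologicalClosure
  unfold dim
  refine Finset.sum_congr rfl fun k _ => ?_
  have h : prj V.topologicalClosure (sing k R.Ω) = prj V (sing k R.Ω) :=
    prj_unique (by rw [this]; exact prj_mem V _) (sub_prj_mem V _)
  rw [h]

lemma dim_congr {V W : Submodule ℂ (Pw κ K)} (h : V.topologicalClosure = W.topologicalClosure) :
    R.dim V = R.dim W := by
  rw [← R.dim_closure V, h, R.dim_closure]

lemma dim_nonneg (V : Submodule ℂ (Pw κ K)) : 0 ≤ R.dim V :=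
  Finset.sum_nonneg fun _ _ => sq_nonneg _

lemma norm_prj_le_of_le {V W : Submodule ℂ (Pw κ K)} (h : V ≤ W.topologicalClosure) (x : Pw κ K) :
    ‖prj V x‖ ≤ ‖prj W x‖ := by
  have h1 : prj V (prj W x) = prj V x := by
    have hV : prj V (x - prj W x) = 0 := by
      refine prj_eq_zero ?_
      exact Submodule.orthogonal_le h (sub_prj_mem W x)
    rw [map_sub, sub_eq_zero] at hV
    exact hV.symm
  rw [← h1]
  exact Submodule.norm_starProjection_apply_le _ _

lemma dim_le_of_le_closure {V W : Submodule ℂ (Pw κ K)} (h : V ≤ W.topologicalClosure) :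
    R.dim V ≤ R.dim W :=
  Finset.sum_le_sum fun _ _ => pow_le_pow_left₀ (norm_nonneg _) (norm_prj_le_of_le h _) 2

lemma dim_mono {V W : Submodule ℂ (Pw κ K)} (h : V ≤ W) : R.dim V ≤ R.dim W :=
  R.dim_le_of_le_closure (h.trans (Submodule.le_topologicalClosure W))

lemma dim_bot : R.dim (⊥ : Submodule ℂ (Pw κ K)) = 0 := by
  unfold dim
  refine Finset.sum_eq_zero fun k _ => ?_
  rw [prj_eq_zero (by simp)]
  simp

lemma dim_top : R.dim (⊤ : Submodule ℂ (Pw κ K)) = Fintype.card κ := by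
  unfold dim
  have : ∀ k : κ, ‖prj (⊤ : Submodule ℂ (Pw κ K)) (sing k R.Ω)‖ ^ 2 = 1 := by
    intro k
    rw [prj_eq_self (Submodule.le_topologicalClosure _ Submodule.mem_top), norm_sing, R.norm_Ω,
      one_pow]
  simp [this]

lemma inner_prj_self (V : Submodule ℂ (Pw κ K)) (x : Pw κ K) :
    ⟪x, prj V x⟫_ℂ = ((‖prj V x‖ ^ 2 : ℝ) : ℂ) := by
  have h1 : ⟪x - prj V x, prj V x⟫_ℂ = 0 :=
    Submodule.starProjection_inner_eq_zero _ _ (prj_mem V x)
  rw [inner_sub_left, sub_eq_zero] at h1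
  rw [h1, inner_self_eq_norm_sq_to_K]
  norm_cast

lemma tr_prj (V : Submodule ℂ (Pw κ K)) : R.tr (prj V) = R.dim V := by
  unfold tr dim
  push_cast
  refine Finset.sum_congr rfl fun k _ => ?_
  rw [← inner_sing_left, inner_prj_self]
  norm_cast

lemma prj_add_orthogonal (V : Submodule ℂ (Pw κ K)) (x : Pw κ K) :
    prj V x + prj Vᗮ x = x := by
  have h : prj Vᗮ x = x - prj V x := by
    refine prj_unique ?_ ?_
    · refine Submodule.le_topologicalClosure _ ?_
      rw [← Submodule.orthogonal_closure]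
      exact sub_prj_mem V x
    · rw [sub_sub_cancel]
      rw [Submodule.orthogonal_orthogonal_eq_closure]
      exact prj_mem V x
  rw [h]
  abel

lemma dim_orthogonal (V : Submodule ℂ (Pw κ K)) :
    R.dim V + R.dim Vᗮ = Fintype.card κ := by
  rw [← R.dim_top (κ := κ)]
  unfold dim
  rw [← Finset.sum_add_distrib]
  refine Finset.sum_congr rfl fun k _ => ?_
  rw [prj_eq_self (V := ⊤) (Submodule.le_topologicalClosure _ Submodule.mem_top)]
  have h := prj_add_orthogonal V (sing k R.Ω)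
  have hin : ⟪prj V (sing k R.Ω), prj Vᗮ (sing k R.Ω)⟫_ℂ = 0 := by
    have h1 := prj_mem V (sing k R.Ω)
    have h2 : prj Vᗮ (sing k R.Ω) ∈ Vᗮ := by
      have := prj_mem Vᗮ (sing k R.Ω)
      rwa [IsClosed.submodule_topologicalClosure_eq (Submodule.isClosed_orthogonal V)] at this
    exact (Submodule.mem_orthogonal _ _).1 ((Submodule.orthogonal_closure V).ge h2) _ h1
  have h3 := norm_add_sq_eq_norm_sq_add_norm_sq_of_inner_eq_zero _ _ hin
  rw [h] at h3
  nlinarith [h3]

/-! ### Rank-nullity through the mean ergodic theorem -/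

section ergodic

variable {E F : Type*} [NormedAddCommGroup E] [InnerProductSpace ℂ E] [CompleteSpace E]
  [NormedAddCommGroup F] [InnerProductSpace ℂ F] [CompleteSpace F]

/-- the contraction `1 - c⁻¹ T* T` -/
noncomputable def ctr (T : E →L[ℂ] F) (c : ℝ) : E →L[ℂ] E :=
  1 - ((c⁻¹ : ℝ) : ℂ) • (ContinuousLinearMap.adjoint T ∘L T)

lemma ctr_apply (T : E →L[ℂ] F) (c : ℝ) (x : E) :
    ctr T c x = x - ((c⁻¹ : ℝ) : ℂ) • ContinuousLinearMap.adjoint T (T x) := rfl

lemma norm_ctr_le (T : E →L[ℂ] F) {c : ℝ} (hc : 0 < c) (hT : ‖T‖ ^ 2 ≤ c) : ‖ctr T c‖ ≤ 1 := by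
  refine ContinuousLinearMap.opNorm_le_bound _ zero_le_one fun x => ?_
  rw [one_mul, ctr_apply]
  have h1 : ‖x - ((c⁻¹ : ℝ) : ℂ) • ContinuousLinearMap.adjoint T (T x)‖ ^ 2
      = ‖x‖ ^ 2 - 2 * (c⁻¹ * ‖T x‖ ^ 2) + c⁻¹ ^ 2 * ‖ContinuousLinearMap.adjoint T (T x)‖ ^ 2 := by
    rw [@norm_sub_sq ℂ, inner_smul_right, ContinuousLinearMap.adjoint_inner_right,
      inner_self_eq_norm_sq_to_K, norm_smul, mul_pow]
    have h2 : RCLike.re (((c⁻¹ : ℝ) : ℂ) * ((‖T x‖ : ℂ)) ^ 2) = c⁻¹ * ‖T x‖ ^ 2 := by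
      rw [← Complex.ofReal_pow, ← Complex.ofReal_mul]
      exact Complex.ofReal_re _
    have h3 : ‖((c⁻¹ : ℝ) : ℂ)‖ ^ 2 = c⁻¹ ^ 2 := by
      rw [Complex.norm_real, Real.norm_eq_abs, sq_abs]
    rw [h3]
    congr 2
    rw [← h2]
    rfl
  have h4 : ‖ContinuousLinearMap.adjoint T (T x)‖ ^ 2 ≤ c * ‖T x‖ ^ 2 := by
    have h5 : ‖ContinuousLinearMap.adjoint T (T x)‖ ≤ ‖T‖ * ‖T x‖ := by
      have := (ContinuousLinearMap.adjoint T).le_opNorm (T x)
      rwa [LinearIsometryEquiv.norm_map] at this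
    calc ‖ContinuousLinearMap.adjoint T (T x)‖ ^ 2 ≤ (‖T‖ * ‖T x‖) ^ 2 :=
          pow_le_pow_left₀ (norm_nonneg _) h5 2
      _ = ‖T‖ ^ 2 * ‖T x‖ ^ 2 := by ring
      _ ≤ c * ‖T x‖ ^ 2 := mul_le_mul_of_nonneg_right hT (sq_nonneg _)
  have h6 : c⁻¹ ^ 2 * ‖ContinuousLinearMap.adjoint T (T x)‖ ^ 2 ≤ c⁻¹ * ‖T x‖ ^ 2 := by
    calc c⁻¹ ^ 2 * ‖ContinuousLinearMap.adjoint T (T x)‖ ^ 2 ≤ c⁻¹ ^ 2 * (c * ‖T x‖ ^ 2) :=
          mul_le_mul_of_nonneg_left h4 (by positivity)
      _ = c⁻¹ * ‖T x‖ ^ 2 := by field_simp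
  have h7 : 0 ≤ c⁻¹ * ‖T x‖ ^ 2 := by positivity
  have h8 : ‖x - ((c⁻¹ : ℝ) : ℂ) • ContinuousLinearMap.adjoint T (T x)‖ ^ 2 ≤ ‖x‖ ^ 2 := by
    rw [h1]; linarith
  exact (pow_le_pow_iff_left₀ (norm_nonneg _) (norm_nonneg _) two_ne_zero).1 h8

lemma ctr_eq_self_iff (T : E →L[ℂ] F) {c : ℝ} (hc : 0 < c) (x : E) : ctr T c x = x ↔ T x = 0 := by
  rw [ctr_apply, sub_eq_self]
  constructor
  · intro h
    have h1 : ContinuousLinearMap.adjoint T (T x) = 0 := by
      rcases smul_eq_zero.1 h with h | h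
      · exfalso
        have : (c⁻¹ : ℝ) = 0 := by exact_mod_cast h
        exact (inv_ne_zero hc.ne') this
      · exact h
    have h2 : ⟪T x, T x⟫_ℂ = 0 := by
      rw [← ContinuousLinearMap.adjoint_inner_right, h1, inner_zero_right]
    exact inner_self_eq_zero.1 h2
  · intro h
    simp [h]

end ergodic

lemma tr_pow_ctr {T : Pw κ K →L[ℂ] Pw κ' K} (hT : R.Inter T) (c : ℝ) (j : ℕ) :
    R.tr (ctr T c ^ j) - Fintype.card κ
      = R.tr (ctr (ContinuousLinearMap.adjoint T) c ^ j) - Fintype.card κ' := by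
  set f := ctr T c with hf
  set g := ctr (ContinuousLinearMap.adjoint T) c with hg
  have hfI : R.Inter f := inter_one.sub ((hT.adj.comp hT).smul _)
  have hgI : R.Inter g := inter_one.sub ((hT.adj.adj.comp hT.adj).smul _)
  have hcomm1 : ∀ x, f (ContinuousLinearMap.adjoint T x) = ContinuousLinearMap.adjoint T (g x) := by
    intro x
    rw [hf, hg, ctr_apply, ctr_apply, map_sub, map_smul, ContinuousLinearMap.adjoint_adjoint]
  have hcomm : ∀ (j : ℕ) x, (f ^ j) (ContinuousLinearMap.adjoint T x)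
      = ContinuousLinearMap.adjoint T ((g ^ j) x) := by
    intro j
    induction j with
    | zero => intro x; rfl
    | succ j ih =>
      intro x
      rw [pow_succ, pow_succ, mul_apply_eq_comp, hcomm1, ih,
        mul_apply_eq_comp]
  induction j with
  | zero =>
    rw [pow_zero, pow_zero, R.tr_one, R.tr_one, sub_self, sub_self]
  | succ j ih =>
    have e1 : f ^ (j + 1) = f ^ j - ((c⁻¹ : ℝ) : ℂ) •
        (((f ^ j) ∘L ContinuousLinearMap.adjoint T) ∘L T) := by
      ext1 x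
      rw [pow_succ, mul_apply_eq_comp]
      conv_lhs => rw [hf, ctr_apply, ← hf, map_sub, map_smul]
      rfl
    have e2 : g ^ (j + 1) = g ^ j - ((c⁻¹ : ℝ) : ℂ) •
        (T ∘L ((f ^ j) ∘L ContinuousLinearMap.adjoint T)) := by
      ext1 x
      rw [pow_succ', mul_apply_eq_comp]
      conv_lhs => rw [hg, ctr_apply, ← hg, ContinuousLinearMap.adjoint_adjoint]
      rw [← hcomm]
      rfl
    rw [e1, e2, R.tr_sub, R.tr_sub, R.tr_smul, R.tr_smul,
      R.tr_comm hT ((hfI.pow j).comp hT.adj)]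
    linear_combination ih

/-- the average of the traces converges to the dimension of the kernel -/
lemma tendsto_tr_ctr (T : Pw κ K →L[ℂ] Pw κ' K) {c : ℝ} (hc : 0 < c) (hT : ‖T‖ ^ 2 ≤ c) :
    Tendsto (fun n : ℕ => (n : ℂ)⁻¹ * ∑ j ∈ Finset.range n, R.tr (ctr T c ^ j)) atTop
      (𝓝 ((R.dim T.ker : ℝ) : ℂ)) := by
  have hlim : ∀ x : Pw κ K, Tendsto (fun n : ℕ => birkhoffAverage ℂ (ctr T c) _root_.id n x) atTop
      (𝓝 (prj T.ker x)) := by
    intro x
    have h := ContinuousLinearMap.tendsto_birkhoffAverage_orthogonalProjection (ctr T c)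
      (norm_ctr_le T hc hT) x
    have e : ((((ctr T c).eqLocus (1 : Pw κ K →L[ℂ] Pw κ K)).orthogonalProjectionOnto x :
        (ctr T c).eqLocus (1 : Pw κ K →L[ℂ] Pw κ K)) : Pw κ K) = prj T.ker x := by
      symm
      refine prj_unique ?_ ?_
      · refine Submodule.le_topologicalClosure _ ?_
        have := (((ctr T c).eqLocus (1 : Pw κ K →L[ℂ] Pw κ K)).orthogonalProjectionOnto x).2
        exact (ctr_eq_self_iff T hc _).1 this
      · have h1 := Submodule.sub_starProjection_mem_orthogonal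
          (K := (ctr T c).eqLocus (1 : Pw κ K →L[ℂ] Pw κ K)) x
        refine Submodule.orthogonal_le ?_ h1
        intro y hy
        exact (ctr_eq_self_iff T hc y).2 hy
    rw [e] at h
    exact h
  have hsum : Tendsto (fun n : ℕ => ∑ k : κ,
      ⟪R.Ω, birkhoffAverage ℂ (ctr T c) _root_.id n (sing k R.Ω) k⟫_ℂ) atTop
      (𝓝 (∑ k : κ, ⟪R.Ω, prj T.ker (sing k R.Ω) k⟫_ℂ)) := by
    refine tendsto_finsetSum _ fun k _ => ?_
    have h1 : Continuous fun y : Pw κ K => ⟪R.Ω, y k⟫_ℂ :=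
      continuous_const.inner (PiLp.continuous_apply 2 _ k)
    exact (h1.tendsto _).comp (hlim (sing k R.Ω))
  have e1 : (∑ k : κ, ⟪R.Ω, prj T.ker (sing k R.Ω) k⟫_ℂ) = ((R.dim T.ker : ℝ) : ℂ) := R.tr_prj _
  rw [e1] at hsum
  refine hsum.congr fun n => ?_
  have e2 : ∀ k : κ, ⟪R.Ω, birkhoffAverage ℂ (ctr T c) _root_.id n (sing k R.Ω) k⟫_ℂ
      = (n : ℂ)⁻¹ * ∑ j ∈ Finset.range n, ⟪R.Ω, (ctr T c ^ j) (sing k R.Ω) k⟫_ℂ := by
    intro k
    unfold birkhoffAverage birkhoffSum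
    rw [PiLp.smul_apply, inner_smul_right, WithLp.ofLp_sum, Finset.sum_apply, inner_sum]
    refine congrArg _ (Finset.sum_congr rfl fun j _ => ?_)
    have : (⇑(ctr T c))^[j] = ⇑(ctr T c ^ j) := by
      rw [← FunLike.coe_pow_eq_iterate]
    rw [this]
    rfl
  simp only [e2]
  rw [← Finset.mul_sum, Finset.sum_comm]
  rfl

/-- rank-nullity for intertwiners -/
theorem dim_range_add_dim_ker {T : Pw κ K →L[ℂ] Pw κ' K} (hT : R.Inter T) :
    R.dim T.range + R.dim T.ker = Fintype.card κ := by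
  set c : ℝ := ‖T‖ ^ 2 + 1 with hcdef
  have hc : 0 < c := by positivity
  have h1 := R.tendsto_tr_ctr T hc (by linarith)
  have h2 := R.tendsto_tr_ctr (ContinuousLinearMap.adjoint T) hc (by
    rw [LinearIsometryEquiv.norm_map]; linarith)
  have h3 := h1.sub h2
  have h4 : Tendsto (fun _ : ℕ => ((Fintype.card κ : ℂ) - Fintype.card κ')) atTop
      (𝓝 (((R.dim T.ker : ℝ) : ℂ) - ((R.dim (ContinuousLinearMap.adjoint T).ker : ℝ) : ℂ))) := by
    refine h3.congr' ?_
    filter_upwards [eventually_gt_atTop 0] with n hn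
    have hn' : (n : ℂ) ≠ 0 := by exact_mod_cast hn.ne'
    rw [← mul_sub, ← Finset.sum_sub_distrib]
    have : ∀ j ∈ Finset.range n, R.tr (ctr T c ^ j)
        - R.tr (ctr (ContinuousLinearMap.adjoint T) c ^ j)
        = (Fintype.card κ : ℂ) - Fintype.card κ' := by
      intro j _
      linear_combination R.tr_pow_ctr hT c j
    rw [Finset.sum_congr rfl this, Finset.sum_const, Finset.card_range, nsmul_eq_mul]
    field_simp
  have h5 := tendsto_nhds_unique h4 tendsto_const_nhds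
  have h6 : (Fintype.card κ : ℝ) - Fintype.card κ'
      = R.dim T.ker - R.dim (ContinuousLinearMap.adjoint T).ker := by
    have : ((((Fintype.card κ : ℝ) - Fintype.card κ' : ℝ)) : ℂ)
        = ((R.dim T.ker - R.dim (ContinuousLinearMap.adjoint T).ker : ℝ) : ℂ) := by
      push_cast
      exact h5.symm
    exact_mod_cast this
  have h7 := R.dim_orthogonal T.range
  have h8 : (T.range)ᗮ = (ContinuousLinearMap.adjoint T).ker := ContinuousLinearMap.orthogonal_range T
  rw [h8] at h7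
  linarith

lemma norm_sub_prj_sq (V : Submodule ℂ (Pw κ K)) (x : Pw κ K) :
    ‖x - prj V x‖ ^ 2 = ‖x‖ ^ 2 - ‖prj V x‖ ^ 2 := by
  have h := Submodule.norm_sq_eq_add_norm_sq_starProjection x V.topologicalClosure
  have h2 : V.topologicalClosureᗮ.starProjection x = x - prj V x := by
    rw [Submodule.starProjection_orthogonal_val]
    rfl
  rw [h2] at h
  change ‖x‖ ^ 2 = ‖prj V x‖ ^ 2 + _ at h
  linarith

/-- **rank-nullity** -/
theorem dim_map_add_dim_inf_ker {V : Submodule ℂ (Pw κ K)} (hV : R.Inv V)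
    {T : Pw κ K →L[ℂ] Pw κ' K} (hT : R.Inter T) :
    R.dim (V.map (T : Pw κ K →ₗ[ℂ] Pw κ' K)) + R.dim (V.topologicalClosure ⊓ T.ker)
      = R.dim V := by
  set S : Pw κ K →L[ℂ] Pw κ' K := T ∘L prj V with hS
  have hSI : R.Inter S := hT.comp hV.inter_prj
  have h1 := R.dim_range_add_dim_ker hSI
  set W : Submodule ℂ (Pw κ K) := V.topologicalClosure ⊓ T.ker with hW
  have hWcl : W.topologicalClosure = W := by
    refine IsClosed.submodule_topologicalClosure_eq ?_
    exact V.isClosed_topologicalClosure.inter (ContinuousLinearMap.isClosed_ker T)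
  have h2 : R.dim S.range = R.dim (V.map (T : Pw κ K →ₗ[ℂ] Pw κ' K)) := by
    apply le_antisymm
    · refine R.dim_le_of_le_closure ?_
      rintro _ ⟨x, rfl⟩
      have hx : prj V x ∈ closure (V : Set (Pw κ K)) := prj_mem V x
      have hm : Set.MapsTo T (V : Set (Pw κ K))
          ((V.map (T : Pw κ K →ₗ[ℂ] Pw κ' K) : Submodule ℂ (Pw κ' K)) : Set (Pw κ' K)) :=
        fun y hy => ⟨y, hy, rfl⟩
      exact hm.closure T.continuous hx
    · refine R.dim_mono ?_
      rintro _ ⟨x, hx, rfl⟩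
      refine ⟨x, ?_⟩
      show T (prj V x) = T x
      rw [prj_eq_self (Submodule.le_topologicalClosure _ hx)]
  have h3 : ∀ x : Pw κ K, prj S.ker x = (x - prj V x) + prj W x := by
    intro x
    have hWx : prj W x ∈ W := by have := prj_mem W x; rwa [hWcl] at this
    refine prj_unique ?_ ?_
    · refine Submodule.le_topologicalClosure _ ?_
      show T (prj V ((x - prj V x) + prj W x)) = 0
      have e1 : prj V (x - prj V x) = 0 := by
        refine prj_eq_zero ?_
        rw [← Submodule.orthogonal_closure]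
        exact sub_prj_mem V x
      rw [map_add, e1, zero_add, prj_eq_self hWx.1]
      exact hWx.2
    · rw [Submodule.mem_orthogonal]
      intro z hz
      have hz' : T (prj V z) = 0 := hz
      have hzW : prj V z ∈ W := ⟨prj_mem V z, hz'⟩
      have e0 : x - (x - prj V x + prj W x) = prj V x - prj W x := by abel
      rw [e0]
      have hmem : prj V x - prj W x ∈ V.topologicalClosure :=
        Submodule.sub_mem _ (prj_mem V x) hWx.1
      have e1 : ⟪z - prj V z, prj V x - prj W x⟫_ℂ = 0 :=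
        Submodule.starProjection_inner_eq_zero _ _ hmem
      rw [inner_sub_left, sub_eq_zero] at e1
      rw [e1]
      have e2 : ⟪prj V z, x - prj V x⟫_ℂ = 0 :=
        (Submodule.mem_orthogonal _ _).1 (sub_prj_mem V x) _ (prj_mem V z)
      have e3 : ⟪prj V z, x - prj W x⟫_ℂ = 0 := by
        have := (Submodule.mem_orthogonal _ _).1 (sub_prj_mem W x) _
          (Submodule.le_topologicalClosure _ hzW)
        exact this
      rw [inner_sub_right] at e2 e3 ⊢
      linear_combination e3 - e2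
  have h4 : R.dim S.ker = (Fintype.card κ - R.dim V) + R.dim W := by
    have h5 := R.dim_top (κ := κ)
    unfold dim at h5 ⊢
    rw [← h5, ← Finset.sum_sub_distrib, ← Finset.sum_add_distrib]
    refine Finset.sum_congr rfl fun k _ => ?_
    set x : Pw κ K := sing k R.Ω with hx
    rw [prj_eq_self (V := ⊤) (Submodule.le_topologicalClosure _ Submodule.mem_top), h3]
    have hWx : prj W x ∈ W := by have := prj_mem W x; rwa [hWcl] at this
    have hin : ⟪x - prj V x, prj W x⟫_ℂ = 0 :=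
      Submodule.starProjection_inner_eq_zero _ _ hWx.1
    have h6 := norm_add_sq_eq_norm_sq_add_norm_sq_of_inner_eq_zero _ _ hin
    have h7 := norm_sub_prj_sq V x
    nlinarith [h6, h7]
  rw [← h2]
  linarith

/-- an intertwiner is determined by the trace vectors -/
lemma eq_zero_of_sing {T : Pw κ K →L[ℂ] Pw κ' K} (hT : R.Inter T)
    (h : ∀ k, T (sing k R.Ω) = 0) : T = 0 := by
  have h1 : ∀ (k : κ) (v : K), T (sing k v) = 0 := by
    intro k v
    have hcl : IsClosed {v : K | T (sing k v) = 0} :=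
      isClosed_eq (T.continuous.comp (sing k).continuous) continuous_const
    have hv : v ∈ closure ((Submodule.span ℂ ((fun a : K →L[ℂ] K => a R.Ω) '' R.G) :
        Submodule ℂ K) : Set K) := by
      have : v ∈ (Submodule.span ℂ ((fun a : K →L[ℂ] K => a R.Ω) '' R.G)).topologicalClosure := by
        rw [R.dense]; trivial
      exact this
    refine closure_minimal ?_ hcl hv
    intro u hu
    induction hu using Submodule.span_induction with
    | mem x hx =>
      obtain ⟨a, ha, rfl⟩ := hx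
      show T (sing k (a R.Ω)) = 0
      rw [← diag_sing, hT a ha, h, map_zero]
    | zero => show T (sing k 0) = 0; rw [map_zero, map_zero]
    | add x y _ _ hx hy =>
      have hx' : T (sing k x) = 0 := hx
      have hy' : T (sing k y) = 0 := hy
      show T (sing k (x + y)) = 0
      rw [map_add, map_add, hx', hy', add_zero]
    | smul c x _ hx =>
      have hx' : T (sing k x) = 0 := hx
      show T (sing k (c • x)) = 0
      rw [map_smul, map_smul, hx', smul_zero]
  ext1 x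
  rw [← sum_sing x, map_sum]
  simp [h1]

/-- faithfulness -/
lemma eq_bot_of_dim_eq_zero {V : Submodule ℂ (Pw κ K)} (hV : R.Inv V) (h : R.dim V = 0) :
    V = ⊥ := by
  have h1 : ∀ k : κ, prj V (sing k R.Ω) = 0 := by
    intro k
    have h2 := (Finset.sum_eq_zero_iff_of_nonneg (fun k _ => sq_nonneg _)).1 h k (Finset.mem_univ k)
    exact norm_eq_zero.1 (pow_eq_zero_iff two_ne_zero |>.1 h2)
  have h3 := R.eq_zero_of_sing hV.inter_prj h1
  rw [eq_bot_iff]
  intro x hx
  have h4 := prj_eq_self (Submodule.le_topologicalClosure V hx)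
  rw [h3] at h4
  exact h4.symm

lemma dim_pos_of_ne_bot {V : Submodule ℂ (Pw κ K)} (hV : R.Inv V) (h : V ≠ ⊥) : 0 < R.dim V :=
  lt_of_le_of_ne (R.dim_nonneg V) fun h0 => h (R.eq_bot_of_dim_eq_zero hV h0.symm)

/-- an invariant subspace contained in the closure of another of the same dimension is dense -/
lemma le_closure_of_dim_le {V W : Submodule ℂ (Pw κ K)} (hV : R.Inv V) (hW : R.Inv W)
    (hVW : V ≤ W.topologicalClosure) (h : R.dim W ≤ R.dim V) : W ≤ V.topologicalClosure := by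
  have hI : R.Inter (1 - prj V) := inter_one.sub hV.inter_prj
  have h1 := R.dim_map_add_dim_inf_ker hW hI
  have h2 : R.dim V ≤ R.dim (W.topologicalClosure ⊓ (1 - prj V : Pw κ K →L[ℂ] Pw κ K).ker) := by
    refine R.dim_mono (le_inf hVW ?_)
    intro x hx
    show x - prj V x = 0
    rw [prj_eq_self (Submodule.le_topologicalClosure V hx), sub_self]
  have h3 : R.dim (W.map ((1 - prj V : Pw κ K →L[ℂ] Pw κ K) : Pw κ K →ₗ[ℂ] Pw κ K)) = 0 :=
    le_antisymm (by linarith) (R.dim_nonneg _)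
  have h4 := R.eq_bot_of_dim_eq_zero (hW.map hI) h3
  intro x hx
  have h5 : (1 - prj V : Pw κ K →L[ℂ] Pw κ K) x ∈
      W.map ((1 - prj V : Pw κ K →L[ℂ] Pw κ K) : Pw κ K →ₗ[ℂ] Pw κ K) := ⟨x, hx, rfl⟩
  rw [h4, Submodule.mem_bot] at h5
  have h6 : x - prj V x = 0 := h5
  rw [sub_eq_zero] at h6
  rw [h6]
  exact prj_mem V x

/-- the modular law -/
lemma dim_sup_add_dim_inf {V W : Submodule ℂ (Pw κ K)} (hV : R.Inv V) (hW : R.Inv W) :
    R.dim (V ⊔ W) + R.dim (V.topologicalClosure ⊓ W.topologicalClosure)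
      = R.dim V + R.dim W := by
  set Q : Pw κ K →L[ℂ] Pw κ K := 1 - prj W with hQ
  have hI : R.Inter Q := inter_one.sub hW.inter_prj
  have hker : Q.ker = W.topologicalClosure := by
    ext x
    constructor
    · intro hx
      have : x - prj W x = 0 := hx
      rw [sub_eq_zero] at this
      rw [this]; exact prj_mem W x
    · intro hx
      show x - prj W x = 0
      rw [prj_eq_self hx, sub_self]
  have h1 := R.dim_map_add_dim_inf_ker hV hI
  have h2 := R.dim_map_add_dim_inf_ker (hV.sup hW) hI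
  rw [hker] at h1 h2
  have h3 : R.dim ((V ⊔ W).topologicalClosure ⊓ W.topologicalClosure) = R.dim W := by
    rw [inf_eq_right.2 (Submodule.topologicalClosure_mono le_sup_right), R.dim_closure]
  have h4 : (V ⊔ W).map (Q : Pw κ K →ₗ[ℂ] Pw κ K) = V.map (Q : Pw κ K →ₗ[ℂ] Pw κ K) := by
    rw [Submodule.map_sup]
    refine sup_eq_left.2 ?_
    rintro _ ⟨x, hx, rfl⟩
    have : Q x = 0 := by
      have hx' : x ∈ Q.ker := by rw [hker]; exact Submodule.le_topologicalClosure _ hx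
      exact hx'
    show Q x ∈ _
    rw [this]
    exact Submodule.zero_mem _
  rw [h3, h4] at h2
  linarith

/-- restriction of dimension along injective intertwiners -/
lemma dim_map_of_injOn {V : Submodule ℂ (Pw κ K)} (hV : R.Inv V)
    {T : Pw κ K →L[ℂ] Pw κ' K} (hT : R.Inter T)
    (h : ∀ x ∈ V.topologicalClosure, T x = 0 → x = 0) :
    R.dim (V.map (T : Pw κ K →ₗ[ℂ] Pw κ' K)) = R.dim V := by
  have h1 := R.dim_map_add_dim_inf_ker hV hT
  have h2 : V.topologicalClosure ⊓ T.ker = ⊥ := by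
    rw [eq_bot_iff]
    rintro x ⟨hx, hx'⟩
    exact h x hx hx'
  rw [h2, R.dim_bot] at h1
  linarith

/-- topological generation of an invariant subspace by the projections of the trace vectors -/
lemma le_closure_span_prj {V : Submodule ℂ (Pw κ K)} (hV : R.Inv V) :
    V ≤ (Submodule.span ℂ {y : Pw κ K | ∃ a ∈ R.G, ∃ k : κ,
      y = diag κ a (prj V (sing k R.Ω))}).topologicalClosure := by
  set Y : Submodule ℂ (Pw κ K) := Submodule.span ℂ {y : Pw κ K | ∃ a ∈ R.G, ∃ k : κ,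
      y = diag κ a (prj V (sing k R.Ω))} with hY
  have h1 : ∀ (k : κ) (v : K), prj V (sing k v) ∈ Y.topologicalClosure := by
    intro k v
    have hcl : IsClosed {v : K | prj V (sing k v) ∈ Y.topologicalClosure} :=
      Y.isClosed_topologicalClosure.preimage ((prj V).continuous.comp (sing k).continuous)
    have hv : v ∈ closure ((Submodule.span ℂ ((fun a : K →L[ℂ] K => a R.Ω) '' R.G) :
        Submodule ℂ K) : Set K) := by
      have : v ∈ (Submodule.span ℂ ((fun a : K →L[ℂ] K => a R.Ω) '' R.G)).topologicalClosure := by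
        rw [R.dense]; trivial
      exact this
    refine closure_minimal ?_ hcl hv
    intro u hu
    induction hu using Submodule.span_induction with
    | mem x hx =>
      obtain ⟨a, ha, rfl⟩ := hx
      show prj V (sing k (a R.Ω)) ∈ Y.topologicalClosure
      rw [← diag_sing, hV.inter_prj a ha]
      exact Submodule.le_topologicalClosure _ (Submodule.subset_span ⟨a, ha, k, rfl⟩)
    | zero => show prj V (sing k 0) ∈ Y.topologicalClosure; rw [map_zero, map_zero]; exact Submodule.zero_mem _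
    | add x y _ _ hx hy =>
      show prj V (sing k (x + y)) ∈ Y.topologicalClosure
      rw [map_add, map_add]
      exact Submodule.add_mem _ hx hy
    | smul c x _ hx =>
      show prj V (sing k (c • x)) ∈ Y.topologicalClosure
      rw [map_smul, map_smul]
      exact Submodule.smul_mem _ _ hx
  intro x hx
  rw [← prj_eq_self (Submodule.le_topologicalClosure V hx), ← sum_sing x, map_sum]
  exact Submodule.sum_mem _ fun k _ => h1 k _

/-- distance to an invariant subspace as an infimum -/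
lemma iInf_norm_sub_sq (V : Submodule ℂ (Pw κ K)) (x : Pw κ K) :
    (⨅ v : V, ‖(v : Pw κ K) - x‖ ^ 2) = ‖x‖ ^ 2 - ‖prj V x‖ ^ 2 := by
  rw [← norm_sub_prj_sq]
  have hne : Nonempty V := ⟨0⟩
  have hlow : ∀ v : V, ‖x - prj V x‖ ^ 2 ≤ ‖(v : Pw κ K) - x‖ ^ 2 := by
    intro v
    have h1 : ⟪x - prj V x, prj V x - v⟫_ℂ = 0 :=
      Submodule.starProjection_inner_eq_zero _ _
        (Submodule.sub_mem _ (prj_mem V x) (Submodule.le_topologicalClosure V v.2))
    have h2 := norm_add_sq_eq_norm_sq_add_norm_sq_of_inner_eq_zero _ _ h1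
    have h3 : x - prj V x + (prj V x - v) = x - v := by abel
    rw [h3] at h2
    rw [norm_sub_rev (v : Pw κ K) x]
    nlinarith [h2, sq_nonneg ‖prj V x - v‖]
  apply le_antisymm
  · refine le_of_forall_pos_le_add fun ε hε => ?_
    have hcont : ContinuousAt (fun y : Pw κ K => ‖y - x‖ ^ 2) (prj V x) := by fun_prop
    have hmem : prj V x ∈ closure (V : Set (Pw κ K)) := prj_mem V x
    have hnhds : {y : Pw κ K | ‖y - x‖ ^ 2 < ‖prj V x - x‖ ^ 2 + ε} ∈ 𝓝 (prj V x) :=
      hcont.eventually (gt_mem_nhds (by linarith))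
    obtain ⟨y, hy1, hy2⟩ := mem_closure_iff_nhds.1 hmem _ hnhds
    have hb : BddBelow (Set.range fun v : V => ‖(v : Pw κ K) - x‖ ^ 2) :=
      ⟨‖x - prj V x‖ ^ 2, by rintro _ ⟨v, rfl⟩; exact hlow v⟩
    have h4 := ciInf_le hb ⟨y, hy2⟩
    have h5 : ‖y - x‖ ^ 2 < ‖prj V x - x‖ ^ 2 + ε := hy1
    rw [norm_sub_rev x]
    exact h4.trans h5.le
  · exact le_ciInf hlow

end Pw

end TracialRep

end Pool.Agent.Lib.MP_3a1c55_an
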