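import Pool.Agent.Lib.MP_3a1c55_an.Frozen
import Pool.Agent.Lib.MP_3a1c55_an.Core

/-!
# Final assembly
-/

set_option autoImplicit false
set_option linter.unusedSectionVars false
set_option linter.unusedSimpArgs false

open scoped InnerProductSpace

namespace Pool.Agent.Lib.MP_3a1c55_an

open TracialRep

variable {H : Type} [NormedAddCommGroup H] [InnerProductSpace ℂ H] [CompleteSpace H]
variable {ι : Type} (b : HilbertBasis ι ℂ H)
variable {n m : ℕ}

/-- the operator `(x_k) ↦ (a_d x_{κ d} s_d)` -/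
noncomputable def Gam {k0 k1 : Type} [Fintype k0] [Fintype k1] (κ : k1 → k0)
    (a s : k1 → H →L[ℂ] H) : Pw k0 (HSp ι H) →L[ℂ] Pw k1 (HSp ι H) :=
  ((PiLp.continuousLinearEquiv 2 ℂ (fun _ : k1 => HSp ι H)).symm :
      (k1 → HSp ι H) →L[ℂ] PiLp 2 (fun _ : k1 => HSp ι H)) ∘L
    (ContinuousLinearMap.pi fun d => LR b (a d) (s d) ∘L PiLp.proj 2 (fun _ : k0 => HSp ι H) (κ d))

lemma Gam_apply {k0 k1 : Type} [Fintype k0] [Fintype k1] (κ : k1 → k0)
    (a s : k1 → H →L[ℂ] H) (x : Pw k0 (HSp ι H)) (d : k1) :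
    Gam b κ a s x d = LR b (a d) (s d) (x (κ d)) := rfl

lemma inter_Gam (R : TracialRep H) {k0 k1 : Type} [Fintype k0] [Fintype k1] (κ : k1 → k0)
    (a s : k1 → H →L[ℂ] H) (ha : ∀ d, R.Comm (a d)) (hs : ∀ d, R.Comm (s d)) :
    (hsRep b R).Inter (Gam b κ a s) := by
  intro c hc x
  ext1 d
  rw [Gam_apply, diag_apply, diag_apply, Gam_apply]
  exact hsRep_comm b R (ha d) (hs d) c hc _

/-- **The dichotomy for the dimension.** -/
theorem dichotomy (R : TracialRep H) (r : Fin n → H →L[ℂ] H)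
    (hr : ∀ A ∈ Algebra.adjoin ℂ (Set.range r), R.Comm A)
    (hsa : ∀ i, ContinuousLinearMap.adjoint (r i) = r i) (hNK : NK (rrO r))
    (Rk : Fin m → H →L[ℂ] H) (hRk : ∀ k, Rk k ∈ Algebra.adjoin ℂ (Set.range r)) :
    (hsRep b R).dim (KZ b Rk) = 0 ∨ 1 ≤ (hsRep b R).dim (KZ b Rk) := by
  by_cases hbot : KZ b Rk = ⊥
  · left; rw [hbot]; exact (hsRep b R).dim_bot
  right
  obtain ⟨x, hxK, hx0⟩ := Submodule.exists_mem_ne_zero_of_ne_bot hbot
  obtain ⟨T, hT, hsum, hx⟩ := hxK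
  have hT0 : T ≠ 0 := by
    intro h0
    apply hx0
    ext k i
    rw [hx, h0]
    rfl
  obtain ⟨k0, k1, _, _, P, κ, a, s, δ, ha, hs, hsol, hδ⟩ := lin r Rk hRk
  have hr' : ∀ j, R.Comm (rrO r j) := by
    intro j
    rcases j with _ | i
    · exact R.comm_id
    · exact hr _ (Algebra.subset_adjoin ⟨i, rfl⟩)
  have hsa' : ∀ j, ContinuousLinearMap.adjoint (rrO r j) = rrO r j := by
    intro j
    rcases j with _ | i
    · exact ContinuousLinearMap.adjoint_id
    · exact hsa i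
  have hne : ∃ T : k0 → H →L[ℂ] H, (∀ k, FinRank (T k)) ∧
      (∀ l, ∑ j, ∑ i, ∑ k, P j i l k • (rrO r i ∘L T k ∘L rrO r j) = 0) ∧ T ≠ 0 := by
    have hform : ∀ k, a (δ k) ∘L T (κ (δ k)) ∘L s (δ k) = T k := by
      intro k
      obtain ⟨h1, h2, h3⟩ := hδ k
      rw [h1, h2, h3]
      rfl
    refine ⟨fun d => a d ∘L T (κ d) ∘L s d, fun d => ((hT _).comp_right _).comp_left _, ?_, ?_⟩
    · rw [hsol]
      refine ⟨fun d => ?_, ?_⟩
      · rw [hform]
      · simp only [hform]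
        exact hsum
    · intro h0
      apply hT0
      funext k
      rw [← hform k]
      exact congrFun h0 (δ k)
  have hcore := core b R hr' hsa' none rfl hNK P hne
  have hle : KS b (rrO r) P ≤ (KZ b Rk).map
      ((Gam b κ a s : Pw (Fin m) (HSp ι H) →L[ℂ] Pw k0 (HSp ι H)) :
        Pw (Fin m) (HSp ι H) →ₗ[ℂ] Pw k0 (HSp ι H)) := by
    intro z hzKS
    obtain ⟨S, hS, hSsys, hz'⟩ := (mem_KS_iff b P z).1 hzKS
    have hz : ∀ k i, (z k : ι → H) i = S k (b i) := by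
      intro k i
      rw [hz' k]
      rfl
    rw [hsol] at hSsys
    obtain ⟨hform, hfin⟩ := hSsys
    refine ⟨pnt b (fun k => S (δ k)) (fun k => hS _), ⟨fun k => S (δ k), fun k => hS _, hfin,
      fun k i => rfl⟩, ?_⟩
    rw [eq_pnt b hS hz]
    show Gam b κ a s (pnt b (fun k => S (δ k)) (fun k => hS _)) = pnt b S hS
    ext1 d
    rw [Gam_apply, LR_pnt]
    ext i
    rw [pnt_apply, hform d]
    rfl
  have hI := inter_Gam b R κ a s (fun d => hr _ (ha d)) (fun d => hr _ (hs d))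
  have hinv : (hsRep b R).Inv (KZ b Rk) := inv_KZ b R fun k => hr _ (hRk k)
  have h1 := (hsRep b R).dim_map_add_dim_inf_ker hinv hI
  have h2 := (hsRep b R).dim_mono hle
  have h3 := (hsRep b R).dim_nonneg ((KZ b Rk).topologicalClosure ⊓ (Gam b κ a s).ker)
  linarith

/-- the frozen statement, with `M` spelled out -/
theorem final (y : Fin n → (H →L[ℂ] H)) (ξ : H)
    (Δ : (m : ℕ) → (Fin m → (H →L[ℂ] H)) → ℝ)
    (hsa : ∀ i, IsSelfAdjoint (y i)) (hξ : ‖ξ‖ = 1)
    (hd : Dense ((fun x : H →L[ℂ] H => x ξ) '' dM y))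
    (ht : ∀ a ∈ dM y, ∀ c ∈ dM y, ⟪(a * c) ξ, ξ⟫_ℂ = ⟪(c * a) ξ, ξ⟫_ℂ)
    (hΔ : ∀ (m : ℕ) (z : Fin m → (H →L[ℂ] H)), Δ m z =
      ∑ j : Fin m, ⨅ T : {T : Fin m → (H →L[ℂ] H) //
          (∀ k, FiniteDimensional ℂ
            (LinearMap.range ((T k : H →L[ℂ] H) : H →ₗ[ℂ] H))) ∧
          ∃ r : Fin m → (H →L[ℂ] H),
            (∀ k, r k ∈ Set.centralizer (dM y) ∧ r k ξ = z k ξ) ∧
            ∑ k, (T k * r k - r k * T k) = 0},
        ∑ k : Fin m, ∑' i : ι,
          ‖(T.1 k) (b i) - (if k = j then ⟪ξ, b i⟫_ℂ • ξ else 0)‖ ^ 2)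
    (hn : Δ n y = (n : ℝ)) (m : ℕ) (P : Fin m → FreeAlgebra ℂ (Fin n)) :
    (Δ m (fun j => FreeAlgebra.lift ℂ y (P j)) ≤ (m : ℝ) - 1 ∨
      Δ m (fun j => FreeAlgebra.lift ℂ y (P j)) = (m : ℝ)) := by
  classical
  -- the right multiplication operators
  have hr0 : ∃ r : Fin n → (H →L[ℂ] H), ∀ k, r k ∈ Set.centralizer (dM y) ∧ r k ξ = y k ξ := by
    rcases Nat.eq_zero_or_pos n with hn0 | hn0
    · subst hn0
      exact ⟨fun k => 0, fun k => k.elim0⟩
    · by_contra hcon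
      have hempty : IsEmpty {T : Fin n → (H →L[ℂ] H) //
          (∀ k, FiniteDimensional ℂ
            (LinearMap.range ((T k : H →L[ℂ] H) : H →ₗ[ℂ] H))) ∧
          ∃ r : Fin n → (H →L[ℂ] H),
            (∀ k, r k ∈ Set.centralizer (dM y) ∧ r k ξ = y k ξ) ∧
            ∑ k, (T k * r k - r k * T k) = 0} := by
        refine ⟨?_⟩
        rintro ⟨T, _, r, hr, _⟩
        exact hcon ⟨r, hr⟩
      rw [hΔ] at hn
      simp only [Real.iInf_of_isEmpty, Finset.sum_const_zero] at hn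
      have : (n : ℝ) ≠ 0 := by positivity
      exact this hn.symm
  obtain ⟨r, hr⟩ := hr0
  have hrM : ∀ i, r i ∈ Set.centralizer (dM y) := fun i => (hr i).1
  have hrξ : ∀ i, r i ξ = y i ξ := fun i => (hr i).2
  set R : TracialRep H := mkRep y hsa ξ hξ hd ht with hR
  have hcomm : ∀ A ∈ Algebra.adjoin ℂ (Set.range r), R.Comm A := by
    intro A hA a ha x
    have h := adjoin_comm hrM hA a ha
    exact (congrArg (fun F : H →L[ℂ] H => F x) h).symm
  have hrsa : ∀ i, ContinuousLinearMap.adjoint (r i) = r i := by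
    intro i
    exact star_eq_of_sa hsa hd ht (Set.subset_centralizer_centralizer ⟨i, rfl⟩)
      (hsa i).star_eq (hrM i) (hrξ i)
  -- the formula for `Δ`
  have hform : ∀ (m : ℕ) (P : Fin m → FreeAlgebra ℂ (Fin n)),
      Δ m (fun j => FreeAlgebra.lift ℂ y (P j)) =
        m - (hsRep b R).dim (KZ b fun k => Rop r (P k)) := by
    intro m P
    rw [hΔ, ← delta_formula]
    refine Finset.sum_congr rfl fun j _ => ?_
    refine Equiv.iInf_congr (Equiv.subtypeEquivRight fun T => ?_) (fun T => rfl)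
    refine and_congr Iff.rfl ?_
    constructor
    · rintro ⟨r', hr', hsum⟩
      have he : ∀ k, r' k = Rop r (P k) := by
        intro k
        refine comm_unique hd (hr' k).1 (adjoin_comm hrM (Rop_mem r (P k))) ?_
        rw [(hr' k).2, Rop_apply hrM hrξ]
      have : r' = fun k => Rop r (P k) := funext he
      subst this
      exact hsum
    · intro hsum
      exact ⟨fun k => Rop r (P k), fun k => ⟨adjoin_comm hrM (Rop_mem r (P k)),
        Rop_apply hrM hrξ (P k)⟩, hsum⟩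
  -- no finite rank relations
  have hNK : NK (rrO r) := by
    have h1 := hform n (fun i => FreeAlgebra.ι ℂ i)
    simp only [FreeAlgebra.lift_ι_apply, Rop_ι] at h1
    have h2 : (hsRep b R).dim (KZ b fun k => r k) = 0 := by
      have h3 : Δ n (fun j => y j) = n := hn
      rw [h3] at h1
      linarith
    have h4 : KZ b r = ⊥ := (hsRep b R).eq_bot_of_dim_eq_zero
      (inv_KZ b R fun k => hcomm _ (Algebra.subset_adjoin ⟨k, rfl⟩)) h2
    exact NK_of_bot b h4
  have hdich := dichotomy b R r hcomm hrsa hNK (fun k => Rop r (P k)) (fun k => Rop_mem r (P k))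
  rw [hform]
  rcases hdich with h | h
  · right; rw [h, sub_zero]
  · left; linarith

end Pool.Agent.Lib.MP_3a1c55_an
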