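import Pool.Agent.Lib.MP_3a1c55_an.Assem

/-!
# The tracial representation attached to the data of the frozen statement
-/

set_option autoImplicit false
set_option linter.unusedSectionVars false
set_option linter.unusedSimpArgs false

open scoped InnerProductSpace

namespace Pool.Agent.Lib.MP_3a1c55_an

open TracialRep

variable {H : Type} [NormedAddCommGroup H] [InnerProductSpace ℂ H] [CompleteSpace H]
variable {n : ℕ}

/-- the double commutant -/
def dM (y : Fin n → (H →L[ℂ] H)) : Set (H →L[ℂ] H) :=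
  Set.centralizer (Set.centralizer (Set.range y))

lemma star_mem_centralizer_range {y : Fin n → (H →L[ℂ] H)} (hsa : ∀ i, IsSelfAdjoint (y i))
    {a : H →L[ℂ] H} (ha : a ∈ Set.centralizer (Set.range y)) :
    star a ∈ Set.centralizer (Set.range y) := by
  refine Set.star_mem_centralizer' ?_ ha
  rintro _ ⟨i, rfl⟩
  exact ⟨i, (hsa i).star_eq.symm⟩

lemma star_mem_dM {y : Fin n → (H →L[ℂ] H)} (hsa : ∀ i, IsSelfAdjoint (y i))
    {a : H →L[ℂ] H} (ha : a ∈ dM y) : star a ∈ dM y :=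
  Set.star_mem_centralizer' (fun _ h => star_mem_centralizer_range hsa h) ha

lemma star_mem_cM {y : Fin n → (H →L[ℂ] H)} (hsa : ∀ i, IsSelfAdjoint (y i))
    {a : H →L[ℂ] H} (ha : a ∈ Set.centralizer (dM y)) : star a ∈ Set.centralizer (dM y) :=
  Set.star_mem_centralizer' (fun _ h => star_mem_dM hsa h) ha

/-- the tracial representation -/
noncomputable def mkRep (y : Fin n → (H →L[ℂ] H)) (hsa : ∀ i, IsSelfAdjoint (y i)) (ξ : H)
    (hξ : ‖ξ‖ = 1) (hd : Dense ((fun x : H →L[ℂ] H => x ξ) '' dM y))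
    (ht : ∀ a ∈ dM y, ∀ c ∈ dM y, ⟪(a * c) ξ, ξ⟫_ℂ = ⟪(c * a) ξ, ξ⟫_ℂ) : TracialRep H where
  G := dM y
  adj_mem := fun a ha => star_mem_dM hsa ha
  Ω := ξ
  norm_Ω := hξ
  dense := by
    rw [← Submodule.dense_iff_topologicalClosure_eq_top]
    exact hd.mono Submodule.subset_span
  trace := by
    intro a ha c hc
    have h := ht a ha c hc
    rw [← inner_conj_symm, ← inner_conj_symm ξ (c (a ξ))]
    exact congrArg _ h

section facts
variable {y : Fin n → (H →L[ℂ] H)} {ξ : H}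

lemma comm_unique (hd : Dense ((fun x : H →L[ℂ] H => x ξ) '' dM y)) {s t : H →L[ℂ] H}
    (hs : s ∈ Set.centralizer (dM y)) (ht : t ∈ Set.centralizer (dM y)) (h : s ξ = t ξ) :
    s = t := by
  refine ContinuousLinearMap.ext fun v => ?_
  have hcl : IsClosed {v : H | s v = t v} := isClosed_eq s.continuous t.continuous
  have h1 : (fun x : H →L[ℂ] H => x ξ) '' dM y ⊆ {v : H | s v = t v} := by
    rintro _ ⟨a, ha, rfl⟩
    have e1 := congrArg (fun F : H →L[ℂ] H => F ξ) (hs a ha)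
    have e2 := congrArg (fun F : H →L[ℂ] H => F ξ) (ht a ha)
    show s (a ξ) = t (a ξ)
    calc s (a ξ) = a (s ξ) := e1.symm
      _ = a (t ξ) := by rw [h]
      _ = t (a ξ) := e2
  exact closure_minimal h1 hcl (hd v)

/-- right multiplication operators of self-adjoint elements are self-adjoint -/
lemma star_eq_of_sa (hsa : ∀ i, IsSelfAdjoint (y i))
    (hd : Dense ((fun x : H →L[ℂ] H => x ξ) '' dM y))
    (ht : ∀ a ∈ dM y, ∀ c ∈ dM y, ⟪(a * c) ξ, ξ⟫_ℂ = ⟪(c * a) ξ, ξ⟫_ℂ)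
    {a s : H →L[ℂ] H} (ha : a ∈ dM y) (haa : star a = a)
    (hs : s ∈ Set.centralizer (dM y)) (h : s ξ = a ξ) : star s = s := by
  refine comm_unique hd (star_mem_cM hsa hs) hs ?_
  rw [h]
  have h1 : ∀ v ∈ (fun x : H →L[ℂ] H => x ξ) '' dM y, ⟪v, star s ξ⟫_ℂ = ⟪v, a ξ⟫_ℂ := by
    rintro _ ⟨c, hc, rfl⟩
    have e1 := congrArg (fun F : H →L[ℂ] H => F ξ) (hs c hc)
    have e2 : ⟪c ξ, star s ξ⟫_ℂ = ⟪(c * a) ξ, ξ⟫_ℂ := by
      rw [ContinuousLinearMap.star_eq_adjoint, ContinuousLinearMap.adjoint_inner_right]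
      have e3 : s (c ξ) = c (a ξ) := by
        rw [← h]; exact e1.symm
      rw [e3]; rfl
    have e4 : ⟪c ξ, a ξ⟫_ℂ = ⟪(a * c) ξ, ξ⟫_ℂ := by
      conv_lhs => rw [← haa]
      rw [ContinuousLinearMap.star_eq_adjoint, ContinuousLinearMap.adjoint_inner_right]
      rfl
    show ⟪c ξ, star s ξ⟫_ℂ = ⟪c ξ, a ξ⟫_ℂ
    rw [e2, e4, ht a ha c hc]
  have hcl : IsClosed {v : H | ⟪v, star s ξ⟫_ℂ = ⟪v, a ξ⟫_ℂ} :=
    isClosed_eq (by fun_prop) (by fun_prop)
  refine ext_inner_left ℂ fun v => ?_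
  exact closure_minimal h1 hcl (hd v)

/-- the operator attached to the polynomial `P` in the commutant -/
noncomputable def Rop (r : Fin n → (H →L[ℂ] H)) (P : FreeAlgebra ℂ (Fin n)) : H →L[ℂ] H :=
  MulOpposite.unop (FreeAlgebra.lift ℂ (fun i => MulOpposite.op (r i)) P)

lemma Rop_ι (r : Fin n → (H →L[ℂ] H)) (i : Fin n) : Rop r (FreeAlgebra.ι ℂ i) = r i := by
  simp [Rop]

lemma Rop_mul (r : Fin n → (H →L[ℂ] H)) (P Q : FreeAlgebra ℂ (Fin n)) :
    Rop r (P * Q) = Rop r Q * Rop r P := by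
  simp [Rop]

lemma Rop_add (r : Fin n → (H →L[ℂ] H)) (P Q : FreeAlgebra ℂ (Fin n)) :
    Rop r (P + Q) = Rop r P + Rop r Q := by
  simp [Rop]

lemma Rop_algebraMap (r : Fin n → (H →L[ℂ] H)) (c : ℂ) :
    Rop r (algebraMap ℂ _ c) = algebraMap ℂ _ c := by
  simp [Rop]

lemma Rop_mem (r : Fin n → (H →L[ℂ] H)) (P : FreeAlgebra ℂ (Fin n)) :
    Rop r P ∈ Algebra.adjoin ℂ (Set.range r) := by
  induction P using FreeAlgebra.induction with
  | grade0 c => rw [Rop_algebraMap]; exact Subalgebra.algebraMap_mem _ _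
  | grade1 i => rw [Rop_ι]; exact Algebra.subset_adjoin ⟨i, rfl⟩
  | mul P Q hP hQ => rw [Rop_mul]; exact Subalgebra.mul_mem _ hQ hP
  | add P Q hP hQ => rw [Rop_add]; exact Subalgebra.add_mem _ hP hQ

lemma adjoin_comm {r : Fin n → (H →L[ℂ] H)} (hr : ∀ i, r i ∈ Set.centralizer (dM y))
    {A : H →L[ℂ] H} (hA : A ∈ Algebra.adjoin ℂ (Set.range r)) : A ∈ Set.centralizer (dM y) := by
  have h : Algebra.adjoin ℂ (Set.range r) ≤ Subalgebra.centralizer ℂ (dM y) := by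
    refine Algebra.adjoin_le ?_
    rintro _ ⟨i, rfl⟩
    exact hr i
  exact h hA

lemma lift_mem_dM (P : FreeAlgebra ℂ (Fin n)) : FreeAlgebra.lift ℂ y P ∈ dM y := by
  have h0 : ∀ i, y i ∈ dM y := fun i => Set.subset_centralizer_centralizer ⟨i, rfl⟩
  have h : ∀ P : FreeAlgebra ℂ (Fin n), FreeAlgebra.lift ℂ y P ∈
      Subalgebra.centralizer ℂ (Set.centralizer (Set.range y)) := by
    intro P
    induction P using FreeAlgebra.induction with
    | grade0 c => rw [AlgHom.commutes]; exact Subalgebra.algebraMap_mem _ _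
    | grade1 i => rw [FreeAlgebra.lift_ι_apply]; exact h0 i
    | mul P Q hP hQ => rw [map_mul]; exact Subalgebra.mul_mem _ hP hQ
    | add P Q hP hQ => rw [map_add]; exact Subalgebra.add_mem _ hP hQ
  exact h P

lemma Rop_apply {r : Fin n → (H →L[ℂ] H)} (hr : ∀ i, r i ∈ Set.centralizer (dM y))
    (hrξ : ∀ i, r i ξ = y i ξ) (P : FreeAlgebra ℂ (Fin n)) :
    Rop r P ξ = FreeAlgebra.lift ℂ y P ξ := by
  induction P using FreeAlgebra.induction with
  | grade0 c => rw [Rop_algebraMap, AlgHom.commutes]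
  | grade1 i => rw [Rop_ι, FreeAlgebra.lift_ι_apply, hrξ]
  | mul P Q hP hQ =>
    rw [Rop_mul, map_mul]
    show Rop r Q (Rop r P ξ) = FreeAlgebra.lift ℂ y P (FreeAlgebra.lift ℂ y Q ξ)
    rw [hP, ← hQ]
    have h := adjoin_comm hr (Rop_mem r Q) _ (lift_mem_dM P)
    exact (congrArg (fun F : H →L[ℂ] H => F ξ) h).symm
  | add P Q hP hQ =>
    rw [Rop_add, map_add]
    show Rop r P ξ + Rop r Q ξ = FreeAlgebra.lift ℂ y P ξ + FreeAlgebra.lift ℂ y Q ξ
    rw [hP, hQ]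

end facts

end Pool.Agent.Lib.MP_3a1c55_an
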