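import Pool.Agent.Lib.MP_3a1c55_an.Pencil

/-!
# Hilbert-Schmidt operators as a tracial representation

For a Hilbert basis `b` of `H` we realise the Hilbert-Schmidt operators `T` on `H` as the elements
`(T (b i))_i` of `lp (fun _ : ι => H) 2`.  The operators `T ↦ a T s` become bounded operators
`LR b a s`.
-/

set_option autoImplicit false
set_option linter.unusedSectionVars false
set_option linter.unusedSimpArgs false

open scoped InnerProductSpace ENNReal NNReal
open Filter Topology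

namespace Pool.Agent.Lib.MP_3a1c55_an

open TracialRep

variable {H : Type*} [NormedAddCommGroup H] [InnerProductSpace ℂ H] [CompleteSpace H]
variable {ι : Type*} (b : HilbertBasis ι ℂ H)

/-- the space of Hilbert-Schmidt operators, as square summable families -/
abbrev HSp (ι : Type*) (H : Type*) [NormedAddCommGroup H] : Type _ := lp (fun _ : ι => H) 2

lemma hasSum_norm_sq (x : H) : HasSum (fun i => ‖⟪b i, x⟫_ℂ‖ ^ 2) (‖x‖ ^ 2) := by
  have h := b.hasSum_inner_mul_inner x x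
  have h1 : ∀ i, ⟪x, b i⟫_ℂ * ⟪b i, x⟫_ℂ = (((‖⟪b i, x⟫_ℂ‖ ^ 2 : ℝ)) : ℂ) := by
    intro i
    rw [← inner_conj_symm x (b i), mul_comm]
    exact_mod_cast Complex.mul_conj' ⟪b i, x⟫_ℂ
  simp only [h1] at h
  rw [inner_self_eq_norm_sq_to_K] at h
  have h2 : ((‖x‖ : ℂ)) ^ 2 = ((‖x‖ ^ 2 : ℝ) : ℂ) := by push_cast; rfl
  have h3 : HasSum (fun i => (((‖⟪b i, x⟫_ℂ‖ ^ 2 : ℝ)) : ℂ)) (((‖x‖ ^ 2 : ℝ)) : ℂ) := by
    rw [← h2]; exact h
  exact (Complex.hasSum_ofReal).1 h3

lemma enorm_sq_eq_tsum (x : H) : ‖x‖ₑ ^ 2 = ∑' i, ‖⟪b i, x⟫_ℂ‖ₑ ^ 2 := by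
  have h := hasSum_norm_sq b x
  have h1 : ‖x‖ₑ ^ 2 = ENNReal.ofReal (‖x‖ ^ 2) := by
    rw [ENNReal.ofReal_pow (norm_nonneg _), ofReal_norm]
  rw [h1, ← h.tsum_eq, ENNReal.ofReal_tsum_of_nonneg (fun i => sq_nonneg _) h.summable]
  refine tsum_congr fun i => ?_
  rw [ENNReal.ofReal_pow (norm_nonneg _), ofReal_norm]

/-- the square of the Hilbert-Schmidt norm -/
noncomputable def hsn (T : H →L[ℂ] H) : ℝ≥0∞ := ∑' i, ‖T (b i)‖ₑ ^ 2

lemma hsn_adjoint (T : H →L[ℂ] H) : hsn b (ContinuousLinearMap.adjoint T) = hsn b T := by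
  unfold hsn
  have h1 : ∀ i, ‖ContinuousLinearMap.adjoint T (b i)‖ₑ ^ 2
      = ∑' j, ‖⟪b j, ContinuousLinearMap.adjoint T (b i)⟫_ℂ‖ₑ ^ 2 := fun i => enorm_sq_eq_tsum b _
  have h2 : ∀ i, ‖T (b i)‖ₑ ^ 2 = ∑' j, ‖⟪b j, T (b i)⟫_ℂ‖ₑ ^ 2 := fun i => enorm_sq_eq_tsum b _
  simp only [h1, h2]
  rw [ENNReal.tsum_comm]
  refine tsum_congr fun i => tsum_congr fun j => ?_
  rw [ContinuousLinearMap.adjoint_inner_right, ← ofReal_norm, ← ofReal_norm,
    norm_inner_symm]

lemma hsn_comp_left (S T : H →L[ℂ] H) : hsn b (S ∘L T) ≤ ‖S‖ₑ ^ 2 * hsn b T := by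
  unfold hsn
  rw [← ENNReal.tsum_mul_left]
  refine ENNReal.tsum_le_tsum fun i => ?_
  rw [← mul_pow]
  refine pow_le_pow_left' ?_ 2
  exact S.le_opENorm (T (b i))

lemma hsn_comp_right (T S : H →L[ℂ] H) : hsn b (T ∘L S) ≤ ‖S‖ₑ ^ 2 * hsn b T := by
  rw [← hsn_adjoint, ContinuousLinearMap.adjoint_comp, ← hsn_adjoint b T]
  refine (hsn_comp_left b _ _).trans ?_
  have : ‖ContinuousLinearMap.adjoint S‖ₑ = ‖S‖ₑ := by
    rw [← ofReal_norm, LinearIsometryEquiv.norm_map, ofReal_norm]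
  rw [this]

lemma hsn_ne_top_iff (T : H →L[ℂ] H) : hsn b T ≠ ⊤ ↔ Memℓp (fun i => T (b i)) 2 := by
  rw [memℓp_gen_iff (by norm_num)]
  unfold hsn
  have h1 : ∀ i, ‖T (b i)‖ₑ ^ 2 = ((‖T (b i)‖₊ ^ 2 : ℝ≥0) : ℝ≥0∞) := by
    intro i
    rw [enorm_eq_nnnorm, ENNReal.coe_pow]
  simp only [h1]
  rw [ENNReal.tsum_coe_ne_top_iff_summable, ← NNReal.summable_coe]
  simp

/-- the Hilbert-Schmidt class -/
def HSC : Submodule ℂ (H →L[ℂ] H) where
  carrier := {T | Memℓp (fun i => T (b i)) 2}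
  add_mem' := fun {S T} hS hT => by
    have : (fun i => (S + T) (b i)) = (fun i => S (b i)) + fun i => T (b i) := rfl
    show Memℓp (fun i => (S + T) (b i)) 2
    rw [this]
    exact Memℓp.add hS hT
  zero_mem' := by
    show Memℓp (fun i => (0 : H →L[ℂ] H) (b i)) 2
    exact zero_memℓp
  smul_mem' := fun c T hT => by
    have : (fun i => (c • T) (b i)) = c • fun i => T (b i) := rfl
    show Memℓp (fun i => (c • T) (b i)) 2
    rw [this]
    exact Memℓp.const_smul hT c

/-- the embedding of Hilbert-Schmidt operators -/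
noncomputable def emb : HSC b →ₗ[ℂ] HSp ι H where
  toFun T := ⟨fun i => T.1 (b i), T.2⟩
  map_add' _ _ := rfl
  map_smul' _ _ := rfl

@[simp] lemma emb_apply (T : HSC b) (i : ι) : (emb b T : ι → H) i = T.1 (b i) := rfl

lemma norm_emb_sq (T : HSC b) : ‖emb b T‖ₑ ^ 2 = hsn b T.1 := by
  have h := lp.norm_rpow_eq_tsum (p := 2) (by norm_num) (emb b T)
  simp only [ENNReal.toReal_ofNat, Real.rpow_ofNat, emb_apply] at h
  have hs : Summable fun i => ‖T.1 (b i)‖ ^ 2 := by
    have := (memℓp_gen_iff (p := 2) (by norm_num)).1 T.2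
    simpa using this
  have h1 : ‖emb b T‖ₑ ^ 2 = ENNReal.ofReal (‖emb b T‖ ^ 2) := by
    rw [ENNReal.ofReal_pow (norm_nonneg _), ofReal_norm]
  rw [h1, h, ENNReal.ofReal_tsum_of_nonneg (fun i => sq_nonneg _) hs]
  unfold hsn
  refine tsum_congr fun i => ?_
  rw [ENNReal.ofReal_pow (norm_nonneg _), ofReal_norm]

lemma mem_HSC_iff (T : H →L[ℂ] H) : T ∈ HSC b ↔ hsn b T ≠ ⊤ := (hsn_ne_top_iff b T).symm

lemma HSC_comp (a s : H →L[ℂ] H) {T : H →L[ℂ] H} (hT : T ∈ HSC b) : a ∘L T ∘L s ∈ HSC b := by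
  rw [mem_HSC_iff] at hT ⊢
  refine ne_top_of_le_ne_top ?_ (hsn_comp_left b a (T ∘L s))
  refine ENNReal.mul_ne_top (by finiteness) ?_
  refine ne_top_of_le_ne_top ?_ (hsn_comp_right b T s)
  exact ENNReal.mul_ne_top (by finiteness) hT

lemma hsn_comp_comp (a s T : H →L[ℂ] H) :
    hsn b (a ∘L T ∘L s) ≤ (‖a‖ₑ * ‖s‖ₑ) ^ 2 * hsn b T := by
  refine (hsn_comp_left b a (T ∘L s)).trans ?_
  rw [mul_pow, mul_assoc]
  exact mul_le_mul_right (hsn_comp_right b T s) _

/-- the linear map `T ↦ a T s` -/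
noncomputable def LRf (a s : H →L[ℂ] H) : HSC b →ₗ[ℂ] HSp ι H where
  toFun T := emb b ⟨a ∘L T.1 ∘L s, HSC_comp b a s T.2⟩
  map_add' S T := by
    rw [← map_add]
    congr 1
    apply Subtype.ext
    ext1 x
    simp
  map_smul' c T := by
    rw [← map_smul]
    congr 1
    apply Subtype.ext
    ext1 x
    simp

lemma norm_LRf_le (a s : H →L[ℂ] H) (T : HSC b) : ‖LRf b a s T‖ ≤ ‖a‖ * ‖s‖ * ‖emb b T‖ := by
  have h1 : ‖LRf b a s T‖ₑ ^ 2 ≤ (‖a‖ₑ * ‖s‖ₑ * ‖emb b T‖ₑ) ^ 2 := by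
    rw [mul_pow _ ‖emb b T‖ₑ, norm_emb_sq]
    show ‖emb b ⟨a ∘L T.1 ∘L s, HSC_comp b a s T.2⟩‖ₑ ^ 2 ≤ _
    rw [norm_emb_sq]
    exact hsn_comp_comp b a s T.1
  have h2 : ‖LRf b a s T‖ₑ ≤ ‖a‖ₑ * ‖s‖ₑ * ‖emb b T‖ₑ :=
    (ENNReal.pow_le_pow_left_iff two_ne_zero).1 h1
  rw [← ofReal_norm, ← ofReal_norm, ← ofReal_norm,
    ← ofReal_norm, ← ENNReal.ofReal_mul (norm_nonneg _),
    ← ENNReal.ofReal_mul (by positivity)] at h2
  exact (ENNReal.ofReal_le_ofReal_iff (by positivity)).1 h2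

lemma rk_mem_HSC (x z : H) : rk x z ∈ HSC b := by
  show Memℓp (fun i => rk x z (b i)) 2
  rw [memℓp_gen_iff (by norm_num)]
  simp only [rk_apply, norm_smul, ENNReal.toReal_ofNat, Real.rpow_ofNat, mul_pow]
  refine Summable.mul_right _ ?_
  refine (hasSum_norm_sq b z).summable.congr fun i => ?_
  rw [norm_inner_symm]

/-- the rank-one element `|x⟩⟨z|` -/
noncomputable def hs (x z : H) : HSp ι H := emb b ⟨rk x z, rk_mem_HSC b x z⟩

@[simp] lemma hs_apply (x z : H) (i : ι) : (hs b x z : ι → H) i = ⟪z, b i⟫_ℂ • x := rfl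

lemma inner_hs (x z x' z' : H) : ⟪hs b x z, hs b x' z'⟫_ℂ = ⟪x, x'⟫_ℂ * ⟪z', z⟫_ℂ := by
  rw [lp.inner_eq_tsum]
  simp only [hs_apply, inner_smul_left, inner_smul_right]
  have h1 : ∀ i, ⟪z', b i⟫_ℂ * ((starRingEnd ℂ) ⟪z, b i⟫_ℂ * ⟪x, x'⟫_ℂ)
      = ⟪x, x'⟫_ℂ * (⟪z', b i⟫_ℂ * ⟪b i, z⟫_ℂ) := by
    intro i
    rw [inner_conj_symm]
    ring
  rw [tsum_congr h1, tsum_mul_left, b.tsum_inner_mul_inner]

lemma hs_add_left (x x' z : H) : hs b (x + x') z = hs b x z + hs b x' z := by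
  ext i; simp

lemma hs_add_right (x z z' : H) : hs b x (z + z') = hs b x z + hs b x z' := by
  ext i; simp [inner_add_left, add_smul]

lemma hs_smul_left (c : ℂ) (x z : H) : hs b (c • x) z = c • hs b x z := by
  ext i; simp [smul_comm c]

lemma hs_smul_right (c : ℂ) (x z : H) : hs b x (c • z) = (starRingEnd ℂ) c • hs b x z := by
  ext i
  show ⟪c • z, b i⟫_ℂ • x = (starRingEnd ℂ) c • (⟪z, b i⟫_ℂ • x)
  rw [inner_smul_left, mul_smul]

lemma norm_hs (x z : H) : ‖hs b x z‖ = ‖x‖ * ‖z‖ := by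
  have h := inner_hs b x z x z
  rw [inner_self_eq_norm_sq_to_K, inner_self_eq_norm_sq_to_K, inner_self_eq_norm_sq_to_K] at h
  have h2 : ‖hs b x z‖ ^ 2 = (‖x‖ * ‖z‖) ^ 2 := by
    rw [mul_pow]; exact_mod_cast h
  exact (pow_left_inj₀ (norm_nonneg _) (by positivity) two_ne_zero).1 h2

lemma continuous_hs : Continuous fun p : H × H => hs b p.1 p.2 := by
  rw [continuous_iff_continuousAt]
  rintro ⟨x, z⟩
  rw [ContinuousAt, tendsto_iff_norm_sub_tendsto_zero]
  have hle : ∀ p : H × H, ‖hs b p.1 p.2 - hs b x z‖ ≤ ‖p.1 - x‖ * ‖p.2‖ + ‖x‖ * ‖p.2 - z‖ := by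
    intro p
    have e : hs b p.1 p.2 - hs b x z = hs b (p.1 - x) p.2 + hs b x (p.2 - z) := by
      ext i
      simp [inner_sub_left, sub_smul, smul_sub]
    rw [e]
    refine (norm_add_le _ _).trans ?_
    rw [norm_hs, norm_hs]
  have hlim : Tendsto (fun p : H × H => ‖p.1 - x‖ * ‖p.2‖ + ‖x‖ * ‖p.2 - z‖) (𝓝 (x, z)) (𝓝 0) := by
    have hc : Continuous fun p : H × H => ‖p.1 - x‖ * ‖p.2‖ + ‖x‖ * ‖p.2 - z‖ := by fun_prop
    have := hc.tendsto (x, z)
    simpa using this
  exact squeeze_zero (fun _ => norm_nonneg _) hle hlim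

lemma span_hs_basis_dense : (Submodule.span ℂ {y : HSp ι H | ∃ x i,
    y = hs b x (b i)}).topologicalClosure = ⊤ := by
  classical
  rw [eq_top_iff]
  intro f _
  have h1 : ∀ (i : ι) (x : H), lp.single 2 i x = hs b x (b i) := by
    intro i x
    ext j
    rw [hs_apply, lp.single_apply]
    rcases eq_or_ne i j with rfl | hij
    · rw [Pi.single_eq_same, orthonormal_iff_ite.1 b.orthonormal, if_pos rfl, one_smul]
    · rw [Pi.single_eq_of_ne' hij, orthonormal_iff_ite.1 b.orthonormal, if_neg hij, zero_smul]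
  have h2 := lp.hasSum_single (E := fun _ : ι => H) (p := 2) (by norm_num) f
  refine mem_closure_of_tendsto h2 (Eventually.of_forall fun s => ?_)
  refine Submodule.sum_mem _ fun i _ => ?_
  rw [h1]
  exact Submodule.subset_span ⟨_, _, rfl⟩

lemma span_hs_dense : (Submodule.span ℂ {y : HSp ι H | ∃ x z,
    y = hs b x z}).topologicalClosure = ⊤ := by
  rw [eq_top_iff, ← span_hs_basis_dense b]
  refine Submodule.topologicalClosure_mono (Submodule.span_mono ?_)
  rintro _ ⟨x, i, rfl⟩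
  exact ⟨x, b i, rfl⟩

lemma denseRange_emb : DenseRange (emb b) := by
  have h := span_hs_dense b
  have h1 : (Submodule.span ℂ {y : HSp ι H | ∃ x z, y = hs b x z}) ≤ LinearMap.range (emb b) := by
    refine Submodule.span_le.2 ?_
    rintro _ ⟨x, z, rfl⟩
    exact ⟨_, rfl⟩
  have h2 := Submodule.topologicalClosure_mono h1
  rw [h, top_le_iff] at h2
  have h3 : Dense ((LinearMap.range (emb b) : Submodule ℂ (HSp ι H)) : Set (HSp ι H)) := by
    rw [← Submodule.dense_iff_topologicalClosure_eq_top] at h2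
    exact h2
  exact h3

/-- the operator `T ↦ a T s` on Hilbert-Schmidt operators -/
noncomputable def LR (a s : H →L[ℂ] H) : HSp ι H →L[ℂ] HSp ι H :=
  (LRf b a s).extendOfNorm (emb b)

lemma LR_emb (a s : H →L[ℂ] H) (T : HSC b) :
    LR b a s (emb b T) = emb b ⟨a ∘L T.1 ∘L s, HSC_comp b a s T.2⟩ :=
  LinearMap.extendOfNorm_eq (denseRange_emb b) ⟨_, norm_LRf_le b a s⟩ T

lemma LR_hs (a s : H →L[ℂ] H) (x z : H) :
    LR b a s (hs b x z) = hs b (a x) (ContinuousLinearMap.adjoint s z) := by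
  unfold hs
  rw [LR_emb]
  congr 1
  apply Subtype.ext
  ext1 w
  simp [ContinuousLinearMap.adjoint_inner_left]

/-- continuous linear maps on `HSp` agreeing on rank-one elements agree -/
lemma ext_hs {F : Type*} [NormedAddCommGroup F] [NormedSpace ℂ F] {S T : HSp ι H →L[ℂ] F}
    (h : ∀ x z, S (hs b x z) = T (hs b x z)) : S = T := by
  ext1 f
  have hf : f ∈ closure ((Submodule.span ℂ {y : HSp ι H | ∃ x z, y = hs b x z} :
      Submodule ℂ (HSp ι H)) : Set (HSp ι H)) := by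
    have : f ∈ (Submodule.span ℂ {y : HSp ι H | ∃ x z, y = hs b x z}).topologicalClosure := by
      rw [span_hs_dense]; trivial
    exact this
  have hcl : IsClosed {f : HSp ι H | S f = T f} := isClosed_eq S.continuous T.continuous
  refine closure_minimal ?_ hcl hf
  intro u hu
  induction hu using Submodule.span_induction with
  | mem u hu => obtain ⟨x, z, rfl⟩ := hu; exact h x z
  | zero => show S 0 = T 0; simp
  | add u v _ _ hu hv =>
    have hu' : S u = T u := hu
    have hv' : S v = T v := hv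
    show S (u + v) = T (u + v)
    rw [map_add, map_add, hu', hv']
  | smul c u _ hu =>
    have hu' : S u = T u := hu
    show S (c • u) = T (c • u)
    rw [map_smul, map_smul, hu']

lemma LR_comp (a s a' s' : H →L[ℂ] H) :
    LR b a s ∘L LR b a' s' = LR b (a ∘L a') (s' ∘L s) := by
  refine ext_hs b fun x z => ?_
  rw [ContinuousLinearMap.comp_apply, LR_hs, LR_hs, LR_hs, ContinuousLinearMap.adjoint_comp]
  rfl

lemma LR_adjoint (a s : H →L[ℂ] H) : ContinuousLinearMap.adjoint (LR b a s) =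
    LR b (ContinuousLinearMap.adjoint a) (ContinuousLinearMap.adjoint s) := by
  refine ext_hs b fun x z => ?_
  rw [LR_hs, ContinuousLinearMap.adjoint_adjoint]
  -- compare inner products with rank-one elements
  have h2 : ∀ f : HSp ι H, ⟪ContinuousLinearMap.adjoint (LR b a s) (hs b x z), f⟫_ℂ
      = ⟪hs b (ContinuousLinearMap.adjoint a x) (s z), f⟫_ℂ := by
    intro f
    have h3 : (innerSL ℂ (ContinuousLinearMap.adjoint (LR b a s) (hs b x z)))
        = innerSL ℂ (hs b (ContinuousLinearMap.adjoint a x) (s z)) := by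
      refine ext_hs b fun x' z' => ?_
      rw [innerSL_apply_apply, innerSL_apply_apply, ContinuousLinearMap.adjoint_inner_left, LR_hs,
        inner_hs, inner_hs, ContinuousLinearMap.adjoint_inner_left,
        ContinuousLinearMap.adjoint_inner_left]
    have h4 := congrArg (fun T : HSp ι H →L[ℂ] ℂ => T f) h3
    simpa using h4
  exact ext_inner_right ℂ h2

/-- the tracial representation on Hilbert-Schmidt operators -/
noncomputable def hsRep (R : TracialRep H) : TracialRep (HSp ι H) where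
  G := {T | ∃ a ∈ R.G, ∃ s ∈ R.G, T = LR b a s}
  adj_mem := by
    rintro _ ⟨a, ha, s, hs, rfl⟩
    exact ⟨_, R.adj_mem a ha, _, R.adj_mem s hs, LR_adjoint b a s⟩
  Ω := hs b R.Ω R.Ω
  norm_Ω := by rw [norm_hs, R.norm_Ω, one_mul]
  dense := by
    rw [eq_top_iff, ← span_hs_dense b]
    refine Submodule.topologicalClosure_minimal _ ?_ (Submodule.isClosed_topologicalClosure _)
    refine Submodule.span_le.2 ?_
    rintro _ ⟨x, z, rfl⟩
    set Y : Submodule ℂ (HSp ι H) := (Submodule.span ℂ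
      ((fun a : HSp ι H →L[ℂ] HSp ι H => a (hs b R.Ω R.Ω)) ''
        {T | ∃ a ∈ R.G, ∃ s ∈ R.G, T = LR b a s})).topologicalClosure with hY
    have hYcl : IsClosed (Y : Set (HSp ι H)) := Submodule.isClosed_topologicalClosure _
    have hmem : ∀ x : H, x ∈ closure ((Submodule.span ℂ ((fun a : H →L[ℂ] H => a R.Ω) '' R.G) :
        Submodule ℂ H) : Set H) := by
      intro x
      have : x ∈ (Submodule.span ℂ ((fun a : H →L[ℂ] H => a R.Ω) '' R.G)).topologicalClosure := by
        rw [R.dense]; trivial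
      exact this
    have hc1 : ∀ z, Continuous fun x => hs b x z := fun z =>
      (continuous_hs b).comp (continuous_id.prodMk continuous_const)
    have hc2 : ∀ x, Continuous fun z => hs b x z := fun x =>
      (continuous_hs b).comp (continuous_const.prodMk continuous_id)
    -- first variable
    have step1 : ∀ s ∈ R.G, ∀ x, hs b x (s R.Ω) ∈ Y := by
      intro s hs' x
      have hcl : IsClosed {x : H | hs b x (s R.Ω) ∈ Y} := hYcl.preimage (hc1 _)
      refine closure_minimal ?_ hcl (hmem x)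
      intro u hu
      induction hu using Submodule.span_induction with
      | mem u hu =>
        obtain ⟨a, ha, rfl⟩ := hu
        refine Submodule.le_topologicalClosure _ (Submodule.subset_span
          ⟨LR b a (ContinuousLinearMap.adjoint s), ⟨a, ha, _, R.adj_mem s hs', rfl⟩, ?_⟩)
        show LR b a (ContinuousLinearMap.adjoint s) (hs b R.Ω R.Ω) = _
        rw [LR_hs, ContinuousLinearMap.adjoint_adjoint]
      | zero =>
        show hs b 0 (s R.Ω) ∈ Y
        have : hs b 0 (s R.Ω) = 0 := by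
          have := hs_smul_left b 0 (0 : H) (s R.Ω)
          simpa using this
        rw [this]; exact Submodule.zero_mem _
      | add u v _ _ hu hv =>
        show hs b (u + v) (s R.Ω) ∈ Y
        rw [hs_add_left]; exact Submodule.add_mem _ hu hv
      | smul c u _ hu =>
        show hs b (c • u) (s R.Ω) ∈ Y
        rw [hs_smul_left]; exact Submodule.smul_mem _ _ hu
    have hcl : IsClosed {z : H | hs b x z ∈ Y} := hYcl.preimage (hc2 _)
    refine closure_minimal ?_ hcl (hmem z)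
    intro u hu
    induction hu using Submodule.span_induction with
    | mem u hu =>
      obtain ⟨a, ha, rfl⟩ := hu
      exact step1 a ha x
    | zero =>
      show hs b x 0 ∈ Y
      have : hs b x 0 = 0 := by
        have := hs_smul_right b 0 x (0 : H)
        simpa using this
      rw [this]; exact Submodule.zero_mem _
    | add u v _ _ hu hv =>
      show hs b x (u + v) ∈ Y
      rw [hs_add_right]; exact Submodule.add_mem _ hu hv
    | smul c u _ hu =>
      show hs b x (c • u) ∈ Y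
      rw [hs_smul_right]; exact Submodule.smul_mem _ _ hu
  trace := by
    rintro _ ⟨a, ha, s, hs', rfl⟩ _ ⟨a', ha', s', hs'', rfl⟩
    rw [LR_hs, LR_hs, LR_hs, LR_hs, inner_hs, inner_hs, R.trace a ha a' ha']
    congr 1
    have e1 : ⟪ContinuousLinearMap.adjoint s (ContinuousLinearMap.adjoint s' R.Ω), R.Ω⟫_ℂ
        = ⟪R.Ω, s' (s R.Ω)⟫_ℂ := by
      rw [ContinuousLinearMap.adjoint_inner_left, ContinuousLinearMap.adjoint_inner_left]
    have e2 : ⟪ContinuousLinearMap.adjoint s' (ContinuousLinearMap.adjoint s R.Ω), R.Ω⟫_ℂ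
        = ⟪R.Ω, s (s' R.Ω)⟫_ℂ := by
      rw [ContinuousLinearMap.adjoint_inner_left, ContinuousLinearMap.adjoint_inner_left]
    rw [e1, e2]
    exact R.trace _ hs'' _ hs'

lemma hsRep_Ω (R : TracialRep H) : (hsRep b R).Ω = hs b R.Ω R.Ω := rfl

/-- left and right multiplications by elements of the commutant are in the commutant -/
lemma hsRep_comm (R : TracialRep H) {p q : H →L[ℂ] H} (hp : R.Comm p) (hq : R.Comm q) :
    (hsRep b R).Comm (LR b p q) := by
  rintro _ ⟨a, ha, s, hs', rfl⟩ f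
  have h : LR b p q ∘L LR b a s = LR b a s ∘L LR b p q := by
    rw [LR_comp, LR_comp]
    congr 1
    · ext1 x; exact hp a ha x
    · ext1 x; exact (hq s hs' x).symm
  exact congrArg (fun T : HSp ι H →L[ℂ] HSp ι H => T f) h

section hat

variable {κ κ' : Type*} [Fintype κ] [Fintype κ']

/-- the vector `(|x_k⟩⟨z|)_k` -/
noncomputable def pt (x : Pw κ H) (z : H) : Pw κ (HSp ι H) :=
  WithLp.toLp 2 fun k => hs b (x k) z

@[simp] lemma pt_apply (x : Pw κ H) (z : H) (k : κ) : pt b x z k = hs b (x k) z := rfl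

lemma inner_pt (x : Pw κ H) (z : H) (x' : Pw κ H) (z' : H) :
    ⟪pt b x z, pt b x' z'⟫_ℂ = ⟪x, x'⟫_ℂ * ⟪z', z⟫_ℂ := by
  rw [PiLp.inner_apply, PiLp.inner_apply, Finset.sum_mul]
  refine Finset.sum_congr rfl fun k _ => ?_
  rw [pt_apply, pt_apply, inner_hs]

lemma norm_pt (x : Pw κ H) (z : H) : ‖pt b x z‖ = ‖x‖ * ‖z‖ := by
  have h := inner_pt b x z x z
  rw [inner_self_eq_norm_sq_to_K, inner_self_eq_norm_sq_to_K, inner_self_eq_norm_sq_to_K] at h
  have h2 : ‖pt b x z‖ ^ 2 = (‖x‖ * ‖z‖) ^ 2 := by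
    rw [mul_pow]; exact_mod_cast h
  exact (pow_left_inj₀ (norm_nonneg _) (by positivity) two_ne_zero).1 h2

lemma pt_add_left (x x' : Pw κ H) (z : H) : pt b (x + x') z = pt b x z + pt b x' z := by
  ext1 k; simp [hs_add_left]

lemma pt_sub_left (x x' : Pw κ H) (z : H) : pt b (x - x') z = pt b x z - pt b x' z := by
  rw [eq_sub_iff_add_eq, ← pt_add_left, sub_add_cancel]

lemma pt_smul_left (c : ℂ) (x : Pw κ H) (z : H) : pt b (c • x) z = c • pt b x z := by
  ext1 k; simp [hs_smul_left]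

lemma pt_add_right (x : Pw κ H) (z z' : H) : pt b x (z + z') = pt b x z + pt b x z' := by
  ext1 k; simp [hs_add_right]

lemma pt_smul_right (c : ℂ) (x : Pw κ H) (z : H) :
    pt b x (c • z) = (starRingEnd ℂ) c • pt b x z := by
  ext1 k; simp [hs_smul_right]

lemma continuous_pt : Continuous fun p : Pw κ H × H => pt b p.1 p.2 := by
  have h : Continuous fun p : Pw κ H × H => (fun k => hs b (p.1 k) p.2 : κ → HSp ι H) := by
    refine continuous_pi fun k => ?_
    have h1 : Continuous fun p : Pw κ H × H => ((p.1 k, p.2) : H × H) :=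
      ((PiLp.continuous_apply 2 (fun _ : κ => H) k).comp continuous_fst).prodMk continuous_snd
    exact (continuous_hs b).comp h1
  exact (PiLp.continuous_toLp 2 _).comp h

/-- `V ⊗ H*` -/
noncomputable def hat (V : Submodule ℂ (Pw κ H)) : Submodule ℂ (Pw κ (HSp ι H)) :=
  Submodule.span ℂ {y | ∃ x ∈ V, ∃ z, y = pt b x z}

lemma pt_mem_hat {V : Submodule ℂ (Pw κ H)} {x : Pw κ H} (hx : x ∈ V) (z : H) :
    pt b x z ∈ hat b V := Submodule.subset_span ⟨x, hx, z, rfl⟩

lemma diag_LR_pt (a s : H →L[ℂ] H) (x : Pw κ H) (z : H) :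
    diag κ (LR b a s) (pt b x z) = pt b (diag κ a x) (ContinuousLinearMap.adjoint s z) := by
  ext1 k
  simp [LR_hs]

lemma inv_hat (R : TracialRep H) {V : Submodule ℂ (Pw κ H)} (hV : R.Inv V) :
    (hsRep b R).Inv (hat b V) := by
  rintro _ ⟨a, ha, s, hs', rfl⟩ x hx
  induction hx using Submodule.span_induction with
  | mem u hu =>
    obtain ⟨x, hx, z, rfl⟩ := hu
    rw [diag_LR_pt]
    exact pt_mem_hat b (hV a ha x hx) _
  | zero => rw [map_zero]; exact Submodule.zero_mem _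
  | add u v _ _ hu hv => rw [map_add]; exact Submodule.add_mem _ hu hv
  | smul c u _ hu => rw [map_smul]; exact Submodule.smul_mem _ _ hu

lemma sing_Ω_hsRep (R : TracialRep H) (k : κ) :
    (sing k (hsRep b R).Ω : Pw κ (HSp ι H)) = pt b (sing k R.Ω) R.Ω := by
  ext1 l
  rw [pt_apply, sing_apply, sing_apply]
  split_ifs with h
  · rfl
  · have := hs_smul_left b 0 (0 : H) R.Ω
    simpa using this.symm

/-- the dimension of `V ⊗ H*` is the dimension of `V` -/
theorem dim_hat (R : TracialRep H) (V : Submodule ℂ (Pw κ H)) :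
    (hsRep b R).dim (hat b V) = R.dim V := by
  unfold TracialRep.dim
  refine Finset.sum_congr rfl fun k _ => ?_
  rw [sing_Ω_hsRep]
  have h : prj (hat b V) (pt b (sing k R.Ω) R.Ω) = pt b (prj V (sing k R.Ω)) R.Ω := by
    refine prj_unique ?_ ?_
    · have h1 : prj V (sing k R.Ω) ∈ closure (V : Set (Pw κ H)) := prj_mem V _
      have h2 : Set.MapsTo (fun x => pt b x R.Ω) (V : Set (Pw κ H))
          (hat b V : Set (Pw κ (HSp ι H))) := fun x hx => pt_mem_hat b hx _
      exact h2.closure ((continuous_pt b).comp (continuous_id.prodMk continuous_const)) h1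
    · rw [← pt_sub_left, hat, Submodule.mem_orthogonal]
      intro u hu
      induction hu using Submodule.span_induction with
      | mem u hu =>
        obtain ⟨x, hx, z, rfl⟩ := hu
        rw [inner_pt]
        have h3 : ⟪x, sing k R.Ω - prj V (sing k R.Ω)⟫_ℂ = 0 :=
          (Submodule.mem_orthogonal _ _).1 (sub_prj_mem V _) x
            (Submodule.le_topologicalClosure _ hx)
        rw [h3, zero_mul]
      | zero => exact inner_zero_left _
      | add u v _ _ hu hv => rw [inner_add_left, hu, hv, add_zero]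
      | smul c u _ hu => rw [inner_smul_left, hu, mul_zero]
  rw [h, norm_pt, R.norm_Ω, mul_one]

end hat

end Pool.Agent.Lib.MP_3a1c55_an
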