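import Pool.Agent.Lib.MP_3a1c55_an.HS

/-!
# Pencil kernels and morphism spaces
-/

set_option autoImplicit false
set_option linter.unusedSectionVars false
set_option linter.unusedSimpArgs false

open scoped InnerProductSpace
open Filter Topology

namespace Pool.Agent.Lib.MP_3a1c55_an

open TracialRep

section coord

variable {K : Type*} [NormedAddCommGroup K] [InnerProductSpace ℂ K] [CompleteSpace K]
variable {κ κ' γ γ' : Type*} [Fintype κ] [Fintype κ'] [Fintype γ] [Fintype γ']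

/-- reindexing along a map of index sets -/
noncomputable def pull (f : κ → κ') : Pw κ' K →L[ℂ] Pw κ K :=
  ((PiLp.continuousLinearEquiv 2 ℂ (fun _ : κ => K)).symm :
      (κ → K) →L[ℂ] PiLp 2 (fun _ : κ => K)) ∘L
    (ContinuousLinearMap.pi fun k => PiLp.proj 2 (fun _ : κ' => K) (f k))

@[simp] lemma pull_apply (f : κ → κ') (x : Pw κ' K) (k : κ) : pull f x k = x (f k) := rfl

lemma inter_pull (R : TracialRep K) (f : κ → κ') :
    R.Inter (pull f : Pw κ' K →L[ℂ] Pw κ K) := fun _ _ _ => rfl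

/-- extension by zero on the left summand -/
noncomputable def inL (γ' : Type*) [Fintype γ'] : Pw γ K →L[ℂ] Pw (γ ⊕ γ') K :=
  ((PiLp.continuousLinearEquiv 2 ℂ (fun _ : γ ⊕ γ' => K)).symm :
      (γ ⊕ γ' → K) →L[ℂ] PiLp 2 (fun _ : γ ⊕ γ' => K)) ∘L
    (ContinuousLinearMap.pi fun k => Sum.elim (fun g => PiLp.proj 2 (fun _ : γ => K) g)
      (fun _ => 0) k)

/-- extension by zero on the right summand -/
noncomputable def inR (γ : Type*) [Fintype γ] : Pw γ' K →L[ℂ] Pw (γ ⊕ γ') K :=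
  ((PiLp.continuousLinearEquiv 2 ℂ (fun _ : γ ⊕ γ' => K)).symm :
      (γ ⊕ γ' → K) →L[ℂ] PiLp 2 (fun _ : γ ⊕ γ' => K)) ∘L
    (ContinuousLinearMap.pi fun k => Sum.elim (fun _ => 0)
      (fun g => PiLp.proj 2 (fun _ : γ' => K) g) k)

@[simp] lemma inL_inl (x : Pw γ K) (g : γ) : inL γ' x (Sum.inl g) = x g := rfl
@[simp] lemma inL_inr (x : Pw γ K) (g : γ') : inL γ' x (Sum.inr g) = 0 := rfl
@[simp] lemma inR_inl (x : Pw γ' K) (g : γ) : inR γ x (Sum.inl g) = 0 := rfl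
@[simp] lemma inR_inr (x : Pw γ' K) (g : γ') : inR γ x (Sum.inr g) = x g := rfl

lemma inter_inL (R : TracialRep K) : R.Inter (inL γ' : Pw γ K →L[ℂ] Pw (γ ⊕ γ') K) := by
  intro a _ x
  ext k
  rcases k with k | k
  · rfl
  · show (0 : K) = a 0
    rw [map_zero]

lemma inter_inR (R : TracialRep K) : R.Inter (inR γ : Pw γ' K →L[ℂ] Pw (γ ⊕ γ') K) := by
  intro a _ x
  ext k
  rcases k with k | k
  · show (0 : K) = a 0
    rw [map_zero]
  · rfl

lemma inL_add_inR (x : Pw (γ ⊕ γ') K) :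
    inL γ' (pull Sum.inl x) + inR γ (pull Sum.inr x) = x := by
  ext k
  rcases k with k | k <;> simp

lemma inL_injective {x : Pw γ K} (h : inL γ' x = 0) : x = 0 := by
  ext k
  have := congrArg (fun y : Pw (γ ⊕ γ') K => y (Sum.inl k)) h
  simpa using this

end coord

variable {H : Type*} [NormedAddCommGroup H] [InnerProductSpace ℂ H] [CompleteSpace H]
variable {J : Type*} [Fintype J] (rr : J → H →L[ℂ] H)

/-- operators given by scalar matrices -/
def IsSm {γ δ : Type} [Fintype γ] [Fintype δ] (T : Pw γ H →L[ℂ] Pw δ H) : Prop :=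
  ∃ A : Matrix δ γ ℂ, T = smat A

/-- operators given by scalar pencils -/
def IsPen {γ δ : Type} [Fintype γ] [Fintype δ] (T : Pw γ H →L[ℂ] Pw δ H) : Prop :=
  ∃ e : J → Matrix δ γ ℂ, T = pen rr e

/-- kernels of scalar pencils -/
def IsPK {γ : Type} [Fintype γ] (V : Submodule ℂ (Pw γ H)) : Prop :=
  ∃ (δ : Type) (_ : Fintype δ) (e : J → Matrix δ γ ℂ), V = (pen rr e).ker

section

variable {α β γ δ : Type} [Fintype α] [Fintype β] [Fintype γ] [Fintype δ]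

lemma isSm_pull (f : γ → δ) : IsSm (pull f : Pw δ H →L[ℂ] Pw γ H) := by
  classical
  refine ⟨Matrix.of fun k l => if f k = l then 1 else 0, ?_⟩
  ext x k
  rw [smat_apply, Finset.sum_eq_single (f k)]
  · simp
  · intro l _ hl
    simp [hl.symm]
  · simp

lemma IsSm.add {S T : Pw γ H →L[ℂ] Pw δ H} (hS : IsSm S) (hT : IsSm T) : IsSm (S + T) := by
  obtain ⟨A, rfl⟩ := hS
  obtain ⟨B, rfl⟩ := hT
  refine ⟨A + B, ?_⟩
  ext x k
  simp [smat_apply, add_smul, Finset.sum_add_distrib]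

lemma IsSm.smul {T : Pw γ H →L[ℂ] Pw δ H} (c : ℂ) (hT : IsSm T) : IsSm (c • T) := by
  obtain ⟨B, rfl⟩ := hT
  refine ⟨c • B, ?_⟩
  ext x k
  simp [smat_apply, Finset.smul_sum, smul_smul]

lemma IsSm.zero : IsSm (0 : Pw γ H →L[ℂ] Pw δ H) := by
  refine ⟨0, ?_⟩
  ext x k
  simp [smat_apply]

lemma IsSm.sum {ι : Type*} (s : Finset ι) {T : ι → Pw γ H →L[ℂ] Pw δ H}
    (hT : ∀ i, IsSm (T i)) : IsSm (∑ i ∈ s, T i) := by
  classical
  induction s using Finset.induction_on with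
  | empty => simpa using IsSm.zero
  | insert i s hi ih => rw [Finset.sum_insert hi]; exact (hT i).add ih

lemma IsSm.comp {S : Pw β H →L[ℂ] Pw γ H} {T : Pw α H →L[ℂ] Pw β H}
    (hS : IsSm S) (hT : IsSm T) : IsSm (S ∘L T) := by
  obtain ⟨A, rfl⟩ := hS
  obtain ⟨B, rfl⟩ := hT
  refine ⟨A * B, ?_⟩
  ext x l
  simp only [ContinuousLinearMap.comp_apply, smat_apply, Matrix.mul_apply, Finset.smul_sum,
    Finset.sum_smul, smul_smul]
  rw [Finset.sum_comm]

variable {rr}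

lemma IsPen.add {S T : Pw γ H →L[ℂ] Pw δ H} (hS : IsPen rr S) (hT : IsPen rr T) :
    IsPen rr (S + T) := by
  obtain ⟨A, rfl⟩ := hS
  obtain ⟨B, rfl⟩ := hT
  refine ⟨A + B, ?_⟩
  ext x k
  simp [pen_apply, add_smul, Finset.sum_add_distrib]

lemma IsPen.smul {T : Pw γ H →L[ℂ] Pw δ H} (c : ℂ) (hT : IsPen rr T) : IsPen rr (c • T) := by
  obtain ⟨B, rfl⟩ := hT
  refine ⟨c • B, ?_⟩
  ext x k
  simp [pen_apply, Finset.smul_sum, smul_smul]

lemma IsPen.sub {S T : Pw γ H →L[ℂ] Pw δ H} (hS : IsPen rr S) (hT : IsPen rr T) :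
    IsPen rr (S - T) := by
  have : S - T = S + (-1 : ℂ) • T := by
    ext x k
    simp [sub_eq_add_neg]
  rw [this]
  exact hS.add (hT.smul _)

lemma IsSm.isPen {T : Pw γ H →L[ℂ] Pw δ H} {j0 : J}
    (hj0 : rr j0 = ContinuousLinearMap.id ℂ H) (hT : IsSm T) : IsPen rr T := by
  classical
  obtain ⟨A, rfl⟩ := hT
  refine ⟨fun j => if j = j0 then A else 0, ?_⟩
  ext x k
  rw [pen_apply, Finset.sum_eq_single j0]
  · simp [smat_apply, hj0]
  · intro j _ hj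
    simp [hj]
  · simp

lemma IsPen.comp_sm {S : Pw β H →L[ℂ] Pw γ H} {T : Pw α H →L[ℂ] Pw β H}
    (hS : IsPen rr S) (hT : IsSm T) : IsPen rr (S ∘L T) := by
  obtain ⟨A, rfl⟩ := hS
  obtain ⟨B, rfl⟩ := hT
  refine ⟨fun j => A j * B, ?_⟩
  ext x l
  rw [ContinuousLinearMap.comp_apply, pen_comp_smat]

lemma IsPen.isPK {T : Pw γ H →L[ℂ] Pw δ H} (hT : IsPen rr T) : IsPK rr T.ker := by
  obtain ⟨e, rfl⟩ := hT
  exact ⟨δ, inferInstance, e, rfl⟩

lemma IsPK.inf {V W : Submodule ℂ (Pw γ H)} (hV : IsPK rr V) (hW : IsPK rr W) :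
    IsPK rr (V ⊓ W) := by
  obtain ⟨δ, _, e, rfl⟩ := hV
  obtain ⟨δ', _, e', rfl⟩ := hW
  refine ⟨δ ⊕ δ', inferInstance, fun j => Matrix.fromRows (e j) (e' j), ?_⟩
  ext x
  constructor
  · rintro ⟨h1, h2⟩
    have h1' : pen rr e x = 0 := h1
    have h2' : pen rr e' x = 0 := h2
    show pen rr (fun j => Matrix.fromRows (e j) (e' j)) x = 0
    ext k
    rcases k with k | k
    · have := congrArg (fun y : Pw δ H => y k) h1'
      simpa [pen_apply] using this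
    · have := congrArg (fun y : Pw δ' H => y k) h2'
      simpa [pen_apply] using this
  · intro h
    have h' : pen rr (fun j => Matrix.fromRows (e j) (e' j)) x = 0 := h
    constructor
    · show pen rr e x = 0
      ext k
      have := congrArg (fun y : Pw (δ ⊕ δ') H => y (Sum.inl k)) h'
      simpa [pen_apply] using this
    · show pen rr e' x = 0
      ext k
      have := congrArg (fun y : Pw (δ ⊕ δ') H => y (Sum.inr k)) h'
      simpa [pen_apply] using this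

lemma IsPK.top : IsPK rr (⊤ : Submodule ℂ (Pw γ H)) := by
  refine ⟨Empty, inferInstance, fun _ => 0, ?_⟩
  symm
  rw [eq_top_iff]
  intro x _
  show pen rr _ x = 0
  ext k
  exact k.elim

lemma IsPK.finset_inf {ι : Type*} (s : Finset ι) {V : ι → Submodule ℂ (Pw γ H)}
    (hV : ∀ i, IsPK rr (V i)) : IsPK rr (s.inf V) := by
  classical
  induction s using Finset.induction_on with
  | empty => simpa using IsPK.top
  | insert i s hi ih => rw [Finset.inf_insert]; exact (hV i).inf ih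

lemma IsPK.iInf {ι : Type*} [Fintype ι] {V : ι → Submodule ℂ (Pw γ H)}
    (hV : ∀ i, IsPK rr (V i)) : IsPK rr (⨅ i, V i) := by
  have : (⨅ i, V i) = Finset.univ.inf V := by
    rw [Finset.inf_univ_eq_iInf]
  rw [this]
  exact IsPK.finset_inf _ hV

lemma IsPK.comap {V : Submodule ℂ (Pw δ H)} (hV : IsPK rr V) {T : Pw γ H →L[ℂ] Pw δ H}
    (hT : IsSm T) : IsPK rr (V.comap (T : Pw γ H →ₗ[ℂ] Pw δ H)) := by
  obtain ⟨ε, _, e, rfl⟩ := hV
  have h : IsPen rr (pen rr e ∘L T) := IsPen.comp_sm ⟨e, rfl⟩ hT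
  have h2 := h.isPK
  exact h2

lemma IsPK.isClosed {V : Submodule ℂ (Pw γ H)} (hV : IsPK rr V) : IsClosed (V : Set (Pw γ H)) := by
  obtain ⟨δ, _, e, rfl⟩ := hV
  exact ContinuousLinearMap.isClosed_ker _

lemma IsPK.closure_eq {V : Submodule ℂ (Pw γ H)} (hV : IsPK rr V) : V.topologicalClosure = V :=
  IsClosed.submodule_topologicalClosure_eq hV.isClosed

lemma IsPK.inv {R : TracialRep H} (hr : ∀ j, R.Comm (rr j)) {V : Submodule ℂ (Pw γ H)}
    (hV : IsPK rr V) : R.Inv V := by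
  obtain ⟨δ, _, e, rfl⟩ := hV
  exact (inter_pen rr R hr e).inv_ker

lemma IsPK.dim_int {R : TracialRep H} (hr : ∀ j, R.Comm (rr j)) (hNK : NK rr)
    {V : Submodule ℂ (Pw γ H)} (hV : IsPK rr V) : ∃ z : ℤ, R.dim V = z := by
  obtain ⟨δ, _, e, rfl⟩ := hV
  exact dim_ker_pen rr R hr hNK e

end

/-! ### Morphism spaces -/

section mor

variable {α β κ0 κ1 γ κ : Type} [Fintype α] [Fintype β] [Fintype κ0] [Fintype κ1] [Fintype γ]
  [Fintype κ]

section gen

variable {K : Type*} [NormedAddCommGroup K] [InnerProductSpace ℂ K] [CompleteSpace K]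

/-- first components -/
noncomputable def fc (a : α) : Pw ((α × κ0) ⊕ (β × κ1)) K →L[ℂ] Pw κ0 K :=
  pull (fun k => Sum.inl (a, k))

/-- second components -/
noncomputable def sc (b : β) : Pw ((α × κ0) ⊕ (β × κ1)) K →L[ℂ] Pw κ1 K :=
  pull (fun l => Sum.inr (b, l))

@[simp] lemma fc_apply (a : α) (x : Pw ((α × κ0) ⊕ (β × κ1)) K) (k : κ0) :
    fc a x k = x (Sum.inl (a, k)) := rfl

@[simp] lemma sc_apply (b : β) (x : Pw ((α × κ0) ⊕ (β × κ1)) K) (l : κ1) :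
    sc b x l = x (Sum.inr (b, l)) := rfl

/-- a slice -/
noncomputable def sl (g : γ) : Pw (γ × κ) K →L[ℂ] Pw κ K := pull (Prod.mk g)

@[simp] lemma sl_apply (g : γ) (x : Pw (γ × κ) K) (k : κ) : sl g x k = x (g, k) := rfl

/-- evaluation on first components -/
noncomputable def ev0 (α β κ0 κ1 : Type) [Fintype α] [Fintype β] [Fintype κ0] [Fintype κ1]
    (K : Type*) [NormedAddCommGroup K] [InnerProductSpace ℂ K] [CompleteSpace K] :
    Pw (α × ((α × κ0) ⊕ (β × κ1))) K →L[ℂ] Pw κ0 K := ∑ a : α, fc a ∘L sl a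

/-- evaluation on second components -/
noncomputable def ev1 (α β κ0 κ1 : Type) [Fintype α] [Fintype β] [Fintype κ0] [Fintype κ1]
    (K : Type*) [NormedAddCommGroup K] [InnerProductSpace ℂ K] [CompleteSpace K] :
    Pw (β × ((α × κ0) ⊕ (β × κ1))) K →L[ℂ] Pw κ1 K := ∑ b : β, sc b ∘L sl b

lemma ev0_apply (x : Pw (α × ((α × κ0) ⊕ (β × κ1))) K) :
    ev0 α β κ0 κ1 K x = ∑ a : α, fc a (sl a x) := by
  simp [ev0, sum_apply]

lemma ev1_apply (x : Pw (β × ((α × κ0) ⊕ (β × κ1))) K) :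
    ev1 α β κ0 κ1 K x = ∑ b : β, sc b (sl b x) := by
  simp [ev1, sum_apply]

lemma inter_zero (R : TracialRep K) : R.Inter (0 : Pw γ K →L[ℂ] Pw κ K) := by
  intro a _ x
  ext k
  simp

lemma inter_sum (R : TracialRep K) {ι : Type*} (s : Finset ι) {T : ι → Pw γ K →L[ℂ] Pw κ K}
    (hT : ∀ i, R.Inter (T i)) : R.Inter (∑ i ∈ s, T i) := by
  classical
  induction s using Finset.induction_on with
  | empty => simpa using inter_zero R
  | insert i s hi ih => rw [Finset.sum_insert hi]; exact (hT i).add ih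

lemma inter_ev0 (R : TracialRep K) : R.Inter (ev0 α β κ0 κ1 K) :=
  inter_sum R _ fun _ => (inter_pull R _).comp (inter_pull R _)

lemma inter_ev1 (R : TracialRep K) : R.Inter (ev1 α β κ0 κ1 K) :=
  inter_sum R _ fun _ => (inter_pull R _).comp (inter_pull R _)

end gen

lemma isSm_ev0 : IsSm (ev0 α β κ0 κ1 H) :=
  IsSm.sum _ fun _ => (isSm_pull _).comp (isSm_pull _)

lemma isSm_ev1 : IsSm (ev1 α β κ0 κ1 H) :=
  IsSm.sum _ fun _ => (isSm_pull _).comp (isSm_pull _)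

/-- powers of a submodule -/
noncomputable def powS (γ : Type) [Fintype γ] (N : Submodule ℂ (Pw κ H)) : Submodule ℂ (Pw (γ × κ) H) :=
  ⨅ g : γ, N.comap ((sl g : Pw (γ × κ) H →L[ℂ] Pw κ H) : Pw (γ × κ) H →ₗ[ℂ] Pw κ H)

lemma mem_powS {N : Submodule ℂ (Pw κ H)} {x : Pw (γ × κ) H} :
    x ∈ powS γ N ↔ ∀ g, sl g x ∈ N := by
  simp [powS, Submodule.mem_iInf]

variable {rr}

lemma IsPK.powS {N : Submodule ℂ (Pw κ H)} (hN : IsPK rr N) : IsPK rr (powS γ N) :=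
  IsPK.iInf fun _ => hN.comap (isSm_pull _)

variable (rr)

/-- the operators `λ_j` -/
noncomputable def lam (P : J → J → Matrix κ1 κ0 ℂ) (j : J) : Pw κ0 H →L[ℂ] Pw κ1 H := pen rr (P j)

/-- morphisms from the scalar pencil `c` -/
noncomputable def Mor (P : J → J → Matrix κ1 κ0 ℂ) (c : J → Matrix β α ℂ) :
    Submodule ℂ (Pw ((α × κ0) ⊕ (β × κ1)) H) :=
  ⨅ p : J × α, (lam rr P p.1 ∘L fc p.2 - ∑ b, c p.1 b p.2 • sc b :
    Pw ((α × κ0) ⊕ (β × κ1)) H →L[ℂ] Pw κ1 H).ker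

variable {rr}

lemma mem_Mor {P : J → J → Matrix κ1 κ0 ℂ} {c : J → Matrix β α ℂ}
    {x : Pw ((α × κ0) ⊕ (β × κ1)) H} :
    x ∈ Mor rr P c ↔ ∀ j a, lam rr P j (fc a x) = ∑ b, c j b a • sc b x := by
  unfold Mor
  rw [Submodule.mem_iInf]
  constructor
  · intro h j a
    have h1 : (lam rr P j ∘L fc a - ∑ b, c j b a • sc b :
      Pw ((α × κ0) ⊕ (β × κ1)) H →L[ℂ] Pw κ1 H) x = 0 := h (j, a)
    rw [sub_apply, sub_eq_zero] at h1
    rw [ContinuousLinearMap.comp_apply] at h1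
    rw [h1]
    simp [sum_apply]
  · intro h p
    show (lam rr P p.1 ∘L fc p.2 - ∑ b, c p.1 b p.2 • sc b :
      Pw ((α × κ0) ⊕ (β × κ1)) H →L[ℂ] Pw κ1 H) x = 0
    rw [sub_apply, sub_eq_zero, ContinuousLinearMap.comp_apply, h]
    simp [sum_apply]

lemma isPK_Mor {j0 : J} (hj0 : rr j0 = ContinuousLinearMap.id ℂ H)
    (P : J → J → Matrix κ1 κ0 ℂ) (c : J → Matrix β α ℂ) : IsPK rr (Mor rr P c) := by
  refine IsPK.iInf fun p => IsPen.isPK ?_
  have h1 : IsPen rr (lam rr P p.1 ∘L fc p.2 : Pw ((α × κ0) ⊕ (β × κ1)) H →L[ℂ] Pw κ1 H) :=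
    IsPen.comp_sm ⟨P p.1, rfl⟩ (isSm_pull _)
  have h2 : IsSm (∑ b, c p.1 b p.2 • sc b : Pw ((α × κ0) ⊕ (β × κ1)) H →L[ℂ] Pw κ1 H) :=
    IsSm.sum _ fun _ => (isSm_pull _).smul _
  exact h1.sub (h2.isPen hj0)

variable (rr)

/-- the closed span of the images of the first components -/
noncomputable def YY (P : J → J → Matrix κ1 κ0 ℂ) (c : J → Matrix β α ℂ) :
    Submodule ℂ (Pw κ0 H) :=
  (powS α (Mor rr P c)).map ((ev0 α β κ0 κ1 H : _ →L[ℂ] _) : _ →ₗ[ℂ] _)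

/-- the closed span of the images of the second components -/
noncomputable def WW (P : J → J → Matrix κ1 κ0 ℂ) (c : J → Matrix β α ℂ) :
    Submodule ℂ (Pw κ1 H) :=
  (powS β (Mor rr P c)).map ((ev1 α β κ0 κ1 H : _ →L[ℂ] _) : _ →ₗ[ℂ] _)

variable {rr}

lemma dim_YY {j0 : J} (hj0 : rr j0 = ContinuousLinearMap.id ℂ H) {R : TracialRep H}
    (hr : ∀ j, R.Comm (rr j)) (P : J → J → Matrix κ1 κ0 ℂ) (c : J → Matrix β α ℂ) :
    R.dim (YY rr P c) + R.dim (powS α (Mor rr P c) ⊓ (ev0 α β κ0 κ1 H).ker)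
      = R.dim (powS α (Mor rr P c)) := by
  have hN : IsPK rr (powS α (Mor rr P c)) := (isPK_Mor hj0 P c).powS
  have h := R.dim_map_add_dim_inf_ker (hN.inv hr) (inter_ev0 R)
  rw [hN.closure_eq] at h
  exact h

lemma dim_WW {j0 : J} (hj0 : rr j0 = ContinuousLinearMap.id ℂ H) {R : TracialRep H}
    (hr : ∀ j, R.Comm (rr j)) (P : J → J → Matrix κ1 κ0 ℂ) (c : J → Matrix β α ℂ) :
    R.dim (WW rr P c) + R.dim (powS β (Mor rr P c) ⊓ (ev1 α β κ0 κ1 H).ker)
      = R.dim (powS β (Mor rr P c)) := by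
  have hN : IsPK rr (powS β (Mor rr P c)) := (isPK_Mor hj0 P c).powS
  have h := R.dim_map_add_dim_inf_ker (hN.inv hr) (inter_ev1 R)
  rw [hN.closure_eq] at h
  exact h

/-- the difference of the dimensions is an integer -/
lemma dim_YY_sub_dim_WW {j0 : J} (hj0 : rr j0 = ContinuousLinearMap.id ℂ H) {R : TracialRep H}
    (hr : ∀ j, R.Comm (rr j)) (hNK : NK rr) (P : J → J → Matrix κ1 κ0 ℂ)
    (c : J → Matrix β α ℂ) : ∃ z : ℤ, R.dim (YY rr P c) - R.dim (WW rr P c) = z := by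
  have h1 := dim_YY hj0 hr P c
  have h2 := dim_WW hj0 hr P c
  have hM := isPK_Mor hj0 P c
  obtain ⟨z1, hz1⟩ := (hM.powS (γ := α)).dim_int hr hNK
  obtain ⟨z2, hz2⟩ := (hM.powS (γ := β)).dim_int hr hNK
  have hk0 : IsPK rr (ev0 α β κ0 κ1 H).ker := (isSm_ev0.isPen hj0).isPK
  have hk1 : IsPK rr (ev1 α β κ0 κ1 H).ker := (isSm_ev1.isPen hj0).isPK
  obtain ⟨z3, hz3⟩ := ((hM.powS (γ := α)).inf hk0).dim_int hr hNK
  obtain ⟨z4, hz4⟩ := ((hM.powS (γ := β)).inf hk1).dim_int hr hNK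
  refine ⟨z1 - z3 - (z2 - z4), ?_⟩
  push_cast
  linarith

end mor

end Pool.Agent.Lib.MP_3a1c55_an
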