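import Pool.Agent.Lib.MP_3a1c55_an.Dim

/-!
# Scalar pencils

For a family `rr j` of operators and scalar matrices `c j` we consider the operator
`x ↦ (∑ j, ∑ a, c j b a • rr j (x a))_b`.  Under the condition `NK` (no non-trivial finite rank
relations) the kernel of such a pencil has integer dimension.
-/

set_option autoImplicit false
set_option linter.unusedSectionVars false
set_option linter.unusedSimpArgs false

open scoped InnerProductSpace
open Filter Topology

namespace Pool.Agent.Lib.MP_3a1c55_an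

open TracialRep

variable {H : Type*} [NormedAddCommGroup H] [InnerProductSpace ℂ H] [CompleteSpace H]

/-- finite rank -/
def FinRank (T : H →L[ℂ] H) : Prop :=
  FiniteDimensional ℂ (LinearMap.range ((T : H →L[ℂ] H) : H →ₗ[ℂ] H))

/-- there is no non-trivial family of finite rank operators with `∑ T_j r_j = 0 = ∑ r_j T_j` -/
def NK {J : Type*} [Fintype J] (rr : J → H →L[ℂ] H) : Prop :=
  ∀ T : J → H →L[ℂ] H, (∀ j, FinRank (T j)) → ∑ j, T j ∘L rr j = 0 → ∑ j, rr j ∘L T j = 0 →
    ∀ j, T j = 0

lemma FinRank.zero : FinRank (0 : H →L[ℂ] H) := by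
  unfold FinRank
  have : LinearMap.range (((0 : H →L[ℂ] H)) : H →ₗ[ℂ] H) = ⊥ := by
    rw [eq_bot_iff]
    rintro _ ⟨x, rfl⟩
    simp
  rw [this]
  infer_instance

lemma FinRank.add {S T : H →L[ℂ] H} (hS : FinRank S) (hT : FinRank T) : FinRank (S + T) := by
  unfold FinRank at *
  have : LinearMap.range ((S + T : H →L[ℂ] H) : H →ₗ[ℂ] H) ≤
      LinearMap.range ((S : H →L[ℂ] H) : H →ₗ[ℂ] H) ⊔
      LinearMap.range ((T : H →L[ℂ] H) : H →ₗ[ℂ] H) := by
    rintro _ ⟨x, rfl⟩
    exact Submodule.add_mem_sup ⟨x, rfl⟩ ⟨x, rfl⟩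
  exact Submodule.finiteDimensional_of_le this

lemma FinRank.smul {T : H →L[ℂ] H} (c : ℂ) (hT : FinRank T) : FinRank (c • T) := by
  unfold FinRank at *
  have : LinearMap.range ((c • T : H →L[ℂ] H) : H →ₗ[ℂ] H) ≤
      LinearMap.range ((T : H →L[ℂ] H) : H →ₗ[ℂ] H) := by
    rintro _ ⟨x, rfl⟩
    exact ⟨c • x, by simp⟩
  exact Submodule.finiteDimensional_of_le this

lemma FinRank.sum {ι : Type*} (s : Finset ι) {T : ι → H →L[ℂ] H} (hT : ∀ i ∈ s, FinRank (T i)) :
    FinRank (∑ i ∈ s, T i) := by
  classical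
  induction s using Finset.induction_on with
  | empty => simpa using FinRank.zero
  | insert i s hi ih =>
    rw [Finset.sum_insert hi]
    exact (hT i (Finset.mem_insert_self _ _)).add (ih fun j hj => hT j (Finset.mem_insert_of_mem hj))

lemma FinRank.comp_left {T : H →L[ℂ] H} (S : H →L[ℂ] H) (hT : FinRank T) : FinRank (S ∘L T) := by
  unfold FinRank at *
  have : LinearMap.range ((S ∘L T : H →L[ℂ] H) : H →ₗ[ℂ] H) ≤
      (LinearMap.range ((T : H →L[ℂ] H) : H →ₗ[ℂ] H)).map (S : H →ₗ[ℂ] H) := by
    rintro _ ⟨x, rfl⟩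
    exact ⟨T x, ⟨x, rfl⟩, rfl⟩
  exact Submodule.finiteDimensional_of_le this

lemma FinRank.comp_right {T : H →L[ℂ] H} (S : H →L[ℂ] H) (hT : FinRank T) : FinRank (T ∘L S) := by
  unfold FinRank at *
  have : LinearMap.range ((T ∘L S : H →L[ℂ] H) : H →ₗ[ℂ] H) ≤
      LinearMap.range ((T : H →L[ℂ] H) : H →ₗ[ℂ] H) := by
    rintro _ ⟨x, rfl⟩
    exact ⟨S x, rfl⟩
  exact Submodule.finiteDimensional_of_le this

/-- the operator `w ↦ ⟪z, w⟫ x` -/
noncomputable def rk (x z : H) : H →L[ℂ] H := (innerSL ℂ z).smulRight x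

@[simp] lemma rk_apply (x z w : H) : rk x z w = ⟪z, w⟫_ℂ • x := rfl

lemma FinRank.rk (x z : H) : FinRank (rk x z) := by
  unfold FinRank
  have : LinearMap.range ((MP_3a1c55_an.rk x z : H →L[ℂ] H) : H →ₗ[ℂ] H) ≤ Submodule.span ℂ {x} := by
    rintro _ ⟨w, rfl⟩
    exact Submodule.mem_span_singleton.2 ⟨⟪z, w⟫_ℂ, rfl⟩
  exact Submodule.finiteDimensional_of_le this

section pencils

variable {J : Type*} [Fintype J] (rr : J → H →L[ℂ] H)
variable {α β γ δ : Type*} [Fintype α] [Fintype β] [Fintype γ] [Fintype δ]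

/-- the pencil operator -/
noncomputable def pen (c : J → Matrix β α ℂ) : Pw α H →L[ℂ] Pw β H :=
  ((PiLp.continuousLinearEquiv 2 ℂ (fun _ : β => H)).symm :
      (β → H) →L[ℂ] PiLp 2 (fun _ : β => H)) ∘L
    (ContinuousLinearMap.pi fun b => ∑ j, ∑ a, c j b a • (rr j ∘L PiLp.proj 2 (fun _ : α => H) a))

lemma pen_apply (c : J → Matrix β α ℂ) (x : Pw α H) (b : β) :
    pen rr c x b = ∑ j, ∑ a, c j b a • rr j (x a) := by
  show (∑ j, ∑ a, c j b a • (rr j ∘L PiLp.proj 2 (fun _ : α => H) a)) x = _
  simp [sum_apply]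

/-- scalar matrix operators -/
noncomputable def smat (A : Matrix β α ℂ) : Pw α H →L[ℂ] Pw β H :=
  ((PiLp.continuousLinearEquiv 2 ℂ (fun _ : β => H)).symm :
      (β → H) →L[ℂ] PiLp 2 (fun _ : β => H)) ∘L
    (ContinuousLinearMap.pi fun b => ∑ a, A b a • (PiLp.proj 2 (fun _ : α => H) a))

lemma smat_apply (A : Matrix β α ℂ) (x : Pw α H) (b : β) :
    (smat A x : Pw β H) b = ∑ a, A b a • x a := by
  show (∑ a, A b a • (PiLp.proj 2 (fun _ : α => H) a)) x = _
  simp [sum_apply]

lemma inter_smat (R : TracialRep H) (A : Matrix β α ℂ) : R.Inter (smat A : Pw α H →L[ℂ] Pw β H) := by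
  intro a _ x
  ext b
  simp [smat_apply]

lemma inter_pen (R : TracialRep H) (hr : ∀ j, R.Comm (rr j)) (c : J → Matrix β α ℂ) :
    R.Inter (pen rr c) := by
  intro a ha x
  ext b
  simp only [pen_apply, diag_apply, map_sum, map_smul]
  refine Finset.sum_congr rfl fun j _ => Finset.sum_congr rfl fun i _ => ?_
  rw [hr j a ha]

/-- **dense range** of a pencil: if the coefficient vectors of the kernel span everything and the
matrices are jointly surjective then the range is dense -/
theorem pen_dense (hNK : NK rr) (c : J → Matrix β α ℂ)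
    (h1 : Submodule.span ℂ {v : α → ℂ | ∃ x : Pw α H, pen rr c x = 0 ∧ ∃ w : H,
      v = fun a => ⟪w, x a⟫_ℂ} = ⊤)
    (h2 : Submodule.span ℂ {u : β → ℂ | ∃ j, ∃ v : α → ℂ, u = (c j).mulVec v} = ⊤) :
    (pen rr c).range.topologicalClosure = ⊤ := by
  rw [Submodule.topologicalClosure_eq_top_iff, eq_bot_iff]
  intro z hz
  rw [Submodule.mem_orthogonal'] at hz
  -- `z` is orthogonal to the range
  have hz1 : ∀ (a : α) (w : H), ∑ b, ∑ j, c j b a * ⟪z b, rr j w⟫_ℂ = 0 := by
    intro a w
    have h := hz (pen rr c (sing a w)) ⟨_, rfl⟩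
    rw [PiLp.inner_apply] at h
    rw [← h]
    refine Finset.sum_congr rfl fun b _ => ?_
    rw [pen_apply, inner_sum]
    refine Finset.sum_congr rfl fun j _ => ?_
    rw [inner_sum, Finset.sum_eq_single a]
    · rw [sing_same, inner_smul_right]
    · intro a' _ ha'
      rw [sing_apply, if_neg ha', map_zero, smul_zero, inner_zero_right]
    · simp
  have key : ∀ x : Pw α H, pen rr c x = 0 → ∀ j (w : H),
      ∑ a, ∑ b, (c j b a * ⟪z b, w⟫_ℂ) • x a = 0 := by
    intro x hx
    have h := hNK (fun j => ∑ a, ∑ b, c j b a • rk (x a) (z b))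
      (fun j => FinRank.sum _ fun a _ => FinRank.sum _ fun b _ => (FinRank.rk _ _).smul _)
      (by
        ext1 w
        simp only [sum_apply, ContinuousLinearMap.comp_apply, smul_apply, rk_apply, zero_apply]
        rw [Finset.sum_comm]
        refine Finset.sum_eq_zero fun a _ => ?_
        rw [Finset.sum_comm]
        simp only [smul_smul, ← Finset.sum_smul]
        rw [hz1 a w, zero_smul])
      (by
        ext1 w
        simp only [sum_apply, ContinuousLinearMap.comp_apply, smul_apply, rk_apply, zero_apply,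
          map_sum, map_smul]
        have : ∀ j, ∑ a, ∑ b, c j b a • ⟪z b, w⟫_ℂ • rr j (x a)
            = ∑ b, ⟪z b, w⟫_ℂ • ∑ a, c j b a • rr j (x a) := by
          intro j
          rw [Finset.sum_comm]
          refine Finset.sum_congr rfl fun b _ => ?_
          rw [Finset.smul_sum]
          refine Finset.sum_congr rfl fun a _ => ?_
          rw [smul_comm]
        simp only [this]
        rw [Finset.sum_comm]
        refine Finset.sum_eq_zero fun b _ => ?_
        rw [← Finset.smul_sum, ← pen_apply, hx]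
        simp)
    intro j w
    have h' := congrArg (fun T : H →L[ℂ] H => T w) (h j)
    simp only [sum_apply, smul_apply, rk_apply, zero_apply, smul_smul] at h'
    exact h'
  -- pass to all coefficient vectors
  have key2 : ∀ (v : α → ℂ) j (w : H), ∑ b, ⟪z b, w⟫_ℂ * (c j).mulVec v b = 0 := by
    intro v j w
    have hv : v ∈ Submodule.span ℂ {v : α → ℂ | ∃ x : Pw α H, pen rr c x = 0 ∧ ∃ w : H,
      v = fun a => ⟪w, x a⟫_ℂ} := by rw [h1]; trivial
    induction hv using Submodule.span_induction with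
    | mem v hv =>
      obtain ⟨x, hx, y, rfl⟩ := hv
      have h3 := congrArg (fun u => ⟪y, u⟫_ℂ) (key x hx j w)
      simp only [inner_sum, inner_smul_right, inner_zero_right] at h3
      rw [← h3, Finset.sum_comm]
      refine Finset.sum_congr rfl fun b _ => ?_
      rw [Matrix.mulVec, dotProduct, Finset.mul_sum]
      refine Finset.sum_congr rfl fun a _ => ?_
      ring
    | zero => simp
    | add v v' _ _ hv hv' =>
      rw [Matrix.mulVec_add]
      simp only [Pi.add_apply, mul_add, Finset.sum_add_distrib, hv, hv', add_zero]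
    | smul t v _ hv =>
      rw [Matrix.mulVec_smul]
      simp only [Pi.smul_apply, smul_eq_mul]
      rw [← mul_zero t, ← hv, Finset.mul_sum]
      refine Finset.sum_congr rfl fun b _ => ?_
      ring
  have key3 : ∀ (u : β → ℂ) (w : H), ∑ b, ⟪z b, w⟫_ℂ * u b = 0 := by
    intro u w
    have hu : u ∈ Submodule.span ℂ {u : β → ℂ | ∃ j, ∃ v : α → ℂ, u = (c j).mulVec v} := by
      rw [h2]; trivial
    induction hu using Submodule.span_induction with
    | mem u hu => obtain ⟨j, v, rfl⟩ := hu; exact key2 v j w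
    | zero => simp
    | add v v' _ _ hv hv' =>
      simp only [Pi.add_apply, mul_add, Finset.sum_add_distrib, hv, hv', add_zero]
    | smul t v _ hv =>
      simp only [Pi.smul_apply, smul_eq_mul]
      rw [← mul_zero t, ← hv, Finset.mul_sum]
      refine Finset.sum_congr rfl fun b _ => ?_
      ring
  rw [Submodule.mem_bot]
  classical
  ext b
  have h4 := key3 (Pi.single b 1) (z b)
  rw [Finset.sum_eq_single b] at h4
  · simpa using h4
  · intro b' _ hb'
    simp [Pi.single_eq_of_ne hb']
  · simp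

lemma smat_injective_of {A : Matrix β α ℂ} (hA : ∀ v : α → ℂ, A.mulVec v = 0 → v = 0)
    {x : Pw α H} (h : (smat A x : Pw β H) = 0) : x = 0 := by
  have h1 : ∀ w : H, (fun a => ⟪w, x a⟫_ℂ) = 0 := by
    intro w
    refine hA _ ?_
    funext b
    have h2 := congrArg (fun y : Pw β H => ⟪w, y b⟫_ℂ) h
    simp only [smat_apply, inner_sum, inner_smul_right] at h2
    rw [Matrix.mulVec, dotProduct, h2]
    simp
  ext a
  have h3 := congrFun (h1 (x a)) a
  exact inner_self_eq_zero.1 h3

lemma pen_comp_smat (e : J → Matrix γ β ℂ) (B : Matrix β α ℂ) (x : Pw α H) :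
    pen rr e (smat B x) = pen rr (fun j => e j * B) x := by
  ext l
  simp only [pen_apply, smat_apply, map_sum, map_smul, Matrix.mul_apply]
  refine Finset.sum_congr rfl fun j _ => ?_
  simp only [Finset.smul_sum, Finset.sum_smul, smul_smul]
  rw [Finset.sum_comm]

lemma smat_comp_pen (B : Matrix γ β ℂ) (c : J → Matrix β α ℂ) (x : Pw α H) :
    smat B (pen rr c x) = pen rr (fun j => B * c j) x := by
  ext l
  simp only [pen_apply, smat_apply, Matrix.mul_apply]
  simp only [Finset.smul_sum, Finset.sum_smul, smul_smul]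
  rw [Finset.sum_comm]
  refine Finset.sum_congr rfl fun j _ => ?_
  rw [Finset.sum_comm]

/-- **integrality**: the kernel of a scalar pencil has integer dimension -/
theorem dim_ker_pen (R : TracialRep H) (hr : ∀ j, R.Comm (rr j)) (hNK : NK rr)
    (e : J → Matrix δ γ ℂ) : ∃ z : ℤ, R.dim (pen rr e).ker = z := by
  classical
  set V : Submodule ℂ (γ → ℂ) := Submodule.span ℂ {v : γ → ℂ | ∃ x : Pw γ H, pen rr e x = 0 ∧
    ∃ w : H, v = fun a => ⟪w, x a⟫_ℂ} with hV
  set U : Submodule ℂ (δ → ℂ) := Submodule.span ℂ {u : δ → ℂ | ∃ j, ∃ v ∈ V,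
    u = (e j).mulVec v} with hU
  set v := Module.finBasis ℂ V with hv
  set u := Module.finBasis ℂ U with hu
  set B : Matrix γ (Fin (Module.finrank ℂ V)) ℂ := fun k a => (v a : γ → ℂ) k with hB
  set B' : Matrix δ (Fin (Module.finrank ℂ U)) ℂ := fun k a => (u a : δ → ℂ) k with hB'
  have hmem : ∀ j a, (e j).mulVec (v a : γ → ℂ) ∈ U := fun j a =>
    Submodule.subset_span ⟨j, _, (v a).2, rfl⟩
  set c : J → Matrix (Fin (Module.finrank ℂ U)) (Fin (Module.finrank ℂ V)) ℂ :=
    fun j b a => u.repr ⟨(e j).mulVec (v a : γ → ℂ), hmem j a⟩ b with hc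
  have hBmul : ∀ x : Fin (Module.finrank ℂ V) → ℂ, B.mulVec x = ((∑ a, x a • v a : V) : γ → ℂ) := by
    intro x
    funext k
    rw [Matrix.mulVec, dotProduct, Submodule.coe_sum, Finset.sum_apply]
    refine Finset.sum_congr rfl fun a _ => ?_
    simp [hB, mul_comm]
  have hB'mul : ∀ x : Fin (Module.finrank ℂ U) → ℂ, B'.mulVec x = ((∑ a, x a • u a : U) : δ → ℂ) := by
    intro x
    funext k
    rw [Matrix.mulVec, dotProduct, Submodule.coe_sum, Finset.sum_apply]
    refine Finset.sum_congr rfl fun a _ => ?_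
    simp [hB', mul_comm]
  have hBinj : ∀ x : Fin (Module.finrank ℂ V) → ℂ, B.mulVec x = 0 → x = 0 := by
    intro x hx
    rw [hBmul] at hx
    have h1 : (∑ a, x a • v a : V) = 0 := by
      apply Subtype.ext; exact hx
    funext a
    exact (Fintype.linearIndependent_iff.1 v.linearIndependent) x h1 a
  have hB'inj : ∀ x : Fin (Module.finrank ℂ U) → ℂ, B'.mulVec x = 0 → x = 0 := by
    intro x hx
    rw [hB'mul] at hx
    have h1 : (∑ a, x a • u a : U) = 0 := by
      apply Subtype.ext; exact hx
    funext a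
    exact (Fintype.linearIndependent_iff.1 u.linearIndependent) x h1 a
  have hmul : ∀ j, e j * B = B' * c j := by
    intro j
    funext l a
    have h1 : (∑ b, c j b a • u b : U) = ⟨(e j).mulVec (v a : γ → ℂ), hmem j a⟩ := u.sum_repr _
    have h2 := hB'mul (fun b => c j b a)
    rw [h1] at h2
    have h3 := congrFun h2 l
    rw [Matrix.mul_apply, Matrix.mul_apply]
    exact h3.symm
  have hcomm : ∀ x, pen rr e (smat B x) = smat B' (pen rr c x) := by
    intro x
    rw [pen_comp_smat, smat_comp_pen]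
    simp only [hmul]
  -- left inverse of `B` on `V`
  obtain ⟨p, hp⟩ := LinearMap.exists_leftInverse_of_injective V.subtype (by simp)
  set A' : Matrix (Fin (Module.finrank ℂ V)) γ ℂ := fun a k =>
    v.repr (p (Pi.single k 1)) a with hA'
  have hA'mul : ∀ y : γ → ℂ, A'.mulVec y = fun a => v.repr (p y) a := by
    intro y
    funext a
    rw [Matrix.mulVec, dotProduct]
    have h1 : y = ∑ k, y k • (Pi.single k (1 : ℂ) : γ → ℂ) := by
      funext l
      simp [Finset.sum_apply, Pi.single_apply]
    conv_rhs => rw [h1]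
    simp only [map_sum, map_smul, Finsupp.coe_finsetSum, Finset.sum_apply, Finsupp.coe_smul,
      Pi.smul_apply, smul_eq_mul, hA']
    exact Finset.sum_congr rfl fun k _ => mul_comm _ _
  have hBA : ∀ y ∈ V, B.mulVec (A'.mulVec y) = y := by
    intro y hy
    have h1 : p y = ⟨y, hy⟩ := by
      have := LinearMap.congr_fun hp ⟨y, hy⟩
      simpa using this
    rw [hA'mul, hBmul, h1, v.sum_repr]
  have hker : ∀ x : Pw γ H, pen rr e x = 0 → smat B (smat A' x : Pw _ H) = x := by
    intro x hx
    ext k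
    refine ext_inner_left ℂ fun w => ?_
    have hmemV : (fun a => ⟪w, x a⟫_ℂ) ∈ V := Submodule.subset_span ⟨x, hx, w, rfl⟩
    have h1 := congrFun (hBA _ hmemV) k
    rw [← h1]
    simp only [smat_apply, inner_sum, inner_smul_right, Matrix.mulVec, dotProduct]
  -- the kernel of the reduced pencil
  have hker2 : ∀ y : Pw _ H, pen rr c y = 0 ↔ pen rr e (smat B y) = 0 := by
    intro y
    rw [hcomm]
    constructor
    · intro h; rw [h, map_zero]
    · intro h; exact smat_injective_of hB'inj h
  have hdense : (pen rr c).range.topologicalClosure = ⊤ := by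
    refine pen_dense rr hNK c ?_ ?_
    · -- coefficient vectors
      rw [eq_top_iff]
      intro y _
      have h1 : ∀ z ∈ V, A'.mulVec z ∈ Submodule.span ℂ
          {v : Fin (Module.finrank ℂ V) → ℂ | ∃ x : Pw (Fin (Module.finrank ℂ V)) H,
            pen rr c x = 0 ∧ ∃ w : H, v = fun a => ⟪w, x a⟫_ℂ} := by
        intro z hz
        induction hz using Submodule.span_induction with
        | mem z hz =>
          obtain ⟨x, hx, w, rfl⟩ := hz
          refine Submodule.subset_span ⟨smat A' x, ?_, w, ?_⟩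
          · rw [hker2, hker x hx, hx]
          · funext a
            simp only [smat_apply, inner_sum, inner_smul_right, Matrix.mulVec, dotProduct]
        | zero => rw [Matrix.mulVec_zero]; exact Submodule.zero_mem _
        | add z z' _ _ hz hz' => rw [Matrix.mulVec_add]; exact Submodule.add_mem _ hz hz'
        | smul t z _ hz => rw [Matrix.mulVec_smul]; exact Submodule.smul_mem _ _ hz
      have h2 : B.mulVec y ∈ V := by
        rw [hBmul]; exact Submodule.coe_mem _
      have h3 : A'.mulVec (B.mulVec y) = y := by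
        have h4 := hBA _ h2
        have h5 : B.mulVec (A'.mulVec (B.mulVec y) - y) = 0 := by
          rw [Matrix.mulVec_sub, h4, sub_self]
        exact sub_eq_zero.1 (hBinj _ h5)
      rw [← h3]
      exact h1 _ h2
    · rw [eq_top_iff]
      intro y _
      have h1 : ∀ z ∈ U, ∃ y' ∈ Submodule.span ℂ {u : Fin (Module.finrank ℂ U) → ℂ | ∃ j,
          ∃ v : Fin (Module.finrank ℂ V) → ℂ, u = (c j).mulVec v}, B'.mulVec y' = z := by
        intro z hz
        induction hz using Submodule.span_induction with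
        | mem z hz =>
          obtain ⟨j, w, hw, rfl⟩ := hz
          refine ⟨(c j).mulVec (A'.mulVec w), Submodule.subset_span ⟨j, _, rfl⟩, ?_⟩
          rw [Matrix.mulVec_mulVec, ← hmul, ← Matrix.mulVec_mulVec, hBA w hw]
        | zero => exact ⟨0, Submodule.zero_mem _, Matrix.mulVec_zero _⟩
        | add z z' _ _ hz hz' =>
          obtain ⟨y1, h1, h2⟩ := hz
          obtain ⟨y2, h3, h4⟩ := hz'
          exact ⟨y1 + y2, Submodule.add_mem _ h1 h3, by rw [Matrix.mulVec_add, h2, h4]⟩
        | smul t z _ hz =>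
          obtain ⟨y1, h1, h2⟩ := hz
          exact ⟨t • y1, Submodule.smul_mem _ _ h1, by rw [Matrix.mulVec_smul, h2]⟩
      have h2 : B'.mulVec y ∈ U := by
        rw [hB'mul]; exact Submodule.coe_mem _
      obtain ⟨y', hy', h3⟩ := h1 _ h2
      have h4 : y' = y := by
        have h5 : B'.mulVec (y' - y) = 0 := by rw [Matrix.mulVec_sub, h3, sub_self]
        exact sub_eq_zero.1 (hB'inj _ h5)
      rw [← h4]
      exact hy'
  have hI := inter_pen rr R hr c
  have h1 := R.dim_range_add_dim_ker hI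
  have h2 : R.dim (pen rr c).range = Fintype.card (Fin (Module.finrank ℂ U)) := by
    rw [← R.dim_closure, hdense, R.dim_top]
  have h3 : (pen rr c).ker.map ((smat B : Pw _ H →L[ℂ] Pw γ H) : Pw _ H →ₗ[ℂ] Pw γ H)
      = (pen rr e).ker := by
    ext x
    constructor
    · rintro ⟨y, hy, rfl⟩
      exact (hker2 y).1 hy
    · intro hx
      refine ⟨smat A' x, ?_, hker x hx⟩
      have hx' : pen rr e x = 0 := hx
      show pen rr c (smat A' x) = 0
      rw [hker2, hker x hx', hx']
  have h4 : R.dim (pen rr e).ker = R.dim (pen rr c).ker := by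
    rw [← h3]
    refine R.dim_map_of_injOn hI.inv_ker (inter_smat R B) ?_
    intro x _ hx
    exact smat_injective_of hBinj hx
  refine ⟨(Module.finrank ℂ V : ℤ) - Module.finrank ℂ U, ?_⟩
  rw [h4]
  rw [h2, Fintype.card_fin, Fintype.card_fin] at h1
  push_cast
  linarith

end pencils

end Pool.Agent.Lib.MP_3a1c55_an
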