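import Pool.Agent.Lib.MP_3a1c55_an.Mor

/-!
# Tensors of submodules, product formula, density of exact preimages
-/

set_option autoImplicit false
set_option linter.unusedSectionVars false
set_option linter.unusedSimpArgs false

open scoped InnerProductSpace
open Filter Topology

namespace Pool.Agent.Lib.MP_3a1c55_an

open TracialRep

section preimage

variable {K : Type*} [NormedAddCommGroup K] [InnerProductSpace ℂ K] [CompleteSpace K]
variable {κ μ γ : Type} [Fintype κ] [Fintype μ] [Fintype γ]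

/-- exact preimages under an intertwiner with dense range are dense -/
lemma dense_preimage (R : TracialRep K) {A : Pw κ K →L[ℂ] Pw μ K} {B : Pw γ K →L[ℂ] Pw μ K}
    (hA : R.Inter A) (hB : R.Inter B) (hd : A.range.topologicalClosure = ⊤) :
    (A.range.comap (B : Pw γ K →ₗ[ℂ] Pw μ K)).topologicalClosure = ⊤ := by
  set D : Pw (γ ⊕ κ) K →L[ℂ] Pw μ K := B ∘L pull Sum.inl - A ∘L pull Sum.inr with hD
  have hDI : R.Inter D := (hB.comp (inter_pull R _)).sub (hA.comp (inter_pull R _))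
  have hDr : D.range.topologicalClosure = ⊤ := by
    rw [eq_top_iff, ← hd]
    refine Submodule.topologicalClosure_mono ?_
    rintro _ ⟨x, rfl⟩
    refine ⟨inR γ (-x), ?_⟩
    show B (pull Sum.inl (inR γ (-x))) - A (pull Sum.inr (inR γ (-x))) = A x
    have h1 : pull Sum.inl (inR γ (-x)) = (0 : Pw γ K) := by ext k; simp
    have h2 : pull Sum.inr (inR γ (-x)) = -x := by ext k; simp
    rw [h1, h2, map_zero, map_neg, zero_sub, neg_neg]
  have h1 := R.dim_range_add_dim_ker hDI
  have h2 := R.dim_range_add_dim_ker hA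
  rw [← R.dim_closure, hDr, R.dim_top] at h1
  rw [← R.dim_closure, hd, R.dim_top] at h2
  have h3 := R.dim_map_add_dim_inf_ker (hDI.inv_ker) (inter_pull R (Sum.inl : γ → γ ⊕ κ))
  have hcl : D.ker.topologicalClosure = D.ker :=
    IsClosed.submodule_topologicalClosure_eq (ContinuousLinearMap.isClosed_ker D)
  rw [hcl] at h3
  have h4 : R.dim (D.ker ⊓ (pull (Sum.inl : γ → γ ⊕ κ) : Pw (γ ⊕ κ) K →L[ℂ] Pw γ K).ker)
      = R.dim A.ker := by
    have h5 : D.ker ⊓ (pull (Sum.inl : γ → γ ⊕ κ) : Pw (γ ⊕ κ) K →L[ℂ] Pw γ K).ker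
        = A.ker.map ((inR γ : Pw κ K →L[ℂ] Pw (γ ⊕ κ) K) : Pw κ K →ₗ[ℂ] Pw (γ ⊕ κ) K) := by
      ext x
      constructor
      · rintro ⟨hx1, hx2⟩
        have hx1' : B (pull Sum.inl x) - A (pull Sum.inr x) = 0 := hx1
        have hx2' : pull Sum.inl x = (0 : Pw γ K) := hx2
        rw [hx2', map_zero, zero_sub, neg_eq_zero] at hx1'
        refine ⟨pull Sum.inr x, hx1', ?_⟩
        show inR γ (pull Sum.inr x) = x
        conv_rhs => rw [← inL_add_inR x]
        rw [hx2', map_zero, zero_add]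
      · rintro ⟨y, hy, rfl⟩
        have hy' : A y = 0 := hy
        have e1 : pull Sum.inl (inR γ y) = (0 : Pw γ K) := by ext k; simp
        have e2 : pull Sum.inr (inR γ y) = y := by ext k; simp
        refine ⟨?_, e1⟩
        show B (pull Sum.inl (inR γ y)) - A (pull Sum.inr (inR γ y)) = 0
        rw [e1, e2, hy', map_zero, sub_zero]
    rw [h5]
    refine R.dim_map_of_injOn hA.inv_ker (inter_inR R) ?_
    intro x _ hx
    ext k
    have := congrArg (fun y : Pw (γ ⊕ κ) K => y (Sum.inr k)) hx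
    simpa using this
  have h6 : D.ker.map ((pull (Sum.inl : γ → γ ⊕ κ) : Pw (γ ⊕ κ) K →L[ℂ] Pw γ K) :
      Pw (γ ⊕ κ) K →ₗ[ℂ] Pw γ K) ≤ A.range.comap (B : Pw γ K →ₗ[ℂ] Pw μ K) := by
    rintro _ ⟨x, hx, rfl⟩
    have hx' : B (pull Sum.inl x) - A (pull Sum.inr x) = 0 := hx
    rw [sub_eq_zero] at hx'
    exact ⟨pull Sum.inr x, hx'.symm⟩
  have h7 : R.dim (D.ker.map ((pull (Sum.inl : γ → γ ⊕ κ) : Pw (γ ⊕ κ) K →L[ℂ] Pw γ K) :
      Pw (γ ⊕ κ) K →ₗ[ℂ] Pw γ K)) = Fintype.card γ := by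
    rw [Fintype.card_sum] at h1
    push_cast at h1
    linarith
  have h8 := R.le_closure_of_dim_le (hDI.inv_ker.map (inter_pull R (Sum.inl : γ → γ ⊕ κ)))
    inv_top (by
      intro x _
      exact Submodule.le_topologicalClosure _ Submodule.mem_top) (by rw [h7, R.dim_top])
  rw [eq_top_iff]
  exact h8.trans (Submodule.topologicalClosure_mono h6)

end preimage

variable {H : Type*} [NormedAddCommGroup H] [InnerProductSpace ℂ H] [CompleteSpace H]
variable {ι : Type*} (b : HilbertBasis ι ℂ H)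
variable {α β κ : Type} [Fintype α] [Fintype β] [Fintype κ]

/-- the tensor `(|φ_k⟩⟨y_a|)_{(a,k)}` -/
noncomputable def tn (φ : Pw κ H) (y : Pw α H) : Pw (α × κ) (HSp ι H) :=
  WithLp.toLp 2 fun p => hs b (φ p.2) (y p.1)

@[simp] lemma tn_apply (φ : Pw κ H) (y : Pw α H) (p : α × κ) :
    tn b φ y p = hs b (φ p.2) (y p.1) := rfl

lemma inner_tn (φ : Pw κ H) (y : Pw α H) (φ' : Pw κ H) (y' : Pw α H) :
    ⟪tn b φ y, tn b φ' y'⟫_ℂ = ⟪φ, φ'⟫_ℂ * ⟪y', y⟫_ℂ := by
  rw [PiLp.inner_apply, PiLp.inner_apply, PiLp.inner_apply, Fintype.sum_prod_type,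
    Finset.sum_mul_sum, Finset.sum_comm]
  refine Finset.sum_congr rfl fun k _ => Finset.sum_congr rfl fun a _ => ?_
  rw [tn_apply, tn_apply, inner_hs]

lemma norm_tn (φ : Pw κ H) (y : Pw α H) : ‖tn b φ y‖ = ‖φ‖ * ‖y‖ := by
  have h := inner_tn b φ y φ y
  rw [inner_self_eq_norm_sq_to_K, inner_self_eq_norm_sq_to_K, inner_self_eq_norm_sq_to_K] at h
  have h2 : ‖tn b φ y‖ ^ 2 = (‖φ‖ * ‖y‖) ^ 2 := by
    rw [mul_pow]; exact_mod_cast h
  exact (pow_left_inj₀ (norm_nonneg _) (by positivity) two_ne_zero).1 h2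

lemma tn_add_left (φ φ' : Pw κ H) (y : Pw α H) : tn b (φ + φ') y = tn b φ y + tn b φ' y := by
  ext1 k; simp [hs_add_left]

lemma tn_add_right (φ : Pw κ H) (y y' : Pw α H) : tn b φ (y + y') = tn b φ y + tn b φ y' := by
  ext1 k; simp [hs_add_right]

lemma tn_smul_left (c : ℂ) (φ : Pw κ H) (y : Pw α H) : tn b (c • φ) y = c • tn b φ y := by
  ext1 k; simp [hs_smul_left]

lemma tn_smul_right (c : ℂ) (φ : Pw κ H) (y : Pw α H) :
    tn b φ (c • y) = (starRingEnd ℂ) c • tn b φ y := by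
  ext1 k; simp [hs_smul_right]

lemma tn_sub_left (φ φ' : Pw κ H) (y : Pw α H) : tn b (φ - φ') y = tn b φ y - tn b φ' y := by
  rw [eq_sub_iff_add_eq, ← tn_add_left, sub_add_cancel]

lemma tn_sub_right (φ : Pw κ H) (y y' : Pw α H) : tn b φ (y - y') = tn b φ y - tn b φ y' := by
  rw [eq_sub_iff_add_eq, ← tn_add_right, sub_add_cancel]

lemma continuous_tn : Continuous fun p : Pw κ H × Pw α H => tn b p.1 p.2 := by
  have h : Continuous fun p : Pw κ H × Pw α H =>
      (fun q => hs b (p.1 q.2) (p.2 q.1) : α × κ → HSp ι H) := by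
    refine continuous_pi fun q => ?_
    have h1 : Continuous fun p : Pw κ H × Pw α H => ((p.1 q.2, p.2 q.1) : H × H) :=
      ((PiLp.continuous_apply 2 (fun _ : κ => H) q.2).comp continuous_fst).prodMk
        ((PiLp.continuous_apply 2 (fun _ : α => H) q.1).comp continuous_snd)
    exact (continuous_hs b).comp h1
  exact (PiLp.continuous_toLp 2 _).comp h

/-- tensor product of submodules -/
noncomputable def tspan (N : Submodule ℂ (Pw κ H)) (Y : Submodule ℂ (Pw α H)) :
    Submodule ℂ (Pw (α × κ) (HSp ι H)) :=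
  Submodule.span ℂ {x | ∃ φ ∈ N, ∃ y ∈ Y, x = tn b φ y}

lemma tn_mem_tspan {N : Submodule ℂ (Pw κ H)} {Y : Submodule ℂ (Pw α H)} {φ : Pw κ H}
    {y : Pw α H} (hφ : φ ∈ N) (hy : y ∈ Y) : tn b φ y ∈ tspan b N Y :=
  Submodule.subset_span ⟨φ, hφ, y, hy, rfl⟩

lemma diag_LR_tn (a s : H →L[ℂ] H) (φ : Pw κ H) (y : Pw α H) :
    diag (α × κ) (LR b a s) (tn b φ y)
      = tn b (diag κ a φ) (diag α (ContinuousLinearMap.adjoint s) y) := by
  ext1 k
  simp [LR_hs]

lemma inv_tspan (R : TracialRep H) {N : Submodule ℂ (Pw κ H)} {Y : Submodule ℂ (Pw α H)}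
    (hN : R.Inv N) (hY : R.Inv Y) : (hsRep b R).Inv (tspan b N Y) := by
  rintro _ ⟨a, ha, s, hs', rfl⟩ x hx
  induction hx using Submodule.span_induction with
  | mem u hu =>
    obtain ⟨φ, hφ, y, hy, rfl⟩ := hu
    rw [diag_LR_tn]
    exact tn_mem_tspan b (hN a ha φ hφ) (hY _ (R.adj_mem s hs') y hy)
  | zero => rw [map_zero]; exact Submodule.zero_mem _
  | add u v _ _ hu hv => rw [map_add]; exact Submodule.add_mem _ hu hv
  | smul c u _ hu => rw [map_smul]; exact Submodule.smul_mem _ _ hu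

lemma tn_mem_closure_tspan {N : Submodule ℂ (Pw κ H)} {Y : Submodule ℂ (Pw α H)} {φ : Pw κ H}
    {y : Pw α H} (hφ : φ ∈ N.topologicalClosure) (hy : y ∈ Y.topologicalClosure) :
    tn b φ y ∈ (tspan b N Y).topologicalClosure := by
  have h1 : ((φ, y) : Pw κ H × Pw α H) ∈ closure ((N : Set (Pw κ H)) ×ˢ (Y : Set (Pw α H))) := by
    rw [closure_prod_eq]
    exact ⟨hφ, hy⟩
  have h2 : Set.MapsTo (fun p : Pw κ H × Pw α H => tn b p.1 p.2)
      ((N : Set (Pw κ H)) ×ˢ (Y : Set (Pw α H))) (tspan b N Y : Set (Pw (α × κ) (HSp ι H))) :=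
    fun p hp => tn_mem_tspan b hp.1 hp.2
  exact h2.closure (continuous_tn b) h1

lemma sing_Ω_prod (R : TracialRep H) (p : α × κ) :
    (sing p (hsRep b R).Ω : Pw (α × κ) (HSp ι H)) = tn b (sing p.2 R.Ω) (sing p.1 R.Ω) := by
  classical
  ext1 q
  rw [tn_apply, sing_apply, sing_apply, sing_apply]
  have hz1 : ∀ z : H, hs b 0 z = 0 := fun z => by
    have := hs_smul_left b 0 (0 : H) z
    simpa using this
  have hz2 : ∀ z : H, hs b z 0 = 0 := fun z => by
    have := hs_smul_right b 0 z (0 : H)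
    simpa using this
  by_cases h1 : q.1 = p.1
  · by_cases h2 : q.2 = p.2
    · have : q = p := Prod.ext h1 h2
      simp [this]
      rfl
    · have : q ≠ p := fun h => h2 (by rw [h])
      simp [this, h2, hz1]
  · have : q ≠ p := fun h => h1 (by rw [h])
    simp [this, h1, hz2]

/-- the product formula -/
theorem dim_tspan (R : TracialRep H) (N : Submodule ℂ (Pw κ H)) (Y : Submodule ℂ (Pw α H)) :
    (hsRep b R).dim (tspan b N Y) = R.dim N * R.dim Y := by
  unfold TracialRep.dim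
  rw [Fintype.sum_prod_type, Finset.sum_mul_sum, Finset.sum_comm]
  refine Finset.sum_congr rfl fun k _ => Finset.sum_congr rfl fun a _ => ?_
  rw [sing_Ω_prod]
  have h : prj (tspan b N Y) (tn b (sing k R.Ω) (sing a R.Ω))
      = tn b (prj N (sing k R.Ω)) (prj Y (sing a R.Ω)) := by
    refine prj_unique (tn_mem_closure_tspan b (prj_mem N _) (prj_mem Y _)) ?_
    rw [tspan, Submodule.mem_orthogonal]
    intro u hu
    induction hu using Submodule.span_induction with
    | mem u hu =>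
      obtain ⟨φ, hφ, y, hy, rfl⟩ := hu
      have e : tn b (sing k R.Ω) (sing a R.Ω) - tn b (prj N (sing k R.Ω)) (prj Y (sing a R.Ω))
          = tn b (sing k R.Ω - prj N (sing k R.Ω)) (sing a R.Ω)
            + tn b (prj N (sing k R.Ω)) (sing a R.Ω - prj Y (sing a R.Ω)) := by
        rw [tn_sub_left, tn_sub_right]; abel
      rw [e, inner_add_right, inner_tn, inner_tn]
      have h3 : ⟪φ, sing k R.Ω - prj N (sing k R.Ω)⟫_ℂ = 0 :=
        (Submodule.mem_orthogonal _ _).1 (sub_prj_mem N _) φ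
          (Submodule.le_topologicalClosure _ hφ)
      have h4 : ⟪sing a R.Ω - prj Y (sing a R.Ω), y⟫_ℂ = 0 :=
        (Submodule.mem_orthogonal' _ _).1 (sub_prj_mem Y _) y
          (Submodule.le_topologicalClosure _ hy)
      rw [h3, h4, zero_mul, mul_zero, add_zero]
    | zero => exact inner_zero_left _
    | add u v _ _ hu hv => rw [inner_add_left, hu, hv, add_zero]
    | smul c u _ hu => rw [inner_smul_left, hu, mul_zero]
  rw [h, norm_tn, mul_pow]

/-- `powS α N ⊗ H*` is spanned by the tensors with `N` -/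
lemma tspan_top_eq_hat (N : Submodule ℂ (Pw κ H)) :
    tspan b N (⊤ : Submodule ℂ (Pw α H)) = hat b (powS α N) := by
  classical
  apply le_antisymm
  · refine Submodule.span_le.2 ?_
    rintro _ ⟨φ, hφ, y, -, rfl⟩
    have h : tn b φ y = ∑ a, pt b (WithLp.toLp 2 fun p : α × κ => if p.1 = a then φ p.2 else 0)
        (y a) := by
      ext1 p
      rw [WithLp.ofLp_sum, Finset.sum_apply, Finset.sum_eq_single p.1]
      · simp
      · intro a _ ha
        have hz1 : ∀ z : H, hs b 0 z = 0 := fun z => by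
          have := hs_smul_left b 0 (0 : H) z
          simpa using this
        simp [ha.symm, hz1]
      · simp
    rw [h]
    refine Submodule.sum_mem _ fun a _ => pt_mem_hat b ?_ _
    rw [mem_powS]
    intro g
    by_cases hg : g = a
    · have : (sl g : Pw (α × κ) H →L[ℂ] Pw κ H)
          (WithLp.toLp 2 fun p : α × κ => if p.1 = a then φ p.2 else 0) = φ := by
        ext k; simp [hg]
      rw [this]; exact hφ
    · have : (sl g : Pw (α × κ) H →L[ℂ] Pw κ H)
          (WithLp.toLp 2 fun p : α × κ => if p.1 = a then φ p.2 else 0) = 0 := by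
        ext k; simp [hg]
      rw [this]; exact Submodule.zero_mem _
  · refine Submodule.span_le.2 ?_
    rintro _ ⟨x, hx, z, rfl⟩
    have h : pt b x z = ∑ a, tn b (sl a x) (sing a z) := by
      ext1 p
      rw [WithLp.ofLp_sum, Finset.sum_apply, Finset.sum_eq_single p.1]
      · simp
      · intro a _ ha
        have hz2 : ∀ z : H, hs b z 0 = 0 := fun z => by
          have := hs_smul_right b 0 z (0 : H)
          simpa using this
        simp [sing_apply, ha.symm, hz2]
      · simp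
    rw [h]
    exact Submodule.sum_mem _ fun a _ => tn_mem_tspan b (mem_powS.1 hx a) Submodule.mem_top

lemma dim_powS (R : TracialRep H) (N : Submodule ℂ (Pw κ H)) :
    R.dim (powS α N) = R.dim N * Fintype.card α := by
  classical
  -- use any Hilbert basis
  obtain ⟨w, bb, -⟩ := exists_hilbertBasis ℂ H
  rw [← dim_hat bb, ← tspan_top_eq_hat, dim_tspan, R.dim_top]

end Pool.Agent.Lib.MP_3a1c55_an
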